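import Pool.Agent.Lib.MP_6f9530_pr.Survival

open MeasureTheory Set Filter Topology

namespace DWTree

/-- Complement of the survival function. -/
noncomputable def cF (s : ℝ → ℝ) (x : ℝ) : ℝ := 1 - s x

/-- Minus the derivative of the survival function. -/
noncomputable def gg (c : ℝ) (s : ℝ → ℝ) (x : ℝ) : ℝ := s x * cF s (c * x)

/-- Measurable and bounded. -/
def BM (φ : ℝ → ℝ) : Prop := Measurable φ ∧ ∃ C, ∀ x, |φ x| ≤ C

lemma BM.ii {φ : ℝ → ℝ} (h : BM φ) (a b : ℝ) : IntervalIntegrable φ volume a b := by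
  obtain ⟨hm, C, hC⟩ := h
  apply (intervalIntegrable_const (c := C)).mono_fun hm.aestronglyMeasurable
  refine Eventually.of_forall fun y => ?_
  show ‖φ y‖ ≤ ‖C‖
  rw [Real.norm_eq_abs, Real.norm_eq_abs]
  exact (hC y).trans (le_abs_self C)

lemma BM.mul {φ ψ : ℝ → ℝ} (h : BM φ) (h' : BM ψ) : BM (fun x => φ x * ψ x) := by
  obtain ⟨hm, C, hC⟩ := h
  obtain ⟨hm', C', hC'⟩ := h'
  refine ⟨hm.mul hm', C * C', fun x => ?_⟩
  rw [abs_mul]
  exact mul_le_mul (hC x) (hC' x) (abs_nonneg _) ((abs_nonneg _).trans (hC x))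

lemma BM.add {φ ψ : ℝ → ℝ} (h : BM φ) (h' : BM ψ) : BM (fun x => φ x + ψ x) := by
  obtain ⟨hm, C, hC⟩ := h
  obtain ⟨hm', C', hC'⟩ := h'
  exact ⟨hm.add hm', C + C', fun x => (abs_add_le _ _).trans (add_le_add (hC x) (hC' x))⟩

lemma BM.const (a : ℝ) : BM (fun _ => a) := ⟨measurable_const, |a|, fun _ => le_refl _⟩

lemma BM.neg {φ : ℝ → ℝ} (h : BM φ) : BM (fun x => - φ x) := by
  obtain ⟨hm, C, hC⟩ := h
  exact ⟨hm.neg, C, fun x => by rw [abs_neg]; exact hC x⟩

lemma BM.sub {φ ψ : ℝ → ℝ} (h : BM φ) (h' : BM ψ) : BM (fun x => φ x - ψ x) := by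
  simpa [sub_eq_add_neg] using h.add h'.neg

lemma BM.comp_mul {φ : ℝ → ℝ} (h : BM φ) (a : ℝ) : BM (fun x => φ (a * x)) := by
  obtain ⟨hm, C, hC⟩ := h
  exact ⟨hm.comp (by fun_prop), C, fun x => hC _⟩

lemma BM.exp {φ : ℝ → ℝ} (h : BM φ) : BM (fun x => Real.exp (φ x)) := by
  obtain ⟨hm, C, hC⟩ := h
  refine ⟨Real.measurable_exp.comp hm, Real.exp C, fun x => ?_⟩
  rw [abs_of_pos (Real.exp_pos _)]
  exact Real.exp_le_exp.mpr ((le_abs_self _).trans (hC x))

lemma BM.sum {ι : Type*} (t : Finset ι) (φ : ι → ℝ → ℝ) (h : ∀ i ∈ t, BM (φ i)) :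
    BM (fun x => ∑ i ∈ t, φ i x) := by
  classical
  induction t using Finset.induction_on with
  | empty => simpa using BM.const 0
  | insert i t hi ih =>
    have h1 := (h i (Finset.mem_insert_self i t)).add
      (ih (fun j hj => h j (Finset.mem_insert_of_mem hj)))
    refine ⟨?_, ?_⟩
    · have := h1.1
      simpa [Finset.sum_insert hi] using this
    · obtain ⟨C, hC⟩ := h1.2
      exact ⟨C, fun x => by simpa [Finset.sum_insert hi] using hC x⟩

lemma BM.indicator {φ : ℝ → ℝ} (h : BM φ) {S : Set ℝ} (hS : MeasurableSet S) :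
    BM (S.indicator φ) := by
  obtain ⟨hm, C, hC⟩ := h
  refine ⟨hm.indicator hS, |C|, fun x => ?_⟩
  by_cases hx : x ∈ S
  · rw [indicator_of_mem hx]; exact (hC x).trans (le_abs_self _)
  · rw [indicator_of_notMem hx]; simp

namespace Surv

variable {c : ℝ} {s : ℝ → ℝ}

lemma pos (h : Surv c s) (x : ℝ) : 0 < s x := by
  rw [h.eq]; exact Real.exp_pos _

lemma s0 (h : Surv c s) : s 0 = 1 := by
  rw [h.eq]; simp

lemma cont_c (h : Surv c s) : Continuous fun y : ℝ => s (c * y) :=
  h.cont.comp (by fun_prop)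

lemma hasDeriv (h : Surv c s) (x : ℝ) : HasDerivAt s (-(gg c s x)) x := by
  have h1 : HasDerivAt (fun z => ∫ y in (0:ℝ)..z, s (c * y)) (s (c * x)) x :=
    intervalIntegral.integral_hasDerivAt_right (h.cont_c.intervalIntegrable _ _)
      (h.cont_c.stronglyMeasurableAtFilter _ _) h.cont_c.continuousAt
  have h2 : HasDerivAt (fun z : ℝ => -z + ∫ y in (0:ℝ)..z, s (c * y)) (-1 + s (c * x)) x :=
    (hasDerivAt_neg x).add h1
  have h3 := h2.exp
  have h4 : (fun z : ℝ => Real.exp (-z + ∫ y in (0:ℝ)..z, s (c * y))) = s := by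
    funext z; exact (h.eq z).symm
  rw [h4, ← h.eq x] at h3
  have h5 : -(gg c s x) = s x * (-1 + s (c * x)) := by unfold gg cF; ring
  rw [h5]; exact h3

lemma gg_nonneg (h : Surv c s) (x : ℝ) : 0 ≤ gg c s x := by
  unfold gg cF
  exact mul_nonneg (h.pos x).le (by linarith [h.le1 (c * x)])

lemma gg_cont (h : Surv c s) : Continuous (gg c s) := by
  unfold gg cF
  exact h.cont.mul (continuous_const.sub h.cont_c)

lemma anti (h : Surv c s) : Antitone s := by
  apply antitone_of_deriv_nonpos (fun x => (h.hasDeriv x).differentiableAt)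
  intro x
  rw [(h.hasDeriv x).deriv]
  linarith [h.gg_nonneg x]

lemma of_nonpos (h : Surv c s) {x : ℝ} (hx : x ≤ 0) : s x = 1 := by
  apply le_antisymm (h.le1 x)
  rw [← h.s0]; exact h.anti hx

lemma cF_nonneg (h : Surv c s) (x : ℝ) : 0 ≤ cF s x := by
  unfold cF; linarith [h.le1 x]

lemma cF_le_one (h : Surv c s) (x : ℝ) : cF s x ≤ 1 := by
  unfold cF; linarith [h.pos x]

lemma cF_mono (h : Surv c s) : Monotone (cF s) := by
  intro x y hxy
  unfold cF; linarith [h.anti hxy]

lemma cF_cont (h : Surv c s) : Continuous (cF s) := continuous_const.sub h.cont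

lemma cF_of_nonpos (h : Surv c s) {x : ℝ} (hx : x ≤ 0) : cF s x = 0 := by
  unfold cF; rw [h.of_nonpos hx]; ring

lemma gg_le_one (h : Surv c s) (x : ℝ) : gg c s x ≤ 1 := by
  unfold gg
  have := mul_le_mul (h.le1 x) (h.cF_le_one (c * x)) (h.cF_nonneg _) zero_le_one
  simpa using this

lemma gg_le_s (h : Surv c s) (x : ℝ) : gg c s x ≤ s x := by
  unfold gg
  have := mul_le_mul (le_refl (s x)) (h.cF_le_one (c * x)) (h.cF_nonneg _) (h.pos x).le
  simpa using this

lemma integral_gg (h : Surv c s) (a b : ℝ) : ∫ y in a..b, gg c s y = cF s b - cF s a := by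
  have h1 : ∀ x ∈ uIcc a b, HasDerivAt (cF s) (gg c s x) x := by
    intro x _
    have h2 := (h.hasDeriv x).const_sub 1
    rw [neg_neg] at h2
    exact h2
  exact intervalIntegral.integral_eq_sub_of_hasDerivAt h1 (h.gg_cont.intervalIntegrable _ _)

lemma integral_gg0 (h : Surv c s) (b : ℝ) : ∫ y in (0:ℝ)..b, gg c s y = cF s b := by
  rw [h.integral_gg, h.cF_of_nonpos le_rfl]; ring

lemma exp_le (h : Surv c s) {x : ℝ} (hx : 0 ≤ x) : Real.exp (-x) ≤ s x := by
  rw [h.eq x]
  apply Real.exp_le_exp.mpr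
  have : 0 ≤ ∫ y in (0:ℝ)..x, s (c * y) :=
    intervalIntegral.integral_nonneg hx (fun y _ => (h.pos _).le)
  linarith

lemma cF_le_mul (h : Surv c s) {x : ℝ} (hx : 0 ≤ x) : cF s x ≤ x * cF s (c * x) := by
  have h1 := h.integral_gg0 x
  rw [← h1]
  have h2 : ∫ y in (0:ℝ)..x, gg c s y ≤ ∫ y in (0:ℝ)..x, cF s (c * x) := by
    apply intervalIntegral.integral_mono_on hx (h.gg_cont.intervalIntegrable _ _) (by simp)
    intro y hy
    unfold gg
    have h3 : cF s (c * y) ≤ cF s (c * x) :=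
      h.cF_mono (mul_le_mul_of_nonneg_left hy.2 (by linarith [h.hc]))
    have := mul_le_mul (h.le1 y) h3 (h.cF_nonneg _) zero_le_one
    simpa using this
  refine h2.trans (le_of_eq ?_)
  simp

lemma step_one (h : Surv c s) {b : ℝ} (hb : 0 < b) (h1 : s b = 1) : s ((1 + c) / 2 * b) = 1 := by
  have hc := h.hc
  apply le_antisymm (h.le1 _)
  set b' : ℝ := (1 + c) / (2 * c) * b with hb'
  have hb'0 : 0 < b' := by rw [hb']; positivity
  have hb'1 : b' < b := by
    rw [hb']
    have : (1 + c) / (2 * c) < 1 := by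
      rw [div_lt_one (by linarith)]; linarith
    nlinarith
  have hcb : c * b' = (1 + c) / 2 * b := by
    rw [hb']; field_simp
  have h2 := h.eq b
  rw [h1] at h2
  have h3 : -b + ∫ y in (0:ℝ)..b, s (c * y) = 0 := by
    have := congrArg Real.log h2
    rw [Real.log_one, Real.log_exp] at this
    exact this.symm
  have hii : ∀ a b : ℝ, IntervalIntegrable (fun y => s (c * y)) volume a b :=
    fun a b => h.cont_c.intervalIntegrable a b
  have h4 : ∫ y in (0:ℝ)..b, s (c * y)
      = (∫ y in (0:ℝ)..b', s (c * y)) + ∫ y in b'..b, s (c * y) :=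
    (intervalIntegral.integral_add_adjacent_intervals (hii 0 b') (hii b' b)).symm
  have h5 : ∫ y in (0:ℝ)..b', s (c * y) ≤ b' := by
    have := intervalIntegral.integral_mono_on (a := 0) (b := b') (f := fun y => s (c * y))
      (g := fun _ => (1:ℝ)) hb'0.le (hii 0 b') (by simp) (fun y _ => h.le1 _)
    simpa using this
  have h6 : ∫ y in b'..b, s (c * y) ≤ (b - b') * s (c * b') := by
    have := intervalIntegral.integral_mono_on (a := b') (b := b) (f := fun y => s (c * y))
      (g := fun _ => s (c * b')) hb'1.le (hii b' b) (by simp)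
      (fun y hy => h.anti (mul_le_mul_of_nonneg_left hy.1 (by linarith)))
    simpa using this
  rw [← hcb]
  by_contra hlt
  push Not at hlt
  have : (b - b') * s (c * b') < (b - b') * 1 := mul_lt_mul_of_pos_left hlt (by linarith)
  linarith

lemma lt_one (h : Surv c s) {x : ℝ} (hx : 0 < x) : s x < 1 := by
  rcases lt_or_eq_of_le (h.le1 x) with h1 | h1
  · exact h1
  exfalso
  have hc := h.hc
  have hθ : 1 < (1 + c) / 2 := by linarith
  have hall : ∀ n : ℕ, s (((1 + c) / 2) ^ n * x) = 1 := by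
    intro n
    induction n with
    | zero => simpa using h1
    | succ n ih =>
      have := h.step_one (b := ((1 + c) / 2) ^ n * x) (by positivity) ih
      have e : ((1 + c) / 2) ^ (n + 1) * x = (1 + c) / 2 * (((1 + c) / 2) ^ n * x) := by ring
      rw [e]; exact this
  obtain ⟨B, hB, hdec⟩ := h.dec
  have ht : Tendsto (fun n : ℕ => ((1 + c) / 2) ^ n * x) atTop atTop :=
    (tendsto_pow_atTop_atTop_of_one_lt hθ).atTop_mul_const hx
  have ht2 : Tendsto (fun n : ℕ => B * Real.exp (-(((1 + c) / 2) ^ n * x) / 2)) atTop (𝓝 (B * 0)) := by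
    apply Tendsto.const_mul
    apply Real.tendsto_exp_atBot.comp
    have h2 : Tendsto (fun n : ℕ => (((1 + c) / 2) ^ n * x) / 2) atTop atTop :=
      ht.atTop_div_const (by norm_num)
    have h3 := tendsto_neg_atTop_atBot.comp h2
    refine h3.congr (fun n => ?_)
    simp only [Function.comp]; ring
  rw [mul_zero] at ht2
  have h4 : ∀ n : ℕ, (1:ℝ) ≤ B * Real.exp (-(((1 + c) / 2) ^ n * x) / 2) := by
    intro n
    calc (1:ℝ) = s (((1 + c) / 2) ^ n * x) := (hall n).symm
      _ ≤ _ := hdec _ (by positivity)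
  have := ge_of_tendsto' ht2 h4
  linarith

lemma cF_pos (h : Surv c s) {x : ℝ} (hx : 0 < x) : 0 < cF s x := by
  unfold cF; linarith [h.lt_one hx]

lemma bm_s (h : Surv c s) : BM s :=
  ⟨h.cont.measurable, 1, fun x => by rw [abs_of_pos (h.pos x)]; exact h.le1 x⟩

lemma bm_gg (h : Surv c s) : BM (gg c s) :=
  ⟨h.gg_cont.measurable, 1, fun x => by rw [abs_of_nonneg (h.gg_nonneg x)]; exact h.gg_le_one x⟩

end Surv

end DWTree
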