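import Pool.Agent.Lib.MP_6f9530_pr.Rec

open MeasureTheory Set Filter Topology

namespace DWTree

/-- Product of survival functions over a list of depths. -/
noncomputable def Phi (s' : ℝ) (f : ℕ → ℝ) (K : ℕ) : List ℕ → ℝ → ℝ
  | [], _ => 1
  | d :: l, t => GG s' f (K - d) d t * Phi s' f K l t

/-- Hitting density of a forest with given depths. -/
noncomputable def Psi (s' : ℝ) (f : ℕ → ℝ) (K : ℕ) : List ℕ → ℝ → ℝ
  | [], _ => 0
  | d :: l, t => gam s' f (K - d) d t * Phi s' f K l t + GG s' f (K - d) d t * Psi s' f K l t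

/-- Total weight. -/
noncomputable def Zs (f : ℕ → ℝ) (l : List ℕ) : ℝ := (l.map f).sum

noncomputable def S1 (s' : ℝ) (f : ℕ → ℝ) (K : ℕ) (l : List ℕ) (t : ℝ) : ℝ :=
  (l.map (fun d => f d * GG s' f (K - (d + 1)) (d + 1) t)).sum

noncomputable def S2 (s' : ℝ) (f : ℕ → ℝ) (K : ℕ) (l : List ℕ) (t : ℝ) : ℝ :=
  (l.map (fun d => f d * gam s' f (K - (d + 1)) (d + 1) t)).sum

/-- The value function. -/
noncomputable def Fv (s' : ℝ) (f : ℕ → ℝ) (K : ℕ) (l : List ℕ) : ℝ :=
  ∫ t in Ioi (0:ℝ), Psi s' f K l t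

variable {s' : ℝ} {f : ℕ → ℝ} {K : ℕ}

lemma Phi_deriv (l : List ℕ) (hl : ∀ d ∈ l, d < K) (t : ℝ) :
    HasDerivAt (Phi s' f K l) ((-(Zs f l) + s' * S1 s' f K l t) * Phi s' f K l t) t := by
  induction l with
  | nil =>
    have : Phi s' f K [] = fun _ => 1 := rfl
    rw [this]
    simpa [Zs, S1] using hasDerivAt_const t (1:ℝ)
  | cons d l ih =>
    have hd : d < K := hl d (by simp)
    have ih' := ih (fun e he => hl e (by simp [he]))
    have hKd : K - d = (K - (d + 1)) + 1 := by omega
    have h1 := (GG_deriv (s' := s') (f := f) (K - (d + 1)) d t).mul ih'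
    have e1 : Phi s' f K (d :: l) = (GG s' f (K - (d + 1) + 1) d) * (Phi s' f K l) := by
      funext z
      show GG s' f (K - d) d z * Phi s' f K l z = _
      rw [hKd]; rfl
    rw [e1]
    refine h1.congr_deriv ?_
    simp only [Zs, S1, List.map_cons, List.sum_cons, Pi.mul_apply]
    ring

lemma Psi_deriv (l : List ℕ) (hl : ∀ d ∈ l, d < K) (t : ℝ) :
    HasDerivAt (Psi s' f K l) ((-(Zs f l) + s' * S1 s' f K l t) * Psi s' f K l t
      + s' * S2 s' f K l t * Phi s' f K l t) t := by
  induction l with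
  | nil =>
    have : Psi s' f K [] = fun _ => 0 := rfl
    rw [this]
    simpa [Zs, S1, S2] using hasDerivAt_const t (0:ℝ)
  | cons d l ih =>
    have hd : d < K := hl d (by simp)
    have hl' : ∀ e ∈ l, e < K := fun e he => hl e (by simp [he])
    have ih' := ih hl'
    have hKd : K - d = (K - (d + 1)) + 1 := by omega
    have h1 := ((gam_deriv (s' := s') (f := f) (K - (d + 1)) d t).mul
      (Phi_deriv (s' := s') (f := f) l hl' t)).add
      ((GG_deriv (s' := s') (f := f) (K - (d + 1)) d t).mul ih')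
    have e1 : Psi s' f K (d :: l) = (gam s' f (K - (d + 1) + 1) d) * (Phi s' f K l)
        + (GG s' f (K - (d + 1) + 1) d) * (Psi s' f K l) := by
      funext z
      show gam s' f (K - d) d z * Phi s' f K l z + GG s' f (K - d) d z * Psi s' f K l z = _
      rw [hKd]; rfl
    have e2 : Phi s' f K (d :: l) t = GG s' f (K - (d + 1) + 1) d t * Phi s' f K l t := by
      show GG s' f (K - d) d t * Phi s' f K l t = _
      rw [hKd]
    rw [e1]
    refine h1.congr_deriv ?_
    rw [e2]
    simp only [Zs, S1, S2, List.map_cons, List.sum_cons, Pi.mul_apply, Pi.add_apply]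
    ring

lemma Phi_cont (l : List ℕ) : Continuous (Phi s' f K l) := by
  induction l with
  | nil => exact continuous_const
  | cons d l ih => exact (GG_cont _ _).mul ih

lemma Psi_cont (l : List ℕ) : Continuous (Psi s' f K l) := by
  induction l with
  | nil => exact continuous_const
  | cons d l ih => exact ((gam_cont _ _).mul (Phi_cont l)).add ((GG_cont _ _).mul ih)

lemma Phi_nonneg (l : List ℕ) (t : ℝ) : 0 ≤ Phi s' f K l t := by
  induction l with
  | nil => exact zero_le_one
  | cons d l ih => exact mul_nonneg (GG_nonneg _ _ _) ih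

lemma Psi_nonneg (hs : 0 ≤ s') (hf : ∀ d, 0 < f d) (l : List ℕ) {t : ℝ} (ht : 0 ≤ t) :
    0 ≤ Psi s' f K l t := by
  induction l with
  | nil => exact le_rfl
  | cons d l ih =>
    exact add_nonneg (mul_nonneg (gam_nonneg hs hf _ _ ht) (Phi_nonneg l t))
      (mul_nonneg (GG_nonneg _ _ _) ih)

lemma PhiPsi_decay (hs : 0 ≤ s') (hf : ∀ d, 0 < f d) (l : List ℕ) :
    ∃ C, 0 ≤ C ∧ ∀ t, 0 ≤ t → Phi s' f K l t ≤ C * Real.exp (-(Zs f l * t)) ∧
      Psi s' f K l t ≤ C * Real.exp (-(Zs f l * t)) := by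
  induction l with
  | nil => exact ⟨1, zero_le_one, fun t _ => by simp [Phi, Psi, Zs]⟩
  | cons d l ih =>
    obtain ⟨C, hC, h⟩ := ih
    obtain ⟨C1, hC1, h1⟩ := GG_decay (s' := s') (f := f) hs hf (K - d) d
    obtain ⟨C2, hC2, h2⟩ := gam_decay (s' := s') (f := f) hs hf (K - d) d
    refine ⟨C1 * C + C2 * C, by positivity, fun t ht => ?_⟩
    obtain ⟨ha, hb⟩ := h t ht
    have hE : Real.exp (-(Zs f (d :: l) * t)) = Real.exp (-(f d * t)) * Real.exp (-(Zs f l * t)) := by
      rw [← Real.exp_add]; congr 1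
      simp only [Zs, List.map_cons, List.sum_cons]; ring
    have e0 : 0 ≤ Real.exp (-(f d * t)) := (Real.exp_pos _).le
    have e1 : 0 ≤ Real.exp (-(Zs f l * t)) := (Real.exp_pos _).le
    have m1 : GG s' f (K - d) d t * Phi s' f K l t
        ≤ (C1 * Real.exp (-(f d * t))) * (C * Real.exp (-(Zs f l * t))) :=
      mul_le_mul (h1 t ht) ha (Phi_nonneg l t) (mul_nonneg hC1 e0)
    have m2 : GG s' f (K - d) d t * Psi s' f K l t
        ≤ (C1 * Real.exp (-(f d * t))) * (C * Real.exp (-(Zs f l * t))) :=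
      mul_le_mul (h1 t ht) hb (Psi_nonneg hs hf l ht) (mul_nonneg hC1 e0)
    have m3 : gam s' f (K - d) d t * Phi s' f K l t
        ≤ (C2 * Real.exp (-(f d * t))) * (C * Real.exp (-(Zs f l * t))) :=
      mul_le_mul (h2 t ht) ha (Phi_nonneg l t) (mul_nonneg hC2 e0)
    rw [hE]
    have hCC : 0 ≤ C2 * C * (Real.exp (-(f d * t)) * Real.exp (-(Zs f l * t))) := by positivity
    constructor
    · show GG s' f (K - d) d t * Phi s' f K l t ≤ _
      linarith
    · show gam s' f (K - d) d t * Phi s' f K l t + GG s' f (K - d) d t * Psi s' f K l t ≤ _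
      linarith

lemma Zs_nonneg (hf : ∀ d, 0 < f d) (l : List ℕ) : 0 ≤ Zs f l := by
  unfold Zs
  apply List.sum_nonneg
  intro x hx
  obtain ⟨d, _, rfl⟩ := List.mem_map.mp hx
  exact (hf d).le

lemma Zs_pos (hf : ∀ d, 0 < f d) {l : List ℕ} (hl : l ≠ []) : 0 < Zs f l := by
  cases l with
  | nil => exact absurd rfl hl
  | cons d l =>
    have h1 := Zs_nonneg hf l
    have h2 := hf d
    have : Zs f (d :: l) = f d + Zs f l := by simp [Zs]
    linarith

lemma Psi_integrable (hs : 0 ≤ s') (hf : ∀ d, 0 < f d) {l : List ℕ} (hl : l ≠ []) :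
    IntegrableOn (Psi s' f K l) (Ioi 0) := by
  obtain ⟨C, hC, h⟩ := PhiPsi_decay (s' := s') (f := f) (K := K) hs hf l
  have hZ := Zs_pos hf hl
  have h1 : IntegrableOn (fun t => C * Real.exp (-(Zs f l) * t)) (Ioi 0) :=
    (exp_neg_integrableOn_Ioi 0 hZ).const_mul C
  apply Integrable.mono' h1 (Psi_cont l).aestronglyMeasurable
  rw [ae_restrict_iff' measurableSet_Ioi]
  refine Eventually.of_forall fun t ht => ?_
  have ht' : (0:ℝ) ≤ t := le_of_lt ht
  rw [Real.norm_of_nonneg (Psi_nonneg hs hf l ht')]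
  have := (h t ht').2
  rw [neg_mul]; exact this

lemma decay_tendsto {C Z : ℝ} (hZ : 0 < Z) :
    Tendsto (fun t : ℝ => C * Real.exp (-(Z * t))) atTop (𝓝 0) := by
  have h1 : Tendsto (fun t : ℝ => Z * t) atTop atTop := tendsto_id.const_mul_atTop hZ
  have h2 : Tendsto (fun t : ℝ => Real.exp (-(Z * t))) atTop (𝓝 0) :=
    Real.tendsto_exp_neg_atTop_nhds_zero.comp h1
  simpa using h2.const_mul C

lemma Psi_tendsto (hs : 0 ≤ s') (hf : ∀ d, 0 < f d) {l : List ℕ} (hl : l ≠ []) :
    Tendsto (Psi s' f K l) atTop (𝓝 0) := by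
  obtain ⟨C, hC, h⟩ := PhiPsi_decay (s' := s') (f := f) (K := K) hs hf l
  apply tendsto_of_tendsto_of_tendsto_of_le_of_le' tendsto_const_nhds
    (decay_tendsto (C := C) (Zs_pos hf hl))
  · filter_upwards [eventually_ge_atTop (0:ℝ)] with t ht
    exact Psi_nonneg hs hf l ht
  · filter_upwards [eventually_ge_atTop (0:ℝ)] with t ht
    exact (h t ht).2

lemma Phi_tendsto (hs : 0 ≤ s') (hf : ∀ d, 0 < f d) {l : List ℕ} (hl : l ≠ []) :
    Tendsto (Phi s' f K l) atTop (𝓝 0) := by
  obtain ⟨C, hC, h⟩ := PhiPsi_decay (s' := s') (f := f) (K := K) hs hf l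
  apply tendsto_of_tendsto_of_tendsto_of_le_of_le' tendsto_const_nhds
    (decay_tendsto (C := C) (Zs_pos hf hl))
  · exact Eventually.of_forall fun t => Phi_nonneg l t
  · filter_upwards [eventually_ge_atTop (0:ℝ)] with t ht
    exact (h t ht).1

lemma Phi_zero (l : List ℕ) (hl : ∀ d ∈ l, d < K) : Phi s' f K l 0 = 1 := by
  induction l with
  | nil => rfl
  | cons d l ih =>
    have hd : d < K := hl d (by simp)
    have hKd : K - d = (K - (d + 1)) + 1 := by omega
    show GG s' f (K - d) d 0 * Phi s' f K l 0 = 1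
    rw [hKd, GG_zero, ih (fun e he => hl e (by simp [he])), mul_one]

lemma Gam_zero (m d : ℕ) : Gam s' f m d 0 = if m = 0 then 1 else 0 := by
  cases m with
  | zero => simp [Gam]
  | succ m => simp [Gam]

lemma Psi_zero (l : List ℕ) (hl : ∀ d ∈ l, d < K) :
    Psi s' f K l 0 = s' * (l.map (fun d => f d * (if d + 1 = K then (1:ℝ) else 0))).sum := by
  induction l with
  | nil => simp [Psi]
  | cons d l ih =>
    have hd : d < K := hl d (by simp)
    have hl' : ∀ e ∈ l, e < K := fun e he => hl e (by simp [he])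
    have hKd : K - d = (K - (d + 1)) + 1 := by omega
    show gam s' f (K - d) d 0 * Phi s' f K l 0 + GG s' f (K - d) d 0 * Psi s' f K l 0 = _
    rw [hKd, Phi_zero l hl', GG_zero, ih hl']
    have h1 : gam s' f (K - (d + 1) + 1) d 0 = s' * f d * (if d + 1 = K then (1:ℝ) else 0) := by
      show s' * f d * GG s' f (K - (d + 1) + 1) d 0 * Gam s' f (K - (d + 1)) (d + 1) 0 = _
      rw [GG_zero, Gam_zero, mul_one]
      have : (K - (d + 1) = 0) ↔ (d + 1 = K) := by omega
      simp only [this]
    rw [h1]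
    simp only [List.map_cons, List.sum_cons]
    ring

lemma Psi_succ_sum (l l' : List ℕ) (t : ℝ) :
    (l'.map (fun d => f d * Psi s' f K ((d + 1) :: l) t)).sum
      = S1 s' f K l' t * Psi s' f K l t + S2 s' f K l' t * Phi s' f K l t := by
  induction l' with
  | nil => simp [S1, S2]
  | cons d l' ih =>
    simp only [S1, S2, List.map_cons, List.sum_cons] at ih ⊢
    rw [ih]
    show f d * (gam s' f (K - (d + 1)) (d + 1) t * Phi s' f K l t
      + GG s' f (K - (d + 1)) (d + 1) t * Psi s' f K l t) + _ = _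
    ring

lemma int_list (hs : 0 ≤ s') (hf : ∀ d, 0 < f d) (l l' : List ℕ) :
    IntegrableOn (fun t => (l'.map (fun d => f d * Psi s' f K ((d + 1) :: l) t)).sum) (Ioi 0) ∧
    ∫ t in Ioi (0:ℝ), (l'.map (fun d => f d * Psi s' f K ((d + 1) :: l) t)).sum
      = (l'.map (fun d => f d * Fv s' f K ((d + 1) :: l))).sum := by
  induction l' with
  | nil => simp
  | cons d l' ih =>
    obtain ⟨h1, h2⟩ := ih
    have h3 : IntegrableOn (fun t => f d * Psi s' f K ((d + 1) :: l) t) (Ioi 0) :=
      (Psi_integrable hs hf (by simp)).const_mul (f d)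
    simp only [List.map_cons, List.sum_cons]
    refine ⟨h3.add h1, ?_⟩
    rw [integral_add h3 h1, h2, integral_const_mul]
    rfl

lemma Fv_top (l : List ℕ) : Fv s' f K (K :: l) = 0 := by
  unfold Fv
  have : Psi s' f K (K :: l) = fun _ => 0 := by
    funext t
    show gam s' f (K - K) K t * Phi s' f K l t + GG s' f (K - K) K t * Psi s' f K l t = 0
    simp [gam, GG]
  rw [this]; simp

/-- The one-step identity for the value function. -/
theorem Fv_rec (hs : 0 ≤ s') (hf : ∀ d, 0 < f d) {l : List ℕ} (hne : l ≠ [])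
    (hl : ∀ d ∈ l, d < K) :
    Zs f l * Fv s' f K l
      = s' * (l.map (fun d => f d * (if d + 1 = K then (1:ℝ) else Fv s' f K ((d + 1) :: l)))).sum := by
  obtain ⟨h1, h2⟩ := int_list (s' := s') (f := f) (K := K) hs hf l l
  have hPI := Psi_integrable (s' := s') (f := f) (K := K) hs hf hne
  have hder : ∀ t ∈ Ioi (0:ℝ), HasDerivAt (Psi s' f K l)
      (-(Zs f l) * Psi s' f K l t
        + s' * (l.map (fun d => f d * Psi s' f K ((d + 1) :: l) t)).sum) t := by
    intro t _
    have h := Psi_deriv (s' := s') (f := f) l hl t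
    rw [Psi_succ_sum]
    refine h.congr_deriv ?_
    ring
  have hint : IntegrableOn (fun t => -(Zs f l) * Psi s' f K l t
        + s' * (l.map (fun d => f d * Psi s' f K ((d + 1) :: l) t)).sum) (Ioi 0) :=
    (hPI.const_mul _).add (h1.const_mul _)
  have h3 := integral_Ioi_of_hasDerivAt_of_tendsto
    ((Psi_cont (s' := s') (f := f) (K := K) l).continuousWithinAt) hder hint
    (Psi_tendsto hs hf hne)
  rw [integral_add (hPI.const_mul _) (h1.const_mul _), integral_const_mul, integral_const_mul,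
    h2, Psi_zero l hl] at h3
  have h4 : (l.map (fun d => f d * (if d + 1 = K then (1:ℝ) else Fv s' f K ((d + 1) :: l)))).sum
      = (l.map (fun d => f d * Fv s' f K ((d + 1) :: l))).sum
        + (l.map (fun d => f d * (if d + 1 = K then (1:ℝ) else 0))).sum := by
    rw [← List.sum_map_add]
    congr 1
    apply List.map_congr_left
    intro d _
    by_cases hd : d + 1 = K
    · simp only [hd, if_true]
      rw [Fv_top]; ring
    · simp [hd]
  rw [h4]
  have h5 : ∫ t in Ioi (0:ℝ), Psi s' f K l t = Fv s' f K l := rfl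
  rw [h5] at h3
  linarith

lemma Fv_nonneg (hs : 0 ≤ s') (hf : ∀ d, 0 < f d) (l : List ℕ) : 0 ≤ Fv s' f K l := by
  apply setIntegral_nonneg measurableSet_Ioi
  intro t ht
  exact Psi_nonneg hs hf l (le_of_lt ht)

/-- Lower bound used when the weight parameter is at least one. -/
lemma GG_add_Gam (hs : 1 ≤ s') (hf : ∀ d, 0 < f d) (m d : ℕ) {t : ℝ} (ht : 0 ≤ t) :
    1 ≤ GG s' f m d t + Gam s' f m d t := by
  induction m generalizing d t with
  | zero => simp [GG, Gam]
  | succ m ih =>
    have h1 : ∫ u in (0:ℝ)..t, (-(f d * (1 - s' * GG s' f m (d + 1) u)) * GG s' f (m + 1) d u)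
        = GG s' f (m + 1) d t - GG s' f (m + 1) d 0 := by
      apply intervalIntegral.integral_eq_sub_of_hasDerivAt (fun u _ => GG_deriv m d u)
      apply Continuous.intervalIntegrable
      have c1 := GG_cont (s' := s') (f := f) m (d + 1)
      have c2 := GG_cont (s' := s') (f := f) (m + 1) d
      exact ((continuous_const.mul (continuous_const.sub (continuous_const.mul c1))).neg).mul c2
    have h2 : -(∫ u in (0:ℝ)..t, (-(f d * (1 - s' * GG s' f m (d + 1) u)) * GG s' f (m + 1) d u))
        ≤ Gam s' f (m + 1) d t := by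
      rw [← intervalIntegral.integral_neg]
      show _ ≤ ∫ u in (0:ℝ)..t, s' * f d * GG s' f (m + 1) d u * Gam s' f m (d + 1) u
      apply intervalIntegral.integral_mono_on ht
      · apply Continuous.intervalIntegrable
        have c1 := GG_cont (s' := s') (f := f) m (d + 1)
        have c2 := GG_cont (s' := s') (f := f) (m + 1) d
        exact (((continuous_const.mul (continuous_const.sub (continuous_const.mul c1))).neg).mul c2).neg
      · exact ((continuous_const.mul (GG_cont (m+1) d)).mul (Gam_cont m (d+1))).intervalIntegrable _ _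
      · intro u hu
        have h3 := ih (d + 1) hu.1
        have h4 : 0 ≤ f d * GG s' f (m + 1) d u := mul_nonneg (hf d).le (GG_nonneg _ _ _)
        have h5 : 1 - s' * GG s' f m (d + 1) u ≤ s' * Gam s' f m (d + 1) u := by
          nlinarith
        have h6 := mul_le_mul_of_nonneg_left h5 h4
        linarith
    rw [h1, GG_zero] at h2
    linarith

lemma Psi_ge (hs : 1 ≤ s') (hf : ∀ d, 0 < f d) (l : List ℕ) (hl : ∀ d ∈ l, d < K) {t : ℝ}
    (ht : 0 ≤ t) :
    -((-(Zs f l) + s' * S1 s' f K l t) * Phi s' f K l t) ≤ Psi s' f K l t := by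
  induction l with
  | nil => simp [Zs, S1, Psi]
  | cons d l ih =>
    have hd : d < K := hl d (by simp)
    have ih' := ih (fun e he => hl e (by simp [he]))
    have hKd : K - d = (K - (d + 1)) + 1 := by omega
    show _ ≤ gam s' f (K - d) d t * Phi s' f K l t + GG s' f (K - d) d t * Psi s' f K l t
    have e2 : Phi s' f K (d :: l) t = GG s' f (K - (d + 1) + 1) d t * Phi s' f K l t := by
      show GG s' f (K - d) d t * Phi s' f K l t = _
      rw [hKd]
    rw [e2, hKd]
    have h3 := GG_add_Gam hs hf (K - (d + 1)) (d + 1) ht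
    have h4 : 0 ≤ f d * GG s' f (K - (d + 1) + 1) d t := mul_nonneg (hf d).le (GG_nonneg _ _ _)
    have h5 : 1 - s' * GG s' f (K - (d + 1)) (d + 1) t ≤ s' * Gam s' f (K - (d + 1)) (d + 1) t := by
      nlinarith
    have h6 := mul_le_mul_of_nonneg_left h5 h4
    have h7 : f d * (1 - s' * GG s' f (K - (d + 1)) (d + 1) t) * GG s' f (K - (d + 1) + 1) d t
        ≤ gam s' f (K - (d + 1) + 1) d t := by
      show _ ≤ s' * f d * GG s' f (K - (d + 1) + 1) d t * Gam s' f (K - (d + 1)) (d + 1) t
      linarith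
    have h8 := mul_le_mul_of_nonneg_right h7 (Phi_nonneg (s' := s') (f := f) (K := K) l t)
    have h9 := mul_le_mul_of_nonneg_left ih' (GG_nonneg (s' := s') (f := f) (K - (d + 1) + 1) d t)
    have h10 : -((-(Zs f (d :: l)) + s' * S1 s' f K (d :: l) t)
          * (GG s' f (K - (d + 1) + 1) d t * Phi s' f K l t))
        = f d * (1 - s' * GG s' f (K - (d + 1)) (d + 1) t) * GG s' f (K - (d + 1) + 1) d t
            * Phi s' f K l t
          + GG s' f (K - (d + 1) + 1) d t
            * -((-(Zs f l) + s' * S1 s' f K l t) * Phi s' f K l t) := by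
      simp only [Zs, S1, List.map_cons, List.sum_cons]
      ring
    rw [h10]
    exact add_le_add h8 h9

lemma S1_cont (l : List ℕ) : Continuous (S1 s' f K l) := by
  induction l with
  | nil =>
    have : S1 s' f K [] = fun _ => 0 := by funext t; simp [S1]
    rw [this]; exact continuous_const
  | cons d l ih =>
    have : S1 s' f K (d :: l)
        = fun t => f d * GG s' f (K - (d + 1)) (d + 1) t + S1 s' f K l t := by
      funext t; simp [S1]
    rw [this]
    exact (continuous_const.mul (GG_cont _ _)).add ih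

theorem one_le_Fv (hs : 1 ≤ s') (hf : ∀ d, 0 < f d) {l : List ℕ} (hne : l ≠ [])
    (hl : ∀ d ∈ l, d < K) : 1 ≤ Fv s' f K l := by
  have hs0 : 0 ≤ s' := by linarith
  have hPI := Psi_integrable (s' := s') (f := f) (K := K) hs0 hf hne
  have key : ∀ T : ℝ, 0 ≤ T → 1 - Phi s' f K l T ≤ Fv s' f K l := by
    intro T hT
    have hc : Continuous fun t => (-(Zs f l) + s' * S1 s' f K l t) * Phi s' f K l t :=
      (continuous_const.add (continuous_const.mul (S1_cont l))).mul (Phi_cont l)
    have h1 := intervalIntegral.integral_eq_sub_of_hasDerivAt (a := 0) (b := T)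
      (fun t _ => Phi_deriv (s' := s') (f := f) l hl t) (hc.intervalIntegrable _ _)
    have h2 : ∫ t in (0:ℝ)..T, -((-(Zs f l) + s' * S1 s' f K l t) * Phi s' f K l t)
        ≤ ∫ t in (0:ℝ)..T, Psi s' f K l t := by
      apply intervalIntegral.integral_mono_on hT (hc.neg.intervalIntegrable _ _)
        ((Psi_cont l).intervalIntegrable _ _)
      intro t ht
      exact Psi_ge hs hf l hl ht.1
    rw [intervalIntegral.integral_neg, h1, Phi_zero l hl] at h2
    have h3 : ∫ t in (0:ℝ)..T, Psi s' f K l t ≤ Fv s' f K l := by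
      rw [intervalIntegral.integral_of_le hT]
      apply setIntegral_mono_set hPI
      · rw [EventuallyLE, ae_restrict_iff' measurableSet_Ioi]
        exact Eventually.of_forall fun t ht => Psi_nonneg hs0 hf l (le_of_lt ht)
      · exact Eventually.of_forall fun t ht => ht.1
    linarith
  have h4 : Tendsto (fun T => 1 - Phi s' f K l T) atTop (𝓝 (1 - 0)) :=
    tendsto_const_nhds.sub (Phi_tendsto hs0 hf hne)
  rw [sub_zero] at h4
  exact le_of_tendsto h4 (by filter_upwards [eventually_ge_atTop (0:ℝ)] with T hT using key T hT)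

theorem Fv_root_le (hs : 0 ≤ s') (hf : ∀ d, 0 < f d) (hK : 1 ≤ K) {D : ℝ}
    (hD : ∀ t, 0 ≤ t → Gam s' f K 0 t ≤ D) : Fv s' f K [0] ≤ D := by
  have hPI := Psi_integrable (s' := s') (f := f) (K := K) hs hf (l := [0]) (by simp)
  have h1 := intervalIntegral_tendsto_integral_Ioi 0 hPI tendsto_id
  apply le_of_tendsto h1
  filter_upwards [eventually_ge_atTop (0:ℝ)] with T hT
  have e1 : Psi s' f K [0] = gam s' f K 0 := by
    funext t
    show gam s' f (K - 0) 0 t * 1 + GG s' f (K - 0) 0 t * 0 = _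
    simp
  rw [e1]
  have h2 := intervalIntegral.integral_eq_sub_of_hasDerivAt (a := 0) (b := T)
      (fun t _ => Gam_deriv (s' := s') (f := f) K 0 t) ((gam_cont K 0).intervalIntegrable _ _)
  simp only [id]
  rw [h2, Gam_zero]
  have : K ≠ 0 := by omega
  simp only [this, if_false, sub_zero]
  exact hD T hT

end DWTree
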