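import Pool.Agent.Lib.MP_6f9530_pr.Defs
import Pool.Agent.Lib.MP_6f9530_pr.Lists

open MeasureTheory Set Filter Topology
open scoped ENNReal

namespace DWTree

lemma dep_zero (a : Att) : dep a 0 = 0 := by rw [dep]

lemma dep_succ (a : Att) (n : ℕ) : dep a (n + 1) = dep a (a n) + 1 := by rw [dep]

lemma dep_congr {a b : Att} (k : ℕ) (h : ∀ m < k, a m = b m) : dep a k = dep b k := by
  induction k using Nat.strong_induction_on with
  | _ k ih =>
    cases k with
    | zero => rw [dep_zero, dep_zero]
    | succ k =>
      rw [dep_succ, dep_succ, h k (Nat.lt_succ_self k)]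
      rw [ih (b k) (b k).isLt (fun m hm => h m (by have := (b k).isLt; omega))]

/-- List of the depths of the vertices `0, ..., n`. -/
def lst (a : Att) : ℕ → List ℕ
  | 0 => [dep a 0]
  | n + 1 => dep a (n + 1) :: lst a n

lemma lst_congr {a b : Att} (n : ℕ) (h : ∀ m < n, a m = b m) : lst a n = lst b n := by
  induction n with
  | zero => simp [lst, dep_zero]
  | succ n ih =>
    show dep a (n + 1) :: lst a n = dep b (n + 1) :: lst b n
    rw [dep_congr (n + 1) h, ih (fun m hm => h m (by omega))]

lemma lst_sum (a : Att) (g : ℕ → ℝ) (n : ℕ) :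
    ((lst a n).map g).sum = ∑ j ∈ Finset.range (n + 1), g (dep a j) := by
  induction n with
  | zero => simp [lst]
  | succ n ih =>
    rw [Finset.sum_range_succ, ← ih]
    simp [lst]; ring

lemma mem_lst (a : Att) (n d : ℕ) : d ∈ lst a n ↔ ∃ j ≤ n, dep a j = d := by
  induction n with
  | zero =>
    simp only [lst, List.mem_singleton]
    constructor
    · intro h; exact ⟨0, le_rfl, h.symm⟩
    · rintro ⟨j, hj, h⟩
      have : j = 0 := by omega
      rw [this] at h; exact h.symm
  | succ n ih =>
    simp only [lst, List.mem_cons, ih]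
    constructor
    · rintro (h | ⟨j, hj, h⟩)
      · exact ⟨n + 1, le_rfl, h.symm⟩
      · exact ⟨j, by omega, h⟩
    · rintro ⟨j, hj, h⟩
      rcases Nat.lt_or_ge n j with hnj | hnj
      · left
        have : j = n + 1 := by omega
        rw [this] at h; exact h.symm
      · right; exact ⟨j, hnj, h⟩

lemma lst_ne_nil (a : Att) (n : ℕ) : lst a n ≠ [] := by
  cases n <;> simp [lst]

/-- No vertex among `0, ..., n` has depth at least `K`. -/
def Alive (K n : ℕ) (a : Att) : Prop := ∀ j ≤ n, dep a j < K

lemma alive_congr {K n : ℕ} {a b : Att} (h : ∀ m < n, a m = b m) : Alive K n a ↔ Alive K n b := by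
  constructor
  · intro ha j hj
    rw [← dep_congr j (fun m hm => h m (by omega))]; exact ha j hj
  · intro ha j hj
    rw [dep_congr j (fun m hm => h m (by omega))]; exact ha j hj

lemma alive_lst {K n : ℕ} {a : Att} (h : Alive K n a) : ∀ d ∈ lst a n, d < K := by
  intro d hd
  obtain ⟨j, hj, rfl⟩ := (mem_lst a n d).mp hd
  exact h j hj

open Classical in
/-- The martingale. -/
noncomputable def yy (s' : ℝ) (f : ℕ → ℝ) (K : ℕ) : ℕ → Att → ℝ
  | 0, _ => Fv s' f K [0]
  | n + 1, a => if Alive K n a then
      (if dep a (n + 1) < K then s' ^ (n + 1) * Fv s' f K (lst a (n + 1)) else s' ^ (n + 1))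
      else yy s' f K n a

variable {s' : ℝ} {f : ℕ → ℝ} {K : ℕ}

lemma yy_congr (n : ℕ) {a b : Att} (h : ∀ m < n, a m = b m) : yy s' f K n a = yy s' f K n b := by
  induction n with
  | zero => rfl
  | succ n ih =>
    have h' : ∀ m < n, a m = b m := fun m hm => h m (by omega)
    have h3 := alive_congr (K := K) h'
    have h4 := dep_congr (n + 1) h
    have h5 := lst_congr (n + 1) h
    have h6 := ih h'
    simp only [yy]
    rw [h4, h5, h6]
    by_cases h7 : Alive K n a
    · rw [if_pos h7, if_pos (h3.mp h7)]
    · rw [if_neg h7, if_neg (fun h8 => h7 (h3.mpr h8))]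

lemma yy_nonneg (hs : 0 ≤ s') (hf : ∀ d, 0 < f d) (n : ℕ) (a : Att) : 0 ≤ yy s' f K n a := by
  induction n with
  | zero => exact Fv_nonneg hs hf _
  | succ n ih =>
    simp only [yy]
    split_ifs
    · exact mul_nonneg (pow_nonneg hs _) (Fv_nonneg hs hf _)
    · exact pow_nonneg hs _
    · exact ih

lemma yy_alive (n : ℕ) (a : Att) (h : Alive K n a) :
    yy s' f K n a = s' ^ n * Fv s' f K (lst a n) := by
  cases n with
  | zero => simp [yy, lst, dep_zero]
  | succ n =>
    have h1 : Alive K n a := fun j hj => h j (by omega)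
    have h2 : dep a (n + 1) < K := h (n + 1) le_rfl
    simp only [yy, h1, h2, if_true]

lemma yy_dead (hs : 0 ≤ s') (hs1 : s' ≤ 1) (hK : 1 ≤ K) (n : ℕ) (a : Att) (h : ¬ Alive K n a) :
    s' ^ n ≤ yy s' f K n a := by
  induction n with
  | zero =>
    exfalso; apply h
    intro j hj
    have : j = 0 := by omega
    rw [this, dep_zero]; omega
  | succ n ih =>
    simp only [yy]
    by_cases h1 : Alive K n a
    · have h2 : ¬ dep a (n + 1) < K := by
        intro h3; apply h
        intro j hj
        rcases Nat.lt_or_ge n j with hnj | hnj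
        · have : j = n + 1 := by omega
          rw [this]; exact h3
        · exact h1 j hnj
      simp only [h1, h2, if_true, if_false]
      exact le_rfl
    · simp only [h1, if_false]
      exact (pow_le_pow_of_le_one hs hs1 (Nat.le_succ n)).trans (ih h1)

/-- One step of the martingale. -/
lemma yy_step (hs : 0 ≤ s') (hf : ∀ d, 0 < f d) (n : ℕ) (a : Att) :
    ∑ j : Fin (n + 1), (f (dep a j) / ∑ i ∈ Finset.range (n + 1), f (dep a i))
      * yy s' f K (n + 1) (Function.update a n j) = yy s' f K n a := by
  set Z := ∑ i ∈ Finset.range (n + 1), f (dep a i) with hZ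
  have hZpos : 0 < Z := Finset.sum_pos (fun i _ => hf _) ⟨0, by simp⟩
  have hupd : ∀ j : Fin (n + 1), ∀ m < n, Function.update a n j m = a m := fun j m hm =>
    Function.update_of_ne (by omega) _ _
  have hsumf : ∑ j : Fin (n + 1), f (dep a j) = Z := by
    rw [hZ, Fin.sum_univ_eq_sum_range (fun i => f (dep a i)) (n + 1)]
  by_cases hal : Alive K n a
  · have h1 : ∀ j : Fin (n + 1), yy s' f K (n + 1) (Function.update a n j)
        = s' ^ (n + 1) * (if dep a j + 1 = K then (1:ℝ) else Fv s' f K ((dep a j + 1) :: lst a n)) := by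
      intro j
      have e1 : Alive K n (Function.update a n j) := (alive_congr (hupd j)).mpr hal
      have e2 : dep (Function.update a n j) (n + 1) = dep a j + 1 := by
        rw [dep_succ, Function.update_self]
        rw [dep_congr (a := Function.update a n j) (b := a) j
          (fun m hm => hupd j m (by have := j.isLt; omega))]
      have e3 : lst (Function.update a n j) (n + 1) = (dep a j + 1) :: lst a n := by
        show dep _ (n + 1) :: lst _ n = _
        rw [e2, lst_congr n (hupd j)]
      simp only [yy, e1, if_true, e2, e3]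
      have h2 : dep a j < K := hal j (by have := j.isLt; omega)
      by_cases h3 : dep a j + 1 = K
      · have h4 : ¬ (dep a j + 1 < K) := by omega
        simp only [h3, if_true]
        simp
      · have h4 : dep a j + 1 < K := by omega
        simp only [h3, h4, if_true, if_false]
    simp_rw [h1]
    rw [yy_alive n a hal]
    have h5 := Fv_rec (s' := s') (f := f) (K := K) hs hf (lst_ne_nil a n) (alive_lst hal)
    have h6 : Zs f (lst a n) = Z := lst_sum a f n
    rw [lst_sum a (fun d => f d * (if d + 1 = K then (1:ℝ) else Fv s' f K ((d + 1) :: lst a n))) n,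
      h6] at h5
    rw [← Fin.sum_univ_eq_sum_range
      (fun i => f (dep a i) * (if dep a i + 1 = K then (1:ℝ) else Fv s' f K ((dep a i + 1) :: lst a n)))
      (n + 1)] at h5
    have h7 : ∑ j : Fin (n + 1), f (dep a j) / Z * (s' ^ (n + 1) *
          (if dep a j + 1 = K then (1:ℝ) else Fv s' f K ((dep a j + 1) :: lst a n)))
        = s' ^ n / Z * (s' * ∑ j : Fin (n + 1), f (dep a j) *
          (if dep a j + 1 = K then (1:ℝ) else Fv s' f K ((dep a j + 1) :: lst a n))) := by
      rw [Finset.mul_sum, Finset.mul_sum]
      apply Finset.sum_congr rfl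
      intro j _
      rw [pow_succ]; ring
    rw [h7, ← h5]
    field_simp
  · have h1 : ∀ j : Fin (n + 1), yy s' f K (n + 1) (Function.update a n j) = yy s' f K n a := by
      intro j
      have e1 : ¬ Alive K n (Function.update a n j) := fun h => hal ((alive_congr (hupd j)).mp h)
      simp only [yy, e1, if_false]
      exact yy_congr n (hupd j)
    simp_rw [h1]
    rw [← Finset.sum_mul, ← Finset.sum_div, hsumf, div_self hZpos.ne', one_mul]

/-- Finite partition formula. -/
lemma part {Ω ι : Type*} [MeasurableSpace Ω] (P : Measure Ω) [Fintype ι] [MeasurableSpace ι]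
    [MeasurableSingletonClass ι] (X : Ω → ι) (hX : Measurable X) (φ : Ω → ℝ≥0∞) :
    ∫⁻ ω, φ ω ∂P = ∑ i, ∫⁻ ω in X ⁻¹' {i}, φ ω ∂P := by
  have h1 : (univ : Set Ω) = ⋃ i, X ⁻¹' {i} := by
    ext ω; simp
  rw [← setLIntegral_univ, h1, lintegral_iUnion (fun i => hX (measurableSet_singleton i)), tsum_fintype]
  intro i j hij
  show Disjoint (X ⁻¹' {i}) (X ⁻¹' {j})
  apply Disjoint.preimage
  simpa using hij

/-- Extension of a finite path by zero. -/
def extP (n : ℕ) (x : (m : Fin n) → Fin ((m : ℕ) + 1)) : Att :=
  fun m => if h : m < n then x ⟨m, h⟩ else 0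

lemma lint_step {Ω : Type*} [MeasurableSpace Ω] {P : Measure Ω}
    {A : (n : ℕ) → Ω → Fin (n + 1)} (h : IsDWT P f A) (n : ℕ) (g : Att → ℝ≥0∞)
    (hg : ∀ a b : Att, (∀ m ≤ n, a m = b m) → g a = g b) :
    ∫⁻ ω, g (fun m => A m ω) ∂P
      = ∫⁻ ω, (∑ j : Fin (n + 1), ENNReal.ofReal (f (dep (fun m => A m ω) j)
          / ∑ i ∈ Finset.range (n + 1), f (dep (fun m => A m ω) i))
          * g (Function.update (fun m => A m ω) n j)) ∂P := by
  set X : Ω → ((m : Fin n) → Fin ((m : ℕ) + 1)) := fun ω m => A m ω with hXdef
  have hX : Measurable X := measurable_pi_iff.mpr (fun m => h.meas m)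
  rw [part P X hX, part P X hX (fun ω => ∑ j : Fin (n + 1), _)]
  apply Finset.sum_congr rfl
  intro x _
  set a : Att := extP n x with ha
  have hB : ∀ ω ∈ X ⁻¹' {x}, ∀ m < n, A m ω = a m := by
    intro ω hω m hm
    have h1 : X ω = x := hω
    have h2 := congrFun h1 ⟨m, hm⟩
    rw [ha]; unfold extP; rw [dif_pos hm]; exact h2
  have hB' : X ⁻¹' {x} = {ω | ∀ m < n, A m ω = a m} := by
    ext ω
    constructor
    · intro hω; exact hB ω hω
    · intro hω
      show X ω = x
      funext m
      have h2 := hω m m.isLt
      rw [ha] at h2; unfold extP at h2; rw [dif_pos m.isLt] at h2; exact h2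
  have hmB : MeasurableSet (X ⁻¹' {x}) := hX (measurableSet_singleton x)
  -- right side
  have hR : ∫⁻ ω in X ⁻¹' {x}, (∑ j : Fin (n + 1), ENNReal.ofReal (f (dep (fun m => A m ω) j)
          / ∑ i ∈ Finset.range (n + 1), f (dep (fun m => A m ω) i))
          * g (Function.update (fun m => A m ω) n j)) ∂P
      = ∑ j : Fin (n + 1), ENNReal.ofReal (f (dep a j)
          / ∑ i ∈ Finset.range (n + 1), f (dep a i)) * g (Function.update a n j) * P (X ⁻¹' {x}) := by
    rw [← Finset.sum_mul, ← setLIntegral_const]
    apply setLIntegral_congr_fun hmB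
    intro ω hω
    have h1 := hB ω hω
    apply Finset.sum_congr rfl
    intro j _
    have e1 : ∀ i, i ≤ n → dep (fun m => A m ω) i = dep a i := fun i hi =>
      dep_congr i (fun m hm => h1 m (by omega))
    have e2 : ∑ i ∈ Finset.range (n + 1), f (dep (fun m => A m ω) i)
        = ∑ i ∈ Finset.range (n + 1), f (dep a i) := by
      apply Finset.sum_congr rfl
      intro i hi
      rw [e1 i (by have := Finset.mem_range.mp hi; omega)]
    have e3 : g (Function.update (fun m => A m ω) n j) = g (Function.update a n j) := by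
      apply hg
      intro m hm
      rcases Nat.lt_or_ge m n with hmn | hmn
      · rw [Function.update_of_ne (by omega), Function.update_of_ne (by omega)]; exact h1 m hmn
      · have : m = n := by omega
        subst this
        rw [Function.update_self, Function.update_self]
    rw [e1 j (by have := j.isLt; omega), e2, e3]
  rw [hR, part (P.restrict (X ⁻¹' {x})) (A n) (h.meas n)]
  apply Finset.sum_congr rfl
  intro j _
  have hmj : MeasurableSet (A n ⁻¹' {j}) := h.meas n (measurableSet_singleton j)
  rw [Measure.restrict_restrict hmj]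
  have h1 : ∫⁻ ω in A n ⁻¹' {j} ∩ X ⁻¹' {x}, g (fun m => A m ω) ∂P
      = ∫⁻ _ in A n ⁻¹' {j} ∩ X ⁻¹' {x}, g (Function.update a n j) ∂P := by
    apply setLIntegral_congr_fun (hmj.inter hmB)
    intro ω hω
    apply hg
    intro m hm
    rcases Nat.lt_or_ge m n with hmn | hmn
    · rw [Function.update_of_ne (by omega)]; exact hB ω hω.2 m hmn
    · have : m = n := by omega
      subst this
      rw [Function.update_self]; exact hω.1
  rw [h1, setLIntegral_const]
  have h2 := h.law (Function.update a n j) n
  have h3 : {ω | ∀ m ≤ n, A m ω = Function.update a n j m} = A n ⁻¹' {j} ∩ X ⁻¹' {x} := by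
    rw [hB']
    ext ω
    constructor
    · intro hω
      refine ⟨?_, fun m hm => ?_⟩
      · have := hω n le_rfl
        rw [Function.update_self] at this; exact this
      · have := hω m hm.le
        rw [Function.update_of_ne (by omega)] at this; exact this
    · rintro ⟨hω1, hω2⟩ m hm
      rcases Nat.lt_or_ge m n with hmn | hmn
      · rw [Function.update_of_ne (by omega)]; exact hω2 m hmn
      · have : m = n := by omega
        subst this
        rw [Function.update_self]; exact hω1
  have h4 : {ω | ∀ m < n, A m ω = Function.update a n j m} = X ⁻¹' {x} := by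
    rw [hB']
    ext ω
    constructor
    · intro hω m hm
      have := hω m hm
      rw [Function.update_of_ne (by omega)] at this; exact this
    · intro hω m hm
      rw [Function.update_of_ne (by omega)]; exact hω m hm
  rw [h3, h4, Function.update_self] at h2
  have e1 : ∀ i, i ≤ n → dep (Function.update a n j) i = dep a i := fun i hi =>
    dep_congr i (fun m hm => Function.update_of_ne (by omega) _ _)
  have e2 : ∑ i ∈ Finset.range (n + 1), f (dep (Function.update a n j) i)
      = ∑ i ∈ Finset.range (n + 1), f (dep a i) := by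
    apply Finset.sum_congr rfl
    intro i hi
    rw [e1 i (by have := Finset.mem_range.mp hi; omega)]
  rw [e1 j (by have := j.isLt; omega), e2] at h2
  rw [h2]
  ring

end DWTree
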