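import Mathlib

open MeasureTheory

namespace DWTree

/-- An attachment sequence: `a n` is the parent, among the vertices `0, 1, ..., n`, of the
vertex `n + 1`. The root is the vertex `0`. -/
abbrev Att : Type := (n : ℕ) → Fin (n + 1)

/-- Depth (graph distance to the root) of each vertex in the tree encoded by `a`. -/
def dep (a : Att) : ℕ → ℕ
  | 0 => 0
  | n + 1 => dep a (a n) + 1
termination_by n => n
decreasing_by exact (a n).isLt

/-- Depth of the tree on the first `n` vertices `0, ..., n - 1`. -/
def treeDepth (a : Att) (n : ℕ) : ℕ := (Finset.range n).sup (dep a)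

/-- `A` is the attachment process of the depth-weighted random tree with weight function `f`:
given the tree on the vertices `0, ..., n`, the vertex `n + 1` is joined to the vertex `i` with
probability `f (depth of i)` divided by the sum of the weights of the vertices `0, ..., n`. -/
structure IsDWT {Ω : Type*} [MeasurableSpace Ω] (P : Measure Ω) (f : ℕ → ℝ)
    (A : (n : ℕ) → Ω → Fin (n + 1)) : Prop where
  meas : ∀ n, Measurable (A n)
  law : ∀ (a : Att) (n : ℕ),
    P {ω | ∀ m ≤ n, A m ω = a m} = P {ω | ∀ m < n, A m ω = a m} *
      ENNReal.ofReal (f (dep a (a n)) / ∑ j ∈ Finset.range (n + 1), f (dep a j))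

end DWTree
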