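import Pool.Agent.Lib.MP_6f9530_pr.Chain

open MeasureTheory Set
open scoped ENNReal

namespace DWTree

/-- Finite attachment histories. -/
abbrev TT (n : ℕ) : Type := (m : Fin n) → Fin ((m : ℕ) + 1)

/-- Sample space: one independent choice for each finite history. -/
abbrev OO : Type := (i : Σ n : ℕ, TT n) → Fin (i.1 + 1)

/-- Attachment probability given a finite history. -/
noncomputable def wt (f : ℕ → ℝ) (i : Σ n : ℕ, TT n) (j : Fin (i.1 + 1)) : ℝ≥0∞ :=
  ENNReal.ofReal (f (dep (extP i.1 i.2) j) /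
    ∑ k ∈ Finset.range (i.1 + 1), f (dep (extP i.1 i.2) k))

lemma wt_sum {f : ℕ → ℝ} (hf : ∀ d, 0 < f d) (i : Σ n : ℕ, TT n) : ∑ j, wt f i j = 1 := by
  have hZpos : 0 < ∑ k ∈ Finset.range (i.1 + 1), f (dep (extP i.1 i.2) k) :=
    Finset.sum_pos (fun i _ => hf _) ⟨0, by simp⟩
  unfold wt
  rw [← ENNReal.ofReal_sum_of_nonneg (fun j _ => div_nonneg (hf _).le hZpos.le), ← Finset.sum_div,
    Fin.sum_univ_eq_sum_range (fun k => f (dep (extP i.1 i.2) k)) (i.1 + 1), div_self hZpos.ne']
  simp

/-- The attachment law. -/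
noncomputable def pm (f : ℕ → ℝ) (hf : ∀ d, 0 < f d) (i : Σ n : ℕ, TT n) : PMF (Fin (i.1 + 1)) :=
  PMF.ofFintype (wt f i) (wt_sum hf i)

/-- Product of the attachment laws. -/
noncomputable def PP (f : ℕ → ℝ) (hf : ∀ d, 0 < f d) : Measure OO :=
  Measure.infinitePi (fun i => (pm f hf i).toMeasure)

instance (f : ℕ → ℝ) (hf : ∀ d, 0 < f d) : IsProbabilityMeasure (PP f hf) := by
  unfold PP; infer_instance

/-- The attachment process read off the independent choices. -/
def AA (ω : OO) : (n : ℕ) → Fin (n + 1)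
  | n => ω ⟨n, fun m => AA ω m⟩
termination_by n => n
decreasing_by exact m.isLt

lemma AA_eq (ω : OO) (n : ℕ) : AA ω n = ω ⟨n, fun m => AA ω m⟩ := by rw [AA]

/-- Evaluation at a history. -/
def evH (n : ℕ) (p : TT n × OO) : Fin (n + 1) := p.2 ⟨n, p.1⟩

lemma AA_meas (n : ℕ) : Measurable (fun ω => AA ω n) := by
  induction n using Nat.strong_induction_on with
  | _ n ih =>
    have hX : Measurable fun ω : OO => ((fun m : Fin n => AA ω m) : TT n) :=
      measurable_pi_iff.mpr (fun m => ih m m.isLt)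
    have hF : Measurable (evH n) := by
      apply measurable_from_prod_countable_right
      intro x
      exact measurable_pi_apply (⟨n, x⟩ : Σ n : ℕ, TT n)
    have h1 : (fun ω => AA ω n)
        = (evH n) ∘
          (fun ω => (((fun m : Fin n => AA ω m) : TT n), ω)) := by
      funext ω
      exact AA_eq ω n
    rw [h1]
    exact hF.comp (hX.prodMk measurable_id)

lemma AA_cyl (a : Att) (n : ℕ) (ω : OO) :
    (∀ m < n, AA ω m = a m) ↔ (∀ m < n, ω ⟨m, fun k => a k⟩ = a m) := by
  have key : ∀ m, (∀ k < m, AA ω k = a k) → AA ω m = ω ⟨m, fun k => a k⟩ := by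
    intro m hm
    rw [AA_eq]
    have : (fun k : Fin m => AA ω k) = fun k : Fin m => a k := by
      funext k; exact hm k k.isLt
    rw [this]
  constructor
  · intro h m hm
    rw [← key m (fun k hk => h k (by omega))]
    exact h m hm
  · intro h m
    induction m using Nat.strong_induction_on with
    | _ m ih =>
      intro hm
      rw [key m (fun k hk => ih k hk (by omega))]
      exact h m hm

lemma PP_cyl (f : ℕ → ℝ) (hf : ∀ d, 0 < f d) (a : Att) (n : ℕ) :
    PP f hf {ω | ∀ m < n, AA ω m = a m}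
      = ∏ m ∈ Finset.range n, wt f ⟨m, fun k => a k⟩ (a m) := by
  classical
  have hinj : Function.Injective (fun m : ℕ => (⟨m, fun k => a k⟩ : Σ n : ℕ, TT n)) := by
    intro m m' h
    exact congrArg Sigma.fst h
  have h1 : {ω : OO | ∀ m < n, AA ω m = a m}
      = Set.pi (((Finset.range n).image (fun m : ℕ => (⟨m, fun k => a k⟩ : Σ n : ℕ, TT n))) :
          Set (Σ n : ℕ, TT n)) (fun i => {a i.1}) := by
    ext ω
    rw [mem_ofPred_eq, AA_cyl]
    simp only [Set.mem_pi, Finset.coe_image, mem_image, Finset.coe_range, mem_Iio,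
      mem_singleton_iff, forall_exists_index, and_imp, forall_apply_eq_imp_iff₂]
  rw [h1]
  unfold PP
  rw [Measure.infinitePi_pi _ (fun i _ => measurableSet_singleton _),
    Finset.prod_image (fun x _ y _ h => hinj h)]
  apply Finset.prod_congr rfl
  intro m _
  rw [PMF.toMeasure_apply_singleton _ _ (measurableSet_singleton _)]
  rfl

/-- The depth-weighted tree process exists for every positive weight function. -/
theorem exists_dwt (f : ℕ → ℝ) (hf : ∀ d, 0 < f d) :
    ∃ (Ω : Type) (_ : MeasurableSpace Ω) (P : Measure Ω) (_ : IsProbabilityMeasure P)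
      (A : (n : ℕ) → Ω → Fin (n + 1)), IsDWT P f A := by
  refine ⟨OO, inferInstance, PP f hf, inferInstance, fun n ω => AA ω n, AA_meas, fun a n => ?_⟩
  have h1 : {ω : OO | ∀ m ≤ n, AA ω m = a m} = {ω : OO | ∀ m < n + 1, AA ω m = a m} := by
    ext ω; simp only [mem_ofPred_eq, Nat.lt_succ_iff]
  rw [h1, PP_cyl, PP_cyl, Finset.prod_range_succ]
  congr 1
  unfold wt
  have e1 : ∀ i, i ≤ n → dep (extP n (fun k => a k)) i = dep a i := by
    intro i hi
    apply dep_congr
    intro m hm
    unfold extP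
    rw [dif_pos (by omega)]
  have e2 : ∑ k ∈ Finset.range (n + 1), f (dep (extP n (fun k => a k)) k)
      = ∑ k ∈ Finset.range (n + 1), f (dep a k) := by
    apply Finset.sum_congr rfl
    intro i hi
    rw [e1 i (by have := Finset.mem_range.mp hi; omega)]
  simp only
  rw [e1 (a n) (by have := (a n).isLt; omega), e2]

end DWTree
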