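import Pool.Agent.Lib.MP_6f9530_pr.Rho

open MeasureTheory Set Filter Topology

namespace DWTree

/-- The Markov kernel of the spine. -/
noncomputable def KK (c : ℝ) (s ψ : ℝ → ℝ) (x : ℝ) : ℝ :=
  (∫ y in (0:ℝ)..(c * x), gg c s y * ψ y) / cF s (c * x)

/-- Iterates of the kernel. -/
noncomputable def psiN (c : ℝ) (s ψ : ℝ → ℝ) : ℕ → ℝ → ℝ
  | 0 => ψ
  | n + 1 => KK c s (psiN c s ψ n)

namespace Surv

variable {c : ℝ} {s : ℝ → ℝ}

lemma int_le (h : Surv c s) {ψ : ℝ → ℝ} (hψ : BM ψ) {a b m : ℝ} (hab : a ≤ b)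
    (hm : ∀ y ∈ Ioo a b, ψ y ≤ m) :
    ∫ y in a..b, gg c s y * ψ y ≤ m * (cF s b - cF s a) := by
  have h1 := intervalIntegral.integral_mono_on_of_le_Ioo (μ := volume)
    (f := fun y => gg c s y * ψ y) (g := fun y => gg c s y * m) hab
    ((h.bm_gg.mul hψ).ii a b) ((h.bm_gg.mul (BM.const m)).ii a b)
    (fun y hy => mul_le_mul_of_nonneg_left (hm y hy) (h.gg_nonneg y))
  refine h1.trans (le_of_eq ?_)
  rw [intervalIntegral.integral_mul_const, h.integral_gg]; ring

lemma le_int (h : Surv c s) {ψ : ℝ → ℝ} (hψ : BM ψ) {a b m : ℝ} (hab : a ≤ b)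
    (hm : ∀ y ∈ Ioo a b, m ≤ ψ y) :
    m * (cF s b - cF s a) ≤ ∫ y in a..b, gg c s y * ψ y := by
  have h1 := intervalIntegral.integral_mono_on_of_le_Ioo (μ := volume)
    (g := fun y => gg c s y * ψ y) (f := fun y => gg c s y * m) hab
    ((h.bm_gg.mul (BM.const m)).ii a b) ((h.bm_gg.mul hψ).ii a b)
    (fun y hy => mul_le_mul_of_nonneg_left (hm y hy) (h.gg_nonneg y))
  refine le_trans (le_of_eq ?_) h1
  rw [intervalIntegral.integral_mul_const, h.integral_gg]; ring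

lemma KK_le (h : Surv c s) {ψ : ℝ → ℝ} (hψ : BM ψ) {m : ℝ}
    (hm : ∀ y, 0 < y → ψ y ≤ m) {x : ℝ} (hx : 0 < x) : KK c s ψ x ≤ m := by
  have hcx : 0 < c * x := mul_pos (by linarith [h.hc]) hx
  have h1 := h.int_le hψ hcx.le (fun y hy => hm y hy.1)
  rw [h.cF_of_nonpos le_rfl, sub_zero] at h1
  unfold KK
  rw [div_le_iff₀ (h.cF_pos hcx)]; exact h1

lemma le_KK (h : Surv c s) {ψ : ℝ → ℝ} (hψ : BM ψ) {m : ℝ}
    (hm : ∀ y, 0 < y → m ≤ ψ y) {x : ℝ} (hx : 0 < x) : m ≤ KK c s ψ x := by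
  have hcx : 0 < c * x := mul_pos (by linarith [h.hc]) hx
  have h1 := h.le_int hψ hcx.le (fun y hy => hm y hy.1)
  rw [h.cF_of_nonpos le_rfl, sub_zero] at h1
  unfold KK
  rw [le_div_iff₀ (h.cF_pos hcx)]; exact h1

lemma KK_nonpos (h : Surv c s) (ψ : ℝ → ℝ) {x : ℝ} (hx : x ≤ 0) : KK c s ψ x = 0 := by
  unfold KK
  rw [h.cF_of_nonpos (mul_nonpos_of_nonneg_of_nonpos (by linarith [h.hc]) hx), div_zero]

lemma bm_KK (h : Surv c s) {ψ : ℝ → ℝ} (hψ : BM ψ) : BM (KK c s ψ) := by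
  obtain ⟨C, hC⟩ := hψ.2
  have hC0 : 0 ≤ C := (abs_nonneg _).trans (hC 0)
  refine ⟨?_, C, fun x => ?_⟩
  · have h2 : Continuous fun z : ℝ => ∫ y in (0:ℝ)..z, gg c s y * ψ y :=
      intervalIntegral.continuous_primitive (fun a b => (h.bm_gg.mul hψ).ii a b) 0
    have h3 : Continuous fun x : ℝ => c * x := by fun_prop
    exact (h2.comp h3).measurable.div (h.cF_cont.comp h3).measurable
  · rcases le_or_gt x 0 with hx | hx
    · rw [h.KK_nonpos ψ hx]; simpa using hC0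
    · rw [abs_le]
      exact ⟨h.le_KK hψ (fun y _ => (abs_le.mp (hC y)).1) hx,
        h.KK_le hψ (fun y _ => (abs_le.mp (hC y)).2) hx⟩

lemma KK_mono (h : Surv c s) {ψ φ : ℝ → ℝ} (hψ : BM ψ) (hφ : BM φ)
    (hle : ∀ y, 0 < y → ψ y ≤ φ y) {x : ℝ} (hx : 0 < x) : KK c s ψ x ≤ KK c s φ x := by
  have hcx : 0 < c * x := mul_pos (by linarith [h.hc]) hx
  unfold KK
  apply div_le_div_of_nonneg_right _ (h.cF_pos hcx).le
  apply intervalIntegral.integral_mono_on_of_le_Ioo hcx.le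
    ((h.bm_gg.mul hψ).ii _ _) ((h.bm_gg.mul hφ).ii _ _)
  intro y hy
  exact mul_le_mul_of_nonneg_left (hle y hy.1) (h.gg_nonneg y)

lemma KK_add (h : Surv c s) {ψ φ : ℝ → ℝ} (hψ : BM ψ) (hφ : BM φ) (x : ℝ) :
    KK c s (fun y => ψ y + φ y) x = KK c s ψ x + KK c s φ x := by
  unfold KK
  rw [← add_div, ← intervalIntegral.integral_add ((h.bm_gg.mul hψ).ii _ _) ((h.bm_gg.mul hφ).ii _ _)]
  congr 2
  funext y; ring

lemma KK_const (h : Surv c s) (m : ℝ) {x : ℝ} (hx : 0 < x) : KK c s (fun _ => m) x = m := by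
  apply le_antisymm
  · exact h.KK_le (BM.const m) (fun _ _ => le_rfl) hx
  · exact h.le_KK (BM.const m) (fun _ _ => le_rfl) hx

lemma KK_smul (ψ : ℝ → ℝ) (a x : ℝ) :
    KK c s (fun y => a * ψ y) x = a * KK c s ψ x := by
  unfold KK
  rw [← mul_div_assoc, ← intervalIntegral.integral_const_mul]
  congr 2
  funext y; ring

lemma KK_monoOn (h : Surv c s) {ψ : ℝ → ℝ} (hψ : BM ψ) (hmono : MonotoneOn ψ (Ioi 0)) :
    MonotoneOn (KK c s ψ) (Ioi 0) := by
  intro x hx x' hx' hxx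
  have hc := h.hc
  have hx0 : (0:ℝ) < x := hx
  have hx0' : (0:ℝ) < x' := hx'
  have hcx : 0 < c * x := by positivity
  have hcx' : 0 < c * x' := by positivity
  have hle : c * x ≤ c * x' := by nlinarith
  have h1 := h.int_le hψ (a := 0) (b := c * x) (m := ψ (c * x)) hcx.le
    (fun y hy => hmono hy.1 hcx hy.2.le)
  have h2 := h.le_int hψ (a := c * x) (b := c * x') (m := ψ (c * x)) hle
    (fun y hy => hmono hcx (lt_trans hcx hy.1) hy.1.le)
  have h3 : ∫ y in (0:ℝ)..(c * x'), gg c s y * ψ y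
      = (∫ y in (0:ℝ)..(c * x), gg c s y * ψ y) + ∫ y in (c * x)..(c * x'), gg c s y * ψ y :=
    (intervalIntegral.integral_add_adjacent_intervals ((h.bm_gg.mul hψ).ii _ _)
      ((h.bm_gg.mul hψ).ii _ _)).symm
  rw [h.cF_of_nonpos le_rfl, sub_zero] at h1
  have hF := h.cF_pos hcx
  have hF' := h.cF_pos hcx'
  have hFF := h.cF_mono hle
  unfold KK
  rw [div_le_div_iff₀ hF hF', h3]
  set A := ∫ y in (0:ℝ)..(c * x), gg c s y * ψ y
  set D := ∫ y in (c * x)..(c * x'), gg c s y * ψ y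
  nlinarith

lemma psiN_bm (h : Surv c s) {ψ : ℝ → ℝ} (hψ : BM ψ) (n : ℕ) : BM (psiN c s ψ n) := by
  induction n with
  | zero => exact hψ
  | succ n ih => exact h.bm_KK ih

lemma psiN_mono (h : Surv c s) {ψ : ℝ → ℝ} (hψ : BM ψ) (hmono : MonotoneOn ψ (Ioi 0)) (n : ℕ) :
    MonotoneOn (psiN c s ψ n) (Ioi 0) := by
  induction n with
  | zero => exact hmono
  | succ n ih => exact h.KK_monoOn (h.psiN_bm hψ n) ih

lemma psiN_le (h : Surv c s) {ψ : ℝ → ℝ} (hψ : BM ψ) {m : ℝ} (hm : ∀ y, 0 < y → ψ y ≤ m) (n : ℕ) :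
    ∀ x, 0 < x → psiN c s ψ n x ≤ m := by
  induction n with
  | zero => exact hm
  | succ n ih => exact fun x hx => h.KK_le (h.psiN_bm hψ n) ih hx

lemma le_psiN (h : Surv c s) {ψ : ℝ → ℝ} (hψ : BM ψ) {m : ℝ} (hm : ∀ y, 0 < y → m ≤ ψ y) (n : ℕ) :
    ∀ x, 0 < x → m ≤ psiN c s ψ n x := by
  induction n with
  | zero => exact hm
  | succ n ih => exact fun x hx => h.le_KK (h.psiN_bm hψ n) ih hx

/-- Convergence of the iterates of a monotone function. -/
theorem psiN_conv (h : Surv c s) {ψ : ℝ → ℝ} (hψ : BM ψ) (hmono : MonotoneOn ψ (Ioi 0)) :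
    ∃ μ : ℝ, (∀ a, (∀ n x, 0 < x → psiN c s ψ n x ≤ a) → μ ≤ a) ∧
      (∀ a, (∀ n, ∃ x, 0 < x ∧ a ≤ psiN c s ψ n x) → a ≤ μ) ∧
      ∀ t₀ > 0, ∀ ε > 0, ∃ N, ∀ n, N ≤ n → ∀ x, t₀ ≤ x → |psiN c s ψ n x - μ| ≤ ε := by
  obtain ⟨C, hC⟩ := hψ.2
  have hC0 : 0 ≤ C := (abs_nonneg _).trans (hC 0)
  have hub : ∀ n x, 0 < x → psiN c s ψ n x ≤ C := fun n =>
    h.psiN_le hψ (fun y _ => (abs_le.mp (hC y)).2) n
  have hlb : ∀ n x, 0 < x → -C ≤ psiN c s ψ n x := fun n =>
    h.le_psiN hψ (fun y _ => (abs_le.mp (hC y)).1) n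
  set Mx : ℕ → ℝ := fun n => sSup ((psiN c s ψ n) '' Ioi 0) with hMx
  have hne : ∀ n, ((psiN c s ψ n) '' Ioi 0).Nonempty := fun n =>
    ⟨_, mem_image_of_mem _ (mem_Ioi.mpr one_pos : (1:ℝ) ∈ Ioi (0:ℝ))⟩
  have hbdd : ∀ n, BddAbove ((psiN c s ψ n) '' Ioi 0) := fun n =>
    ⟨C, by rintro _ ⟨x, hx, rfl⟩; exact hub n x hx⟩
  have hle : ∀ n x, 0 < x → psiN c s ψ n x ≤ Mx n := fun n x hx =>
    le_csSup (hbdd n) (mem_image_of_mem _ hx)
  have hsup : ∀ n a, (∀ x, 0 < x → psiN c s ψ n x ≤ a) → Mx n ≤ a := by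
    intro n a ha
    apply csSup_le (hne n)
    rintro _ ⟨x, hx, rfl⟩; exact ha x hx
  have hstep : ∀ n (t₀ : ℝ), 0 < t₀ →
      cF s t₀ * (Mx n - psiN c s ψ n t₀) ≤ Mx n - Mx (n + 1) := by
    intro n t₀ ht₀
    have h1 : Mx (n + 1) ≤ Mx n - cF s t₀ * (Mx n - psiN c s ψ n t₀) := by
      apply hsup
      intro x hx
      set x' := max x t₀ with hx'
      have hx'0 : 0 < x' := lt_of_lt_of_le hx (le_max_left _ _)
      have hm1 : psiN c s ψ (n+1) x ≤ psiN c s ψ (n+1) x' :=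
        h.psiN_mono hψ hmono (n+1) hx hx'0 (le_max_left _ _)
      refine hm1.trans ?_
      have hc := h.hc
      have hcx : t₀ ≤ c * x' := by
        have : t₀ ≤ x' := le_max_right _ _
        nlinarith
      have hcx0 : 0 < c * x' := by positivity
      have e1 := h.int_le (h.psiN_bm hψ n) (a := 0) (b := t₀) (m := psiN c s ψ n t₀) ht₀.le
        (fun y hy => h.psiN_mono hψ hmono n hy.1 ht₀ hy.2.le)
      have e2 := h.int_le (h.psiN_bm hψ n) (a := t₀) (b := c * x') (m := Mx n) hcx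
        (fun y hy => hle n y (lt_trans ht₀ hy.1))
      have e3 : ∫ y in (0:ℝ)..(c * x'), gg c s y * psiN c s ψ n y
          = (∫ y in (0:ℝ)..t₀, gg c s y * psiN c s ψ n y)
            + ∫ y in t₀..(c * x'), gg c s y * psiN c s ψ n y :=
        (intervalIntegral.integral_add_adjacent_intervals ((h.bm_gg.mul (h.psiN_bm hψ n)).ii _ _)
          ((h.bm_gg.mul (h.psiN_bm hψ n)).ii _ _)).symm
      rw [h.cF_of_nonpos le_rfl, sub_zero] at e1
      have hF := h.cF_pos hcx0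
      have hF1 := h.cF_le_one (c * x')
      have hF0 := h.cF_nonneg t₀
      have hd : 0 ≤ Mx n - psiN c s ψ n t₀ := by linarith [hle n t₀ ht₀]
      show (∫ y in (0:ℝ)..(c * x'), gg c s y * psiN c s ψ n y) / cF s (c * x') ≤ _
      rw [div_le_iff₀ hF, e3]
      have h5 : 0 ≤ cF s t₀ * (Mx n - psiN c s ψ n t₀) := mul_nonneg hF0 hd
      nlinarith
    linarith
  have hanti : Antitone Mx := by
    apply antitone_nat_of_succ_le
    intro n
    have h1 := hstep n 1 one_pos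
    have h2 := hle n 1 one_pos
    have h3 := h.cF_nonneg 1
    nlinarith
  have hbb : BddBelow (range Mx) := by
    refine ⟨-C, ?_⟩
    rintro _ ⟨n, rfl⟩
    exact (hlb n 1 one_pos).trans (hle n 1 one_pos)
  have htend := tendsto_atTop_ciInf hanti hbb
  set μ := ⨅ n, Mx n with hμ
  have hμle : ∀ n, μ ≤ Mx n := fun n => ciInf_le hbb n
  refine ⟨μ, ?_, ?_, ?_⟩
  · intro a ha
    exact (hμle 0).trans (hsup 0 a (ha 0))
  · intro a ha
    apply le_ciInf
    intro n
    obtain ⟨x, hx, hax⟩ := ha n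
    exact hax.trans (hle n x hx)
  · intro t₀ ht₀ ε hε
    have hFt := h.cF_pos ht₀
    have hev : ∀ᶠ n in atTop, Mx n < μ + ε * cF s t₀ / 2 :=
      htend.eventually (gt_mem_nhds (by have := mul_pos hε hFt; linarith))
    obtain ⟨N, hN⟩ := eventually_atTop.mp hev
    refine ⟨N, fun n hn x hx => ?_⟩
    have h1 := hN n hn
    have h2 := hμle (n + 1)
    have h3 := hstep n t₀ ht₀
    have hx0 : 0 < x := lt_of_lt_of_le ht₀ hx
    have h4 := h.psiN_mono hψ hmono n (show t₀ ∈ Ioi (0:ℝ) from ht₀) hx0 hx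
    have h5 := hle n x hx0
    have hF1 := h.cF_le_one t₀
    have h6 : cF s t₀ * (Mx n - psiN c s ψ n t₀) ≤ cF s t₀ * (ε / 2) := by linarith
    have h7 : Mx n - psiN c s ψ n t₀ ≤ ε / 2 := le_of_mul_le_mul_left h6 hFt
    have h8 := hμle n
    rw [abs_le]
    constructor
    · linarith
    · nlinarith


/-- Test function. -/
noncomputable def hT (s : ℝ → ℝ) (τ x : ℝ) : ℝ := max 0 (1 - τ / Real.sqrt (cF s x))

lemma hT_nonneg (s : ℝ → ℝ) (τ x : ℝ) : 0 ≤ hT s τ x := le_max_left _ _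

lemma hT_le_one {τ : ℝ} (hτ : 0 ≤ τ) (x : ℝ) : hT s τ x ≤ 1 := by
  apply max_le zero_le_one
  have : 0 ≤ τ / Real.sqrt (cF s x) := div_nonneg hτ (Real.sqrt_nonneg _)
  linarith

lemma bm_hT (h : Surv c s) {τ : ℝ} (hτ : 0 ≤ τ) : BM (hT s τ) := by
  refine ⟨?_, 1, fun x => ?_⟩
  · have := h.cF_cont.measurable
    unfold hT
    exact measurable_const.max (measurable_const.sub (measurable_const.div this.sqrt))
  · rw [abs_of_nonneg (hT_nonneg s τ x)]; exact hT_le_one hτ x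

lemma KK_hT (h : Surv c s) {τ : ℝ} (hτ : 0 ≤ τ) {x : ℝ} (hx : 0 < x) :
    1 - 2 * τ / Real.sqrt (cF s (c * x)) ≤ KK c s (hT s τ) x := by
  have hcx : 0 < c * x := mul_pos (by linarith [h.hc]) hx
  have hF := h.cF_pos hcx
  set w := cF s (c * x) with hw
  have hsq : 0 < Real.sqrt w := Real.sqrt_pos.mpr hF
  have key : ∀ a, 0 < a → a ≤ c * x →
      w - 2 * τ * Real.sqrt w - cF s a ≤ ∫ y in (0:ℝ)..(c * x), gg c s y * hT s τ y := by
    intro a ha hac
    have hii := fun a b => (h.bm_gg.mul (h.bm_hT hτ)).ii a b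
    have e1 : ∫ y in (0:ℝ)..(c * x), gg c s y * hT s τ y
        = (∫ y in (0:ℝ)..a, gg c s y * hT s τ y) + ∫ y in a..(c * x), gg c s y * hT s τ y :=
      (intervalIntegral.integral_add_adjacent_intervals (hii _ _) (hii _ _)).symm
    have e2 : 0 ≤ ∫ y in (0:ℝ)..a, gg c s y * hT s τ y :=
      intervalIntegral.integral_nonneg ha.le (fun y _ => mul_nonneg (h.gg_nonneg y) (hT_nonneg _ _ _))
    have hder : ∀ y ∈ uIcc a (c * x), HasDerivAt (fun z => cF s z - 2 * τ * Real.sqrt (cF s z))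
        (gg c s y * (1 - τ / Real.sqrt (cF s y))) y := by
      intro y hy
      rw [uIcc_of_le hac] at hy
      have hy0 : 0 < y := lt_of_lt_of_le ha hy.1
      have h1 : HasDerivAt (cF s) (gg c s y) y := by
        have h2 := (h.hasDeriv y).const_sub 1
        rw [neg_neg] at h2
        exact h2
      have h2 := h1.sqrt (h.cF_pos hy0).ne'
      have h3 := h1.sub (h2.const_mul (2 * τ))
      have h4 : gg c s y - 2 * τ * (gg c s y / (2 * Real.sqrt (cF s y)))
          = gg c s y * (1 - τ / Real.sqrt (cF s y)) := by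
        have : 0 < Real.sqrt (cF s y) := Real.sqrt_pos.mpr (h.cF_pos hy0)
        field_simp
      rw [h4] at h3
      exact h3
    have hcont : ContinuousOn (fun y => gg c s y * (1 - τ / Real.sqrt (cF s y))) (uIcc a (c * x)) := by
      rw [uIcc_of_le hac]
      apply h.gg_cont.continuousOn.mul
      apply continuousOn_const.sub
      apply continuousOn_const.div (h.cF_cont.sqrt.continuousOn)
      intro y hy
      exact (Real.sqrt_pos.mpr (h.cF_pos (lt_of_lt_of_le ha hy.1))).ne'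
    have hI : IntervalIntegrable (fun y => gg c s y * (1 - τ / Real.sqrt (cF s y))) volume a (c * x) :=
      hcont.intervalIntegrable
    have e3 := intervalIntegral.integral_eq_sub_of_hasDerivAt hder hI
    have e4 : ∫ y in a..(c * x), gg c s y * (1 - τ / Real.sqrt (cF s y))
        ≤ ∫ y in a..(c * x), gg c s y * hT s τ y := by
      apply intervalIntegral.integral_mono_on hac hI (hii _ _)
      intro y _
      exact mul_le_mul_of_nonneg_left (le_max_right _ _) (h.gg_nonneg y)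
    have e5 : 0 ≤ 2 * τ * Real.sqrt (cF s a) := by positivity
    rw [e3] at e4
    rw [e1]
    linarith
  have hlim : w - 2 * τ * Real.sqrt w ≤ ∫ y in (0:ℝ)..(c * x), gg c s y * hT s τ y := by
    apply le_of_forall_pos_le_add
    intro ε hε
    have hcF0 : Tendsto (cF s) (𝓝 0) (𝓝 0) := by
      have := h.cF_cont.tendsto 0
      rwa [h.cF_of_nonpos le_rfl] at this
    have hev := hcF0.eventually (gt_mem_nhds hε)
    obtain ⟨δ, hδ, hδ'⟩ := Metric.eventually_nhds_iff.mp hev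
    set a := min (δ / 2) (c * x) with ha
    have ha0 : 0 < a := lt_min (by positivity) hcx
    have ha1 : a ≤ δ / 2 := min_le_left _ _
    have := @hδ' a (by rw [Real.dist_eq, sub_zero, abs_of_pos ha0]; linarith)
    have := key a ha0 (min_le_right _ _)
    linarith
  unfold KK
  rw [le_div_iff₀ hF]
  have h6 : (1 - 2 * τ / Real.sqrt w) * w = w - 2 * τ * Real.sqrt w := by
    have : w = Real.sqrt w * Real.sqrt w := (Real.mul_self_sqrt hF.le).symm
    have h7 : 2 * τ / Real.sqrt w * w = 2 * τ * Real.sqrt w := by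
      conv_lhs => rw [this]
      rw [Real.sqrt_mul_self hsq.le]
      field_simp
    rw [sub_mul, one_mul, h7]
  rw [h6]
  exact hlim

theorem psiN_lower (h : Surv c s) {ρ : ℝ → ℝ} (hρ : BM ρ) {c₁ : ℝ} (hc₁ : 0 < c₁)
    (hlow : ∀ x, 0 ≤ x → c₁ * min x 1 ≤ ρ x) :
    ∃ b > 1, ∀ n, b ≤ psiN c s (fun x => 1 + ρ x) n 1 := by
  have hc := h.hc
  set F₁ := cF s (c * (1 / 64)) with hF₁
  have hF₁pos : 0 < F₁ := h.cF_pos (by positivity)
  set CV := 2 / Real.sqrt F₁ with hCV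
  have hCVpos : 0 < CV := div_pos two_pos (Real.sqrt_pos.mpr hF₁pos)
  have hF1 : 0 < cF s 1 := h.cF_pos one_pos
  have hsF1 : 0 < Real.sqrt (cF s 1) := Real.sqrt_pos.mpr hF1
  obtain ⟨τ, hτ0, hτ1, hτ2⟩ : ∃ τ > 0, τ * CV ≤ 1 / 4 ∧ τ ≤ Real.sqrt (cF s 1) / 2 := by
    refine ⟨min (1 / (4 * CV)) (Real.sqrt (cF s 1) / 2), by positivity, ?_, min_le_right _ _⟩
    calc min (1 / (4 * CV)) (Real.sqrt (cF s 1) / 2) * CV ≤ 1 / (4 * CV) * CV :=
          mul_le_mul_of_nonneg_right (min_le_left _ _) hCVpos.le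
      _ = 1 / 4 := by field_simp
  -- one step
  have step : ∀ t, 0 < t → t * CV ≤ 1 / 4 → ∀ x, 0 < x →
      (1 - t * CV) * hT s (t / 2) x ≤ KK c s (hT s t) x := by
    intro t ht htC x hx
    have hcx : 0 < c * x := mul_pos (by linarith) hx
    have hFx := h.cF_pos hx
    have hsx : 0 < Real.sqrt (cF s x) := Real.sqrt_pos.mpr hFx
    have hscx : 0 < Real.sqrt (cF s (c * x)) := Real.sqrt_pos.mpr (h.cF_pos hcx)
    have h0 : 0 ≤ KK c s (hT s t) x :=
      h.le_KK (h.bm_hT ht.le) (fun y _ => hT_nonneg _ _ _) hx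
    have h1 := h.KK_hT ht.le hx
    have h2 : 2 * t / Real.sqrt (cF s (c * x)) ≤ t * CV + (t / 4) / Real.sqrt (cF s x) := by
      rcases le_total x (1 / 64) with hx1 | hx1
      · have h3 : cF s x ≤ (1/64) * cF s (c * x) := by
          refine (h.cF_le_mul hx.le).trans ?_
          exact mul_le_mul_of_nonneg_right hx1 (h.cF_nonneg _)
        have h4 : Real.sqrt (cF s x) ≤ (1 / 8) * Real.sqrt (cF s (c * x)) := by
          have e : Real.sqrt ((1/64) * cF s (c * x)) = (1 / 8) * Real.sqrt (cF s (c * x)) := by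
            rw [Real.sqrt_mul (by norm_num)]
            congr 1
            rw [show (1:ℝ)/64 = (1/8)^2 by norm_num, Real.sqrt_sq (by norm_num)]
          rw [← e]
          exact Real.sqrt_le_sqrt h3
        have h5 : 2 * t / Real.sqrt (cF s (c * x)) ≤ (t / 4) / Real.sqrt (cF s x) := by
          rw [div_le_div_iff₀ hscx hsx]
          nlinarith
        have h6 : 0 ≤ t * CV := by positivity
        linarith
      · have h3 : F₁ ≤ cF s (c * x) := h.cF_mono (mul_le_mul_of_nonneg_left hx1 (by linarith))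
        have h4 : Real.sqrt F₁ ≤ Real.sqrt (cF s (c * x)) := Real.sqrt_le_sqrt h3
        have h5 : 2 * t / Real.sqrt (cF s (c * x)) ≤ 2 * t / Real.sqrt F₁ :=
          div_le_div_of_nonneg_left (by positivity) (Real.sqrt_pos.mpr hF₁pos) h4
        have h6 : 2 * t / Real.sqrt F₁ = t * CV := by rw [hCV]; ring
        have h7 : 0 ≤ (t / 4) / Real.sqrt (cF s x) := by positivity
        linarith
    unfold hT
    rcases le_total (1 - t / 2 / Real.sqrt (cF s x)) 0 with h8 | h8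
    · rw [max_eq_left h8, mul_zero]; exact h0
    · rw [max_eq_right h8]
      refine le_trans ?_ h1
      have h9 : 0 ≤ t / Real.sqrt (cF s x) := by positivity
      have e1 : t / 2 / Real.sqrt (cF s x) = (t / Real.sqrt (cF s x)) / 2 := by ring
      have e2 : t / 4 / Real.sqrt (cF s x) = (t / Real.sqrt (cF s x)) / 4 := by ring
      rw [e1]
      rw [e2] at h2
      nlinarith
  -- base
  obtain ⟨a, ha0, ha1, haF⟩ : ∃ a > 0, a ≤ 1 ∧ cF s a ≤ τ ^ 2 := by
    have hcF0 : Tendsto (cF s) (𝓝 0) (𝓝 0) := by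
      have := h.cF_cont.tendsto 0
      rwa [h.cF_of_nonpos le_rfl] at this
    have hev := hcF0.eventually (gt_mem_nhds (by positivity : 0 < τ ^ 2))
    obtain ⟨δ, hδ, hδ'⟩ := Metric.eventually_nhds_iff.mp hev
    refine ⟨min (δ / 2) 1, lt_min (by positivity) one_pos, min_le_right _ _, ?_⟩
    have ha0 : 0 < min (δ / 2) 1 := lt_min (by positivity) one_pos
    exact (@hδ' (min (δ / 2) 1) (by
      rw [Real.dist_eq, sub_zero, abs_of_pos ha0]
      linarith [min_le_left (δ / 2) 1])).le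
  set b₀ := c₁ * a with hb₀
  have hb₀pos : 0 < b₀ := by positivity
  have base : ∀ x, 0 < x → b₀ * hT s τ x ≤ ρ x := by
    intro x hx
    have hρx := hlow x hx.le
    have hsx : 0 < Real.sqrt (cF s x) := Real.sqrt_pos.mpr (h.cF_pos hx)
    rcases le_total x a with hxa | hxa
    · have h1 : hT s τ x = 0 := by
        apply max_eq_left
        have h2 : cF s x ≤ τ ^ 2 := (h.cF_mono hxa).trans haF
        have h3 : Real.sqrt (cF s x) ≤ τ := by
          rw [← Real.sqrt_sq hτ0.le]; exact Real.sqrt_le_sqrt h2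
        have h4 : 1 ≤ τ / Real.sqrt (cF s x) := by rw [le_div_iff₀ hsx]; linarith
        linarith
      rw [h1, mul_zero]
      refine le_trans ?_ hρx
      have : 0 ≤ min x 1 := le_min hx.le zero_le_one
      positivity
    · have h1 := hT_le_one (s := s) hτ0.le x
      have h2 : a ≤ min x 1 := le_min hxa ha1
      calc b₀ * hT s τ x ≤ b₀ * 1 := mul_le_mul_of_nonneg_left h1 hb₀pos.le
        _ = c₁ * a := by rw [mul_one]
        _ ≤ c₁ * min x 1 := mul_le_mul_of_nonneg_left h2 hc₁.le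
        _ ≤ ρ x := hρx
  have hψ : BM (fun x => 1 + ρ x) := (BM.const 1).add hρ
  have ind : ∀ n : ℕ, ∀ x, 0 < x →
      1 + b₀ * (1 - 2 * (τ * CV) * (1 - (1/2)^n)) * hT s (τ * (1/2)^n) x
        ≤ psiN c s (fun x => 1 + ρ x) n x := by
    intro n
    induction n with
    | zero =>
      intro x hx
      have := base x hx
      show _ ≤ 1 + ρ x
      simp only [pow_zero, sub_self, mul_zero, sub_zero, mul_one]
      linarith
    | succ n ih =>
      intro x hx
      set t := τ * (1/2)^n with ht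
      have hpow : 0 < ((1:ℝ)/2)^n := by positivity
      have hpow1 : ((1:ℝ)/2)^n ≤ 1 := pow_le_one₀ (by norm_num) (by norm_num)
      have ht0 : 0 < t := by positivity
      have htτ : t ≤ τ := by rw [ht]; nlinarith
      have htC : t * CV ≤ 1 / 4 := (mul_le_mul_of_nonneg_right htτ hCVpos.le).trans hτ1
      set A := b₀ * (1 - 2 * (τ * CV) * (1 - (1/2)^n)) with hA
      have hA1 : 0 ≤ 1 - 2 * (τ * CV) * (1 - (1/2)^n) := by
        have h1 : 2 * (τ * CV) * (1 - (1/2)^n) ≤ 2 * (1/4) * 1 := by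
          apply mul_le_mul _ _ (by linarith) (by norm_num)
          · linarith
          · linarith
        linarith
      have hA0 : 0 ≤ A := mul_nonneg hb₀pos.le hA1
      have hA2 : 1 - 2 * (τ * CV) * (1 - (1/2)^n) ≤ 1 := by
        have : 0 ≤ 2 * (τ * CV) * (1 - (1/2)^n) := mul_nonneg (by positivity) (by linarith)
        linarith
      have h1 : KK c s (fun y => 1 + A * hT s t y) x ≤ psiN c s (fun x => 1 + ρ x) (n+1) x := by
        apply h.KK_mono _ (h.psiN_bm hψ n) ih hx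
        exact (BM.const 1).add ((BM.const A).mul (h.bm_hT ht0.le))
      have h2 : KK c s (fun y => 1 + A * hT s t y) x = 1 + A * KK c s (hT s t) x := by
        rw [h.KK_add (BM.const 1) ((BM.const A).mul (h.bm_hT ht0.le)), h.KK_const 1 hx, KK_smul]
      have h3 := step t ht0 htC x hx
      have h4 := mul_le_mul_of_nonneg_left h3 hA0
      rw [h2] at h1
      refine le_trans ?_ h1
      have e1 : τ * (1 / 2) ^ (n + 1) = t / 2 := by rw [ht, pow_succ]; ring
      rw [e1]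
      have hh := hT_nonneg s (t / 2) x
      have h5 : b₀ * (1 - 2 * (τ * CV) * (1 - (1 / 2) ^ (n + 1))) ≤ A * (1 - t * CV) := by
        have e2 : A * (1 - t * CV) = b₀ * ((1 - 2 * (τ * CV) * (1 - (1/2)^n)) * (1 - t * CV)) := by
          rw [hA]; ring
        rw [e2]
        apply mul_le_mul_of_nonneg_left _ hb₀pos.le
        have h6 : (1 - 2 * (τ * CV) * (1 - (1/2)^n)) * (1 - t * CV)
            ≥ (1 - 2 * (τ * CV) * (1 - (1/2)^n)) - t * CV := by
          have : 0 ≤ t * CV := by positivity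
          nlinarith
        have h7 : 1 - 2 * (τ * CV) * (1 - (1 / 2) ^ (n + 1))
            = (1 - 2 * (τ * CV) * (1 - (1/2)^n)) - t * CV := by
          rw [ht, pow_succ]; ring
        linarith
      have h8 := mul_le_mul_of_nonneg_right h5 hh
      have h9 : A * (1 - t * CV) * hT s (t / 2) x = A * ((1 - t * CV) * hT s (t / 2) x) := by ring
      linarith
  refine ⟨1 + b₀ / 4, by linarith, fun n => ?_⟩
  refine le_trans ?_ (ind n 1 one_pos)
  have hpow : 0 < ((1:ℝ)/2)^n := by positivity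
  have hpow1 : ((1:ℝ)/2)^n ≤ 1 := pow_le_one₀ (by norm_num) (by norm_num)
  have h1 : (1:ℝ)/2 ≤ 1 - 2 * (τ * CV) * (1 - (1/2)^n) := by
    have : 2 * (τ * CV) * (1 - (1/2)^n) ≤ 2 * (1/4) * 1 := by
      apply mul_le_mul _ _ (by linarith) (by norm_num)
      · linarith
      · linarith
    linarith
  have h2 : (1:ℝ)/2 ≤ hT s (τ * (1/2)^n) 1 := by
    refine le_trans ?_ (le_max_right _ _)
    have h3 : τ * (1/2)^n / Real.sqrt (cF s 1) ≤ 1 / 2 := by
      rw [div_le_iff₀ hsF1]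
      nlinarith
    linarith
  have h3 : b₀ * (1/2) ≤ b₀ * (1 - 2 * (τ * CV) * (1 - (1/2)^n)) :=
    mul_le_mul_of_nonneg_left h1 hb₀pos.le
  have h4 : b₀ * (1/2) * (1/2) ≤ b₀ * (1 - 2 * (τ * CV) * (1 - (1/2)^n)) * hT s (τ * (1/2)^n) 1 :=
    mul_le_mul h3 h2 (by norm_num) (by linarith [mul_nonneg hb₀pos.le (by norm_num : (0:ℝ) ≤ 1/2)])
  linarith

end Surv

end DWTree
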