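import Pool.Agent.Lib.MP_6f9530_pr.Tail

open MeasureTheory Set Filter Topology
open scoped ENNReal

namespace DWTree

lemma alive_iff {K n : ℕ} (hK : 0 < K) (a : Att) : Alive K n a ↔ treeDepth a (n + 1) < K := by
  unfold treeDepth Alive
  rw [Finset.sup_lt_iff (by simpa using hK)]
  constructor
  · intro h j hj
    exact h j (by have := Finset.mem_range.mp hj; omega)
  · intro h j hj
    exact h j (Finset.mem_range.mpr (by omega))

theorem conv_of_super {c μ : ℝ} (hμ : 1 < μ)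
    (hsup : ∀ ε > 0, ∃ η₀ > 0, ∀ η : ℝ, η ≠ 0 → |η| ≤ η₀ →
      ∃ (δ : ℝ) (σ γ : ℝ → ℝ) (C I : ℝ), 0 < δ ∧
        SuperPair c δ (1 + η) (μ * η + ε * |η|) σ γ C I)
    {f : ℕ → ℝ}
    (hf : ∀ d, 0 < f d) (hlim : Tendsto (fun k => f (k + 1) / f k) atTop (𝓝 c))
    {Ω : Type*} [MeasurableSpace Ω] {P : Measure Ω} [IsProbabilityMeasure P]
    {A : (n : ℕ) → Ω → Fin (n + 1)} (h : IsDWT P f A) :
    ∀ᵐ ω ∂P, Tendsto (fun n : ℕ => (treeDepth (fun m => A m ω) n : ℝ) / n) atTop (𝓝 (1 / μ)) := by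
  have hμ0 : 0 < μ := by linarith
  have hν0 : 0 < 1 / μ := by positivity
  have hU : ∀ᵐ ω ∂P, ∀ q : ℚ, 1 / μ < (q:ℝ) →
      ∀ᶠ n : ℕ in atTop, Alive ⌈(q:ℝ) * (n:ℝ)⌉₊ n (fun m => A m ω) := by
    rw [ae_all_iff]
    intro q
    by_cases hq : 1 / μ < (q:ℝ)
    · filter_upwards [depth_upper hμ hsup hf hlim h hq] with ω hω _ using hω
    · exact Eventually.of_forall fun ω hq' => absurd hq' hq
  have hL : ∀ᵐ ω ∂P, ∀ q : ℚ, 0 < (q:ℝ) → (q:ℝ) < 1 / μ →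
      ∀ᶠ n : ℕ in atTop, ¬ Alive ⌈(q:ℝ) * (n:ℝ)⌉₊ n (fun m => A m ω) := by
    rw [ae_all_iff]
    intro q
    by_cases hq0 : 0 < (q:ℝ)
    · by_cases hq : (q:ℝ) < 1 / μ
      · filter_upwards [depth_lower hμ hsup hf hlim h hq0 hq] with ω hω _ _ using hω
      · exact Eventually.of_forall fun ω _ hq' => absurd hq' hq
    · exact Eventually.of_forall fun ω hq' => absurd hq' hq0
  filter_upwards [hU, hL] with ω hUω hLω
  rw [← tendsto_add_atTop_iff_nat 1]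
  set T : ℕ → ℕ := fun n => treeDepth (fun m => A m ω) (n + 1) with hT
  rw [tendsto_order]
  constructor
  · intro b hb
    obtain ⟨q, hq1, hq2⟩ := exists_rat_btwn (max_lt hb hν0)
    have hq0 : 0 < (q:ℝ) := lt_of_le_of_lt (le_max_right _ _) hq1
    have hqb : b < (q:ℝ) := lt_of_le_of_lt (le_max_left _ _) hq1
    have hev := hLω q hq0 hq2
    have hlim2 : Tendsto (fun n : ℕ => (q:ℝ) * ((n:ℝ) / ((n:ℝ) + 1))) atTop (𝓝 ((q:ℝ) * 1)) :=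
      (tendsto_natCast_div_add_atTop (1:ℝ)).const_mul _
    rw [mul_one] at hlim2
    filter_upwards [hev, hlim2.eventually (lt_mem_nhds hqb), eventually_ge_atTop 1] with n hn1 hn2 hn3
    have hnpos : (0:ℝ) < (n:ℝ) := by exact_mod_cast hn3
    have hK : 0 < ⌈(q:ℝ) * (n:ℝ)⌉₊ := Nat.ceil_pos.mpr (by positivity)
    rw [alive_iff hK] at hn1
    push Not at hn1
    have h1 : (q:ℝ) * n ≤ (T n : ℝ) := (Nat.le_ceil _).trans (by exact_mod_cast hn1)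
    have h2 : (q:ℝ) * ((n:ℝ) / ((n:ℝ) + 1)) ≤ (T n : ℝ) / ((n + 1 : ℕ) : ℝ) := by
      push_cast
      rw [← mul_div_assoc]
      exact div_le_div_of_nonneg_right h1 (by positivity)
    exact lt_of_lt_of_le hn2 h2
  · intro b hb
    obtain ⟨q, hq1, hq2⟩ := exists_rat_btwn hb
    have hq0 : 0 < (q:ℝ) := lt_trans hν0 hq1
    have hev := hUω q hq1
    filter_upwards [hev, eventually_ge_atTop 1] with n hn1 hn3
    have hnpos : (0:ℝ) < (n:ℝ) := by exact_mod_cast hn3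
    have hK : 0 < ⌈(q:ℝ) * (n:ℝ)⌉₊ := Nat.ceil_pos.mpr (by positivity)
    rw [alive_iff hK] at hn1
    have h1 : (T n : ℝ) < (q:ℝ) * n := Nat.lt_ceil.mp hn1
    have h2 : (T n : ℝ) / ((n + 1 : ℕ) : ℝ) ≤ (q:ℝ) := by
      push_cast
      rw [div_le_iff₀ (by positivity)]
      nlinarith
    exact lt_of_le_of_lt h2 hq2

theorem main_conv : ∃ ν : ℝ → ℝ, ∀ c : ℝ, 1 < c → 0 < ν c ∧ ν c < 1 ∧
    ∀ f : ℕ → ℝ, (∀ k, 0 < f k) → Tendsto (fun k => f (k + 1) / f k) atTop (𝓝 c) →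
    ∀ (Ω : Type*) [MeasurableSpace Ω] (P : Measure Ω) [IsProbabilityMeasure P]
      (A : (n : ℕ) → Ω → Fin (n + 1)), IsDWT P f A →
    ∀ᵐ ω ∂P, Tendsto (fun n : ℕ => (treeDepth (fun m => A m ω) n : ℝ) / n) atTop (𝓝 (ν c)) := by
  have h0 : ∀ c : ℝ, ∃ μ : ℝ, 1 < c → 1 < μ ∧ ∀ ε > 0, ∃ η₀ > 0, ∀ η : ℝ, η ≠ 0 → |η| ≤ η₀ →
      ∃ (δ : ℝ) (σ γ : ℝ → ℝ) (C I : ℝ), 0 < δ ∧
        SuperPair c δ (1 + η) (μ * η + ε * |η|) σ γ C I := by
    intro c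
    by_cases hc : 1 < c
    · obtain ⟨μ, hμ⟩ := exists_super hc
      exact ⟨μ, fun _ => hμ⟩
    · exact ⟨0, fun h => absurd h hc⟩
  choose μ hμ using h0
  refine ⟨fun c => 1 / μ c, fun c hc => ?_⟩
  obtain ⟨h1, h2⟩ := hμ c hc
  have hpos : 0 < μ c := by linarith
  refine ⟨by positivity, ?_, ?_⟩
  · rw [div_lt_one hpos]; exact h1
  · intro f hf hlim Ω _ P _ A hA
    exact conv_of_super h1 h2 hf hlim hA

end DWTree
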