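import Pool.Agent.Lib.MP_6f9530_pr.SuperAN

open MeasureTheory Set Filter Topology

namespace DWTree

/-- Weighted survival generating function, `m` levels below the horizon, at depth `d`. -/
noncomputable def GG (s' : ℝ) (f : ℕ → ℝ) : ℕ → ℕ → ℝ → ℝ
  | 0, _, _ => 0
  | m + 1, d, t => Real.exp (-(f d * t) + s' * f d * ∫ u in (0:ℝ)..t, GG s' f m (d + 1) u)

/-- Integrated hitting generating function. -/
noncomputable def Gam (s' : ℝ) (f : ℕ → ℝ) : ℕ → ℕ → ℝ → ℝ
  | 0, _, _ => 1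
  | m + 1, d, t => ∫ u in (0:ℝ)..t, s' * f d * GG s' f (m + 1) d u * Gam s' f m (d + 1) u

/-- Hitting density generating function. -/
noncomputable def gam (s' : ℝ) (f : ℕ → ℝ) : ℕ → ℕ → ℝ → ℝ
  | 0, _, _ => 0
  | m + 1, d, t => s' * f d * GG s' f (m + 1) d t * Gam s' f m (d + 1) t

lemma neg_mul_deriv (a t : ℝ) : HasDerivAt (fun z : ℝ => -(a * z)) (-a) t := by
  have h := (hasDerivAt_id t).const_mul (-a)
  have e : (fun z : ℝ => -(a * z)) = fun z => -a * id z := by funext z; simp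
  rw [e]
  have e2 : -a * 1 = -a := mul_one _
  rw [e2] at h
  exact h

variable {s' : ℝ} {f : ℕ → ℝ}

lemma GG_cont (m d : ℕ) : Continuous (GG s' f m d) := by
  induction m generalizing d with
  | zero => exact continuous_const
  | succ m ih =>
    have h2 : Continuous fun z : ℝ => ∫ u in (0:ℝ)..z, GG s' f m (d + 1) u :=
      intervalIntegral.continuous_primitive (fun a b => (ih (d+1)).intervalIntegrable a b) 0
    show Continuous fun t => Real.exp (-(f d * t) + s' * f d * ∫ u in (0:ℝ)..t, GG s' f m (d + 1) u)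
    exact Real.continuous_exp.comp ((by fun_prop : Continuous fun t : ℝ => -(f d * t)).add
      (continuous_const.mul h2))

lemma Gam_cont (m d : ℕ) : Continuous (Gam s' f m d) := by
  induction m generalizing d with
  | zero => exact continuous_const
  | succ m ih =>
    have h1 : Continuous fun u : ℝ => s' * f d * GG s' f (m + 1) d u * Gam s' f m (d + 1) u :=
      (continuous_const.mul (GG_cont (m+1) d)).mul (ih (d+1))
    exact intervalIntegral.continuous_primitive (fun a b => h1.intervalIntegrable a b) 0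

lemma gam_cont (m d : ℕ) : Continuous (gam s' f m d) := by
  cases m with
  | zero => exact continuous_const
  | succ m => exact (continuous_const.mul (GG_cont (m+1) d)).mul (Gam_cont m (d+1))

lemma GG_deriv (m d : ℕ) (t : ℝ) : HasDerivAt (GG s' f (m + 1) d)
    (-(f d * (1 - s' * GG s' f m (d + 1) t)) * GG s' f (m + 1) d t) t := by
  have h1 : HasDerivAt (fun z => ∫ u in (0:ℝ)..z, GG s' f m (d + 1) u) (GG s' f m (d + 1) t) t :=
    intervalIntegral.integral_hasDerivAt_right ((GG_cont m (d+1)).intervalIntegrable _ _)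
      ((GG_cont m (d+1)).stronglyMeasurableAtFilter _ _) (GG_cont m (d+1)).continuousAt
  have h0 : HasDerivAt (fun z : ℝ => -(f d * z)) (-(f d)) t := neg_mul_deriv (f d) t
  have h2 := (h0.add (h1.const_mul (s' * f d))).exp
  have h3 : Real.exp (-(f d * t) + s' * f d * ∫ u in (0:ℝ)..t, GG s' f m (d + 1) u)
      * (-(f d) + s' * f d * GG s' f m (d + 1) t)
      = -(f d * (1 - s' * GG s' f m (d + 1) t)) * GG s' f (m + 1) d t := by
    show _ = -(f d * (1 - s' * GG s' f m (d + 1) t)) *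
      Real.exp (-(f d * t) + s' * f d * ∫ u in (0:ℝ)..t, GG s' f m (d + 1) u)
    ring
  rw [← h3]
  exact h2

lemma Gam_deriv (m d : ℕ) (t : ℝ) : HasDerivAt (Gam s' f m d) (gam s' f m d t) t := by
  cases m with
  | zero => exact hasDerivAt_const t 1
  | succ m =>
    have h1 : Continuous fun u : ℝ => s' * f d * GG s' f (m + 1) d u * Gam s' f m (d + 1) u :=
      (continuous_const.mul (GG_cont (m+1) d)).mul (Gam_cont m (d+1))
    exact intervalIntegral.integral_hasDerivAt_right (h1.intervalIntegrable _ _)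
      (h1.stronglyMeasurableAtFilter _ _) h1.continuousAt

lemma gam_deriv (m d : ℕ) (t : ℝ) : HasDerivAt (gam s' f (m + 1) d)
    (-(f d * (1 - s' * GG s' f m (d + 1) t)) * gam s' f (m + 1) d t
      + s' * f d * GG s' f (m + 1) d t * gam s' f m (d + 1) t) t := by
  have h1 := ((GG_deriv (s' := s') (f := f) m d t).const_mul (s' * f d)).mul
    (Gam_deriv (s' := s') (f := f) m (d+1) t)
  have h3 : s' * f d * (-(f d * (1 - s' * GG s' f m (d + 1) t)) * GG s' f (m + 1) d t)
        * Gam s' f m (d + 1) t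
      + s' * f d * GG s' f (m + 1) d t * gam s' f m (d + 1) t
      = -(f d * (1 - s' * GG s' f m (d + 1) t)) * gam s' f (m + 1) d t
      + s' * f d * GG s' f (m + 1) d t * gam s' f m (d + 1) t := by
    show _ = -(f d * (1 - s' * GG s' f m (d + 1) t)) *
      (s' * f d * GG s' f (m + 1) d t * Gam s' f m (d + 1) t) + _
    ring
  rw [← h3]
  exact h1

lemma GG_nonneg (m d : ℕ) (t : ℝ) : 0 ≤ GG s' f m d t := by
  cases m with
  | zero => exact le_rfl
  | succ m => exact (Real.exp_pos _).le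

lemma Gam_nonneg (hs : 0 ≤ s') (hf : ∀ d, 0 < f d) (m d : ℕ) {t : ℝ} (ht : 0 ≤ t) :
    0 ≤ Gam s' f m d t := by
  induction m generalizing d t with
  | zero => exact zero_le_one
  | succ m ih =>
    apply intervalIntegral.integral_nonneg ht
    intro u hu
    exact mul_nonneg (mul_nonneg (mul_nonneg hs (hf d).le) (GG_nonneg _ _ _)) (ih (d+1) hu.1)

lemma gam_nonneg (hs : 0 ≤ s') (hf : ∀ d, 0 < f d) (m d : ℕ) {t : ℝ} (ht : 0 ≤ t) :
    0 ≤ gam s' f m d t := by
  cases m with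
  | zero => exact le_rfl
  | succ m => exact mul_nonneg (mul_nonneg (mul_nonneg hs (hf d).le) (GG_nonneg _ _ _))
                (Gam_nonneg hs hf m (d+1) ht)

lemma GG_zero (m d : ℕ) : GG s' f (m + 1) d 0 = 1 := by
  show Real.exp (-(f d * 0) + s' * f d * ∫ u in (0:ℝ)..0, GG s' f m (d + 1) u) = 1
  simp

lemma exp_int {a : ℝ} (ha : 0 < a) {t : ℝ} : ∫ u in (0:ℝ)..t, Real.exp (-(a * u)) ≤ 1 / a := by
  have h1 : ∀ y ∈ uIcc (0:ℝ) t, HasDerivAt (fun y => -(1 / a) * Real.exp (-(a * y)))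
      (Real.exp (-(a * y))) y := by
    intro y _
    have h0 : HasDerivAt (fun z : ℝ => -(a * z)) (-a) y := neg_mul_deriv a y
    have h3 : HasDerivAt (fun y : ℝ => -(1 / a) * Real.exp (-(a * y)))
        (-(1 / a) * (Real.exp (-(a * y)) * (-a))) y := (h0.exp).const_mul _
    have h4 : -(1 / a) * (Real.exp (-(a * y)) * (-a)) = Real.exp (-(a * y)) := by
      field_simp
    rw [h4] at h3
    exact h3
  rw [intervalIntegral.integral_eq_sub_of_hasDerivAt h1
    ((by fun_prop : Continuous fun y : ℝ => Real.exp (-(a * y))).intervalIntegrable _ _)]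
  simp only [mul_zero, neg_zero, Real.exp_zero, mul_one, sub_neg_eq_add]
  have : 0 ≤ (1 / a) * Real.exp (-(a * t)) := by positivity
  linarith

lemma GG_succ_le (hs : 0 ≤ s') (hf : ∀ d, 0 < f d) (m d : ℕ) {J : ℝ}
    (hJ : ∀ t, 0 ≤ t → ∫ u in (0:ℝ)..t, GG s' f m (d + 1) u ≤ J) {t : ℝ} (ht : 0 ≤ t) :
    GG s' f (m + 1) d t ≤ Real.exp (s' * f d * J) * Real.exp (-(f d * t)) := by
  rw [← Real.exp_add]
  apply Real.exp_le_exp.mpr
  have := mul_le_mul_of_nonneg_left (hJ t ht) (mul_nonneg hs (hf d).le)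
  linarith

lemma GG_succ_int (hs : 0 ≤ s') (hf : ∀ d, 0 < f d) (m d : ℕ) {J : ℝ}
    (hJ : ∀ t, 0 ≤ t → ∫ u in (0:ℝ)..t, GG s' f m (d + 1) u ≤ J) {t : ℝ} (ht : 0 ≤ t) :
    ∫ u in (0:ℝ)..t, GG s' f (m + 1) d u ≤ Real.exp (s' * f d * J) * (1 / f d) := by
  have h1 : ∫ u in (0:ℝ)..t, GG s' f (m + 1) d u
      ≤ ∫ u in (0:ℝ)..t, Real.exp (s' * f d * J) * Real.exp (-(f d * u)) := by
    apply intervalIntegral.integral_mono_on ht ((GG_cont _ _).intervalIntegrable _ _)
    · exact (by fun_prop : Continuous fun u : ℝ =>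
        Real.exp (s' * f d * J) * Real.exp (-(f d * u))).intervalIntegrable _ _
    · intro u hu
      exact GG_succ_le hs hf m d hJ hu.1
  refine h1.trans ?_
  rw [intervalIntegral.integral_const_mul]
  exact mul_le_mul_of_nonneg_left (exp_int (hf d)) (Real.exp_pos _).le

lemma GG_int_bdd (hs : 0 ≤ s') (hf : ∀ d, 0 < f d) (m d : ℕ) :
    ∃ J, ∀ t, 0 ≤ t → ∫ u in (0:ℝ)..t, GG s' f m d u ≤ J := by
  induction m generalizing d with
  | zero =>
    refine ⟨0, fun t _ => ?_⟩
    have : GG s' f 0 d = fun _ => 0 := rfl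
    rw [this]; simp
  | succ m ih =>
    obtain ⟨J, hJ⟩ := ih (d + 1)
    exact ⟨_, fun t ht => GG_succ_int hs hf m d hJ ht⟩

lemma GG_decay (hs : 0 ≤ s') (hf : ∀ d, 0 < f d) (m d : ℕ) :
    ∃ C, 0 ≤ C ∧ ∀ t, 0 ≤ t → GG s' f m d t ≤ C * Real.exp (-(f d * t)) := by
  cases m with
  | zero => exact ⟨0, le_rfl, fun t _ => by simp [GG]⟩
  | succ m =>
    obtain ⟨J, hJ⟩ := GG_int_bdd hs hf m (d + 1)
    exact ⟨_, (Real.exp_pos _).le, fun t ht => GG_succ_le hs hf m d hJ ht⟩

lemma Gam_succ_le (hs : 0 ≤ s') (hf : ∀ d, 0 < f d) (m d : ℕ) {J C : ℝ} (hC : 0 ≤ C)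
    (hJ : ∀ t, 0 ≤ t → ∫ u in (0:ℝ)..t, GG s' f (m + 1) d u ≤ J)
    (hG : ∀ t, 0 ≤ t → Gam s' f m (d + 1) t ≤ C) {t : ℝ} (ht : 0 ≤ t) :
    Gam s' f (m + 1) d t ≤ s' * f d * J * C := by
  show ∫ u in (0:ℝ)..t, s' * f d * GG s' f (m + 1) d u * Gam s' f m (d + 1) u ≤ _
  have h1 : ∫ u in (0:ℝ)..t, s' * f d * GG s' f (m + 1) d u * Gam s' f m (d + 1) u
      ≤ ∫ u in (0:ℝ)..t, (s' * f d * C) * GG s' f (m + 1) d u := by
    apply intervalIntegral.integral_mono_on ht
    · exact ((continuous_const.mul (GG_cont (m+1) d)).mul (Gam_cont m (d+1))).intervalIntegrable _ _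
    · exact (continuous_const.mul (GG_cont (m+1) d)).intervalIntegrable _ _
    · intro u hu
      have h2 : 0 ≤ s' * f d * GG s' f (m + 1) d u :=
        mul_nonneg (mul_nonneg hs (hf d).le) (GG_nonneg _ _ _)
      have := mul_le_mul_of_nonneg_left (hG u hu.1) h2
      linarith
  refine h1.trans ?_
  rw [intervalIntegral.integral_const_mul]
  have h3 := mul_le_mul_of_nonneg_left (hJ t ht)
    (mul_nonneg (mul_nonneg hs (hf d).le) hC : 0 ≤ s' * f d * C)
  linarith

lemma Gam_bdd (hs : 0 ≤ s') (hf : ∀ d, 0 < f d) (m d : ℕ) :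
    ∃ C, 0 ≤ C ∧ ∀ t, 0 ≤ t → Gam s' f m d t ≤ C := by
  induction m generalizing d with
  | zero => exact ⟨1, zero_le_one, fun t _ => le_rfl⟩
  | succ m ih =>
    obtain ⟨C, hC, hG⟩ := ih (d + 1)
    obtain ⟨J, hJ⟩ := GG_int_bdd hs hf (m + 1) d
    have hJ0 : 0 ≤ J := by have := hJ 0 le_rfl; simpa using this
    exact ⟨s' * f d * J * C, mul_nonneg (mul_nonneg (mul_nonneg hs (hf d).le) hJ0) hC,
      fun t ht => Gam_succ_le hs hf m d hC hJ hG ht⟩

lemma gam_decay (hs : 0 ≤ s') (hf : ∀ d, 0 < f d) (m d : ℕ) :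
    ∃ C, 0 ≤ C ∧ ∀ t, 0 ≤ t → gam s' f m d t ≤ C * Real.exp (-(f d * t)) := by
  cases m with
  | zero => exact ⟨0, le_rfl, fun t _ => by simp [gam]⟩
  | succ m =>
    obtain ⟨C, hC, hG⟩ := GG_decay hs hf (m + 1) d
    obtain ⟨C', hC', hG'⟩ := Gam_bdd hs hf m (d + 1)
    refine ⟨s' * f d * C * C', mul_nonneg (mul_nonneg (mul_nonneg hs (hf d).le) hC) hC',
      fun t ht => ?_⟩
    show s' * f d * GG s' f (m + 1) d t * Gam s' f m (d + 1) t ≤ _
    have h1 : s' * f d * GG s' f (m + 1) d t ≤ s' * f d * (C * Real.exp (-(f d * t))) :=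
      mul_le_mul_of_nonneg_left (hG t ht) (mul_nonneg hs (hf d).le)
    have h2 := mul_le_mul h1 (hG' t ht) (Gam_nonneg hs hf m (d+1) ht)
      (mul_nonneg (mul_nonneg hs (hf d).le) (mul_nonneg hC (Real.exp_pos _).le))
    linarith

/-- Comparison with the supersolution: first function. -/
lemma GG_le_super {c δ lam : ℝ} {σ γ : ℝ → ℝ} {C I : ℝ} (hs : 0 ≤ s') (hf : ∀ d, 0 < f d)
    (hS : SuperPair c δ s' lam σ γ C I) {d₀ : ℕ}
    (hd₀ : ∀ d, d₀ ≤ d → |f (d + 1) / f d - c| ≤ δ) (m : ℕ) :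
    ∀ d, d₀ ≤ d → ∀ t, 0 ≤ t → GG s' f m d t ≤ σ (f d * t) := by
  induction m with
  | zero => intro d _ t _; exact hS.σ0 _
  | succ m ih =>
    intro d hd t ht
    have hfd := hf d
    have hfd1 := hf (d + 1)
    have hx : 0 ≤ f d * t := mul_nonneg hfd.le ht
    refine le_trans ?_ (hS.A (f (d + 1) / f d) (hd₀ d hd) (f d * t) hx)
    apply Real.exp_le_exp.mpr
    have h1 : ∫ u in (0:ℝ)..t, GG s' f m (d + 1) u ≤ ∫ u in (0:ℝ)..t, σ (f (d + 1) * u) := by
      apply intervalIntegral.integral_mono_on ht ((GG_cont _ _).intervalIntegrable _ _)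
        ((hS.bmσ.comp_mul _).ii _ _)
      intro u hu
      exact ih (d + 1) (by omega) u hu.1
    have h2 : ∫ u in (0:ℝ)..t, σ (f (d + 1) * u)
        = (f (d + 1))⁻¹ * ∫ y in (0:ℝ)..(f (d + 1) / f d * (f d * t)), σ y := by
      rw [intervalIntegral.integral_comp_mul_left σ hfd1.ne']
      have : f (d + 1) / f d * (f d * t) = f (d + 1) * t := by field_simp
      rw [this]; simp
    rw [h2] at h1
    have h3 := mul_le_mul_of_nonneg_left h1 (mul_nonneg hs hfd.le)
    have h4 : s' * f d * ((f (d + 1))⁻¹ * ∫ y in (0:ℝ)..(f (d + 1) / f d * (f d * t)), σ y)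
        = s' / (f (d + 1) / f d) * ∫ y in (0:ℝ)..(f (d + 1) / f d * (f d * t)), σ y := by
      field_simp
    rw [h4] at h3
    linarith

/-- Comparison with the supersolution: second function. -/
lemma gam_le_super {c δ lam : ℝ} {σ γ : ℝ → ℝ} {C I : ℝ} (hs : 0 ≤ s') (hf : ∀ d, 0 < f d)
    (hS : SuperPair c δ s' lam σ γ C I) {d₀ : ℕ}
    (hd₀ : ∀ d, d₀ ≤ d → |f (d + 1) / f d - c| ≤ δ) (m : ℕ) :
    ∀ d, d₀ ≤ d → ∀ t, 0 ≤ t →
      gam s' f (m + 1) d t ≤ f d * (s' * C * Real.exp (lam * m)) * γ (f d * t) := by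
  induction m with
  | zero =>
    intro d _ t ht
    have hx : 0 ≤ f d * t := mul_nonneg (hf d).le ht
    have h1 : gam s' f 1 d t = s' * f d * Real.exp (-(f d * t)) := by
      show s' * f d * Real.exp (-(f d * t) + s' * f d * ∫ u in (0:ℝ)..t, (0:ℝ)) * 1 = _
      simp
    rw [h1]
    have h2 := mul_le_mul_of_nonneg_left (hS.Cq (f d * t) hx) (mul_nonneg hs (hf d).le)
    simp only [Nat.cast_zero, mul_zero, Real.exp_zero, mul_one]
    linarith
  | succ m ih =>
    intro d hd t ht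
    have hfd := hf d
    have hfd1 := hf (d + 1)
    have hx : 0 ≤ f d * t := mul_nonneg hfd.le ht
    have hG := GG_le_super hs hf hS hd₀ (m + 1 + 1) d hd t ht
    set E := s' * C * Real.exp (lam * m) with hE
    have hE0 : 0 ≤ E := mul_nonneg (mul_nonneg hs hS.C0) (Real.exp_pos _).le
    have h1 : Gam s' f (m + 1) (d + 1) t
        ≤ E * ∫ y in (0:ℝ)..(f (d + 1) / f d * (f d * t)), γ y := by
      have h2 : ∫ u in (0:ℝ)..t, gam s' f (m + 1) (d + 1) u
          ≤ ∫ u in (0:ℝ)..t, f (d + 1) * E * γ (f (d + 1) * u) := by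
        apply intervalIntegral.integral_mono_on ht ((gam_cont _ _).intervalIntegrable _ _)
          (((BM.const _).mul (hS.bmγ.comp_mul _)).ii _ _)
        intro u hu
        exact ih (d + 1) (by omega) u hu.1
      refine le_trans h2 (le_of_eq ?_)
      rw [intervalIntegral.integral_const_mul,
        intervalIntegral.integral_comp_mul_left γ hfd1.ne']
      have : f (d + 1) / f d * (f d * t) = f (d + 1) * t := by field_simp
      rw [this]
      simp only [mul_zero, smul_eq_mul]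
      field_simp
    have h3 := hS.Bq (f (d + 1) / f d) (hd₀ d hd) (f d * t) hx
    show s' * f d * GG s' f (m + 1 + 1) d t * Gam s' f (m + 1) (d + 1) t ≤ _
    have hInt0 : 0 ≤ ∫ y in (0:ℝ)..(f (d + 1) / f d * (f d * t)), γ y :=
      intervalIntegral.integral_nonneg (by positivity) (fun y _ => hS.γ0 y)
    calc s' * f d * GG s' f (m + 1 + 1) d t * Gam s' f (m + 1) (d + 1) t
        ≤ s' * f d * σ (f d * t) * (E * ∫ y in (0:ℝ)..(f (d + 1) / f d * (f d * t)), γ y) := by
          apply mul_le_mul _ h1 (Gam_nonneg hs hf _ _ ht)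
          · exact mul_nonneg (mul_nonneg hs hfd.le) (hS.σ0 _)
          · exact mul_le_mul_of_nonneg_left hG (mul_nonneg hs hfd.le)
      _ = f d * E * (s' * σ (f d * t) * ∫ y in (0:ℝ)..(f (d + 1) / f d * (f d * t)), γ y) := by ring
      _ ≤ f d * E * (Real.exp lam * γ (f d * t)) :=
          mul_le_mul_of_nonneg_left h3 (mul_nonneg hfd.le hE0)
      _ = f d * (s' * C * Real.exp (lam * ((m + 1 : ℕ) : ℝ))) * γ (f d * t) := by
          rw [hE]; push_cast
          rw [show lam * ((m : ℝ) + 1) = lam * m + lam by ring, Real.exp_add]; ring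

/-- Growth bound for the hitting generating function from the root. -/
theorem Gam_growth {c δ lam : ℝ} {σ γ : ℝ → ℝ} {C I : ℝ} (hs : 0 ≤ s') (hf : ∀ d, 0 < f d)
    (hS : SuperPair c δ s' lam σ γ C I) {d₀ : ℕ}
    (hd₀ : ∀ d, d₀ ≤ d → |f (d + 1) / f d - c| ≤ δ) :
    ∃ D, 0 ≤ D ∧ ∀ m, ∀ t, 0 ≤ t → Gam s' f (m + 1 + d₀) 0 t ≤ D * Real.exp (lam * m) := by
  have hI : 0 ≤ I := by have := hS.intσ 0 le_rfl; simpa using this
  have key : ∀ k d, d + k = d₀ → ∃ J D, 0 ≤ J ∧ 0 ≤ D ∧ ∀ m, ∀ t, 0 ≤ t →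
      (∫ u in (0:ℝ)..t, GG s' f (m + 1 + k) d u ≤ J) ∧
      Gam s' f (m + 1 + k) d t ≤ D * Real.exp (lam * m) := by
    intro k
    induction k with
    | zero =>
      intro d hd
      have hdd : d₀ ≤ d := by omega
      refine ⟨(f d)⁻¹ * I, s' * C * I, mul_nonneg (inv_nonneg.mpr (hf d).le) hI,
        mul_nonneg (mul_nonneg hs hS.C0) hI, fun m t ht => ⟨?_, ?_⟩⟩
      · have h1 : ∫ u in (0:ℝ)..t, GG s' f (m + 1 + 0) d u ≤ ∫ u in (0:ℝ)..t, σ (f d * u) := by
          apply intervalIntegral.integral_mono_on ht ((GG_cont _ _).intervalIntegrable _ _)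
            ((hS.bmσ.comp_mul _).ii _ _)
          intro u hu
          exact GG_le_super hs hf hS hd₀ _ d hdd u hu.1
        refine h1.trans ?_
        rw [intervalIntegral.integral_comp_mul_left σ (hf d).ne']
        simp only [mul_zero, smul_eq_mul]
        exact mul_le_mul_of_nonneg_left (hS.intσ _ (mul_nonneg (hf d).le ht))
          (inv_nonneg.mpr (hf d).le)
      · have h1 : Gam s' f (m + 1 + 0) d t
            ≤ ∫ u in (0:ℝ)..t, f d * (s' * C * Real.exp (lam * m)) * γ (f d * u) := by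
          apply intervalIntegral.integral_mono_on ht ((gam_cont (m + 1) d).intervalIntegrable _ _)
            (((BM.const _).mul (hS.bmγ.comp_mul _)).ii _ _)
          intro u hu
          exact gam_le_super hs hf hS hd₀ m d hdd u hu.1
        refine h1.trans ?_
        rw [intervalIntegral.integral_const_mul,
          intervalIntegral.integral_comp_mul_left γ (hf d).ne']
        simp only [mul_zero, smul_eq_mul]
        have h2 := hS.intγ (f d * t) (mul_nonneg (hf d).le ht)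
        have h3 : f d * (s' * C * Real.exp (lam * m)) * ((f d)⁻¹ * ∫ y in (0:ℝ)..(f d * t), γ y)
            = s' * C * Real.exp (lam * m) * ∫ y in (0:ℝ)..(f d * t), γ y := by
          have := (hf d).ne'
          field_simp
        rw [h3]
        have h4 : 0 ≤ s' * C * Real.exp (lam * m) :=
          mul_nonneg (mul_nonneg hs hS.C0) (Real.exp_pos _).le
        have h5 := mul_le_mul_of_nonneg_left h2 h4
        linarith
    | succ k ih =>
      intro d hd
      obtain ⟨J, D, hJ, hD, hb⟩ := ih (d + 1) (by omega)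
      have hJ' : 0 ≤ Real.exp (s' * f d * J) * (1 / f d) :=
        mul_nonneg (Real.exp_pos _).le (by have := hf d; positivity)
      refine ⟨Real.exp (s' * f d * J) * (1 / f d),
        s' * f d * (Real.exp (s' * f d * J) * (1 / f d)) * D, hJ',
        mul_nonneg (mul_nonneg (mul_nonneg hs (hf d).le) hJ') hD, fun m t ht => ?_⟩
      have h1 : ∀ t, 0 ≤ t → ∫ u in (0:ℝ)..t, GG s' f (m + 1 + k + 1) d u
          ≤ Real.exp (s' * f d * J) * (1 / f d) := fun t ht =>
        GG_succ_int hs hf (m + 1 + k) d (fun t ht => (hb m t ht).1) ht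
      refine ⟨h1 t ht, ?_⟩
      have h2 := Gam_succ_le hs hf (m + 1 + k) d (C := D * Real.exp (lam * m))
        (mul_nonneg hD (Real.exp_pos _).le) h1 (fun t ht => (hb m t ht).2) ht
      calc _ ≤ _ := h2
        _ = _ := by ring
  obtain ⟨J, D, _, hD, hb⟩ := key d₀ 0 (by omega)
  exact ⟨D, hD, fun m t ht => (hb m t ht).2⟩

end DWTree
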