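import Pool.Agent.Lib.MP_6f9530_pr.Basic

open MeasureTheory Set Filter Topology

namespace DWTree

/-- Integral of the scaled survival function. -/
noncomputable def JJ (c : ℝ) (s : ℝ → ℝ) (x : ℝ) : ℝ := ∫ y in (0:ℝ)..x, s (c * y)

/-- Iterated operator applied to one. -/
noncomputable def uS (c : ℝ) (s : ℝ → ℝ) : ℕ → ℝ → ℝ
  | 0, _ => 1
  | n + 1, x => ∫ y in (0:ℝ)..(max x 0), s (c * y) * uS c s n (c * y)

namespace Surv

variable {c : ℝ} {s : ℝ → ℝ}

lemma ii_c (h : Surv c s) (a b : ℝ) : IntervalIntegrable (fun y => s (c * y)) volume a b :=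
  h.cont_c.intervalIntegrable a b

lemma JJ_nonneg (h : Surv c s) {x : ℝ} (hx : 0 ≤ x) : 0 ≤ JJ c s x :=
  intervalIntegral.integral_nonneg hx (fun y _ => (h.pos _).le)

lemma JJ_le (h : Surv c s) {x : ℝ} (hx : 0 ≤ x) : JJ c s x ≤ x := by
  have := intervalIntegral.integral_mono_on (a := 0) (b := x) (f := fun y => s (c * y))
    (g := fun _ => (1:ℝ)) hx (h.ii_c 0 x) (by simp) (fun y _ => h.le1 _)
  simpa [JJ] using this

lemma JJ_mono (h : Surv c s) {x y : ℝ} (hxy : x ≤ y) : JJ c s x ≤ JJ c s y := by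
  have h1 : JJ c s y = JJ c s x + ∫ z in x..y, s (c * z) :=
    (intervalIntegral.integral_add_adjacent_intervals (h.ii_c 0 x) (h.ii_c x y)).symm
  have h2 : 0 ≤ ∫ z in x..y, s (c * z) :=
    intervalIntegral.integral_nonneg hxy (fun _ _ => (h.pos _).le)
  linarith

/-- Exponential integral bound. -/
lemma exp_half_integral (x : ℝ) : ∫ y in (0:ℝ)..x, Real.exp (-y / 2) = 2 - 2 * Real.exp (-x / 2) := by
  have h1 : ∀ y ∈ uIcc (0:ℝ) x, HasDerivAt (fun y => -2 * Real.exp (-y / 2)) (Real.exp (-y / 2)) y := by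
    intro y _
    have h2 : HasDerivAt (fun y : ℝ => -y / 2) (-1 / 2) y := (hasDerivAt_neg y).div_const 2
    have h3 : HasDerivAt (fun y : ℝ => -2 * Real.exp (-y / 2))
        (-2 * (Real.exp (-y / 2) * (-1 / 2))) y := (h2.exp).const_mul (-2)
    have h4 : -2 * (Real.exp (-y / 2) * (-1 / 2)) = Real.exp (-y / 2) := by ring
    rw [h4] at h3
    exact h3
  rw [intervalIntegral.integral_eq_sub_of_hasDerivAt h1
    ((by fun_prop : Continuous fun y : ℝ => Real.exp (-y / 2)).intervalIntegrable _ _)]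
  simp; ring

lemma int_s_le (h : Surv c s) {B : ℝ} (hB : 1 ≤ B)
    (hdec : ∀ x, 0 ≤ x → s x ≤ B * Real.exp (-x / 2)) {x : ℝ} (hx : 0 ≤ x) :
    ∫ y in (0:ℝ)..x, s y ≤ 2 * B := by
  have h1 : ∫ y in (0:ℝ)..x, s y ≤ ∫ y in (0:ℝ)..x, B * Real.exp (-y / 2) := by
    apply intervalIntegral.integral_mono_on hx (h.cont.intervalIntegrable _ _)
    · exact (by fun_prop : Continuous fun y : ℝ => B * Real.exp (-y / 2)).intervalIntegrable _ _
    · intro y hy; exact hdec y hy.1
  refine h1.trans ?_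
  rw [intervalIntegral.integral_const_mul, exp_half_integral]
  have := Real.exp_pos (-x / 2)
  nlinarith

lemma JJ_eq (h : Surv c s) (x : ℝ) : JJ c s x = c⁻¹ * ∫ y in (0:ℝ)..(c * x), s y := by
  unfold JJ
  rw [intervalIntegral.integral_comp_mul_left s (by linarith [h.hc] : c ≠ 0)]
  simp

lemma JJ_le_B (h : Surv c s) {B : ℝ} (hB : 1 ≤ B)
    (hdec : ∀ x, 0 ≤ x → s x ≤ B * Real.exp (-x / 2)) {x : ℝ} (hx : 0 ≤ x) :
    JJ c s x ≤ 2 * B := by
  have hc := h.hc
  rw [h.JJ_eq]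
  have h1 := h.int_s_le hB hdec (x := c * x) (by positivity)
  have h2 : 0 ≤ ∫ y in (0:ℝ)..(c * x), s y :=
    intervalIntegral.integral_nonneg (by positivity) (fun y _ => (h.pos _).le)
  have h3 : c⁻¹ ≤ 1 := inv_le_one_of_one_le₀ hc.le
  have h4 : 0 ≤ c⁻¹ := by positivity
  nlinarith

lemma JJ_lower (h : Surv c s) {x : ℝ} (hx : 0 ≤ x) : Real.exp (-c) * min x 1 ≤ JJ c s x := by
  have hc := h.hc
  have key : ∀ z : ℝ, 0 ≤ z → z ≤ 1 → Real.exp (-c) * z ≤ JJ c s z := by
    intro z hz hz1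
    have h1 : ∫ y in (0:ℝ)..z, Real.exp (-c) ≤ ∫ y in (0:ℝ)..z, s (c * y) := by
      apply intervalIntegral.integral_mono_on hz (by simp) (h.ii_c _ _)
      intro y hy
      have h2 := h.exp_le (x := c * y) (mul_nonneg (by linarith) hy.1)
      refine le_trans (Real.exp_le_exp.mpr ?_) h2
      have : y ≤ 1 := hy.2.trans hz1
      nlinarith
    have h3 : ∫ y in (0:ℝ)..z, Real.exp (-c) = Real.exp (-c) * z := by
      simp; ring
    rw [h3] at h1
    exact h1
  rcases le_total x 1 with hx1 | hx1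
  · rw [min_eq_left hx1]; exact key x hx hx1
  · rw [min_eq_right hx1]
    exact (key 1 zero_le_one le_rfl).trans (h.JJ_mono hx1)

lemma uS_cont (h : Surv c s) (n : ℕ) : Continuous (uS c s n) := by
  induction n with
  | zero => exact continuous_const
  | succ n ih =>
    have h1 : Continuous fun y : ℝ => s (c * y) * uS c s n (c * y) :=
      h.cont_c.mul (ih.comp (by fun_prop : Continuous fun y : ℝ => c * y))
    have h2 : Continuous fun z : ℝ => ∫ y in (0:ℝ)..z, s (c * y) * uS c s n (c * y) :=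
      intervalIntegral.continuous_primitive (fun a b => h1.intervalIntegrable a b) 0
    have h3 : Continuous fun x : ℝ => max x 0 := by fun_prop
    exact h2.comp h3

lemma uS_nonneg (h : Surv c s) (n : ℕ) : ∀ x, 0 ≤ uS c s n x := by
  induction n with
  | zero => intro x; exact zero_le_one
  | succ n ih =>
    intro x
    exact intervalIntegral.integral_nonneg (le_max_right _ _)
      (fun y _ => mul_nonneg (h.pos _).le (ih _))

lemma uS_ii (h : Surv c s) (n : ℕ) (a b : ℝ) :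
    IntervalIntegrable (fun y => s (c * y) * uS c s n (c * y)) volume a b :=
  (h.cont_c.mul ((h.uS_cont n).comp (by fun_prop : Continuous fun y : ℝ => c * y))).intervalIntegrable a b

lemma uS_mono (h : Surv c s) (n : ℕ) : Monotone (uS c s n) := by
  cases n with
  | zero => intro x y _; exact le_rfl
  | succ n =>
    intro x y hxy
    have hm : max x 0 ≤ max y 0 := max_le_max hxy le_rfl
    have h1 : uS c s (n+1) y = uS c s (n+1) x + ∫ z in (max x 0)..(max y 0), s (c * z) * uS c s n (c * z) :=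
      (intervalIntegral.integral_add_adjacent_intervals (h.uS_ii n _ _) (h.uS_ii n _ _)).symm
    have h2 : 0 ≤ ∫ z in (max x 0)..(max y 0), s (c * z) * uS c s n (c * z) :=
      intervalIntegral.integral_nonneg hm (fun y _ => mul_nonneg (h.pos _).le (h.uS_nonneg n _))
    linarith

lemma int_cF (h : Surv c s) (x : ℝ) :
    ∫ y in (0:ℝ)..x, s (c * y) * cF s (c * (c * y)) = c⁻¹ * cF s (c * x) := by
  have h1 := intervalIntegral.integral_comp_mul_left (a := 0) (b := x) (gg c s)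
    (by linarith [h.hc] : c ≠ 0)
  have h2 : ∫ y in (0:ℝ)..x, s (c * y) * cF s (c * (c * y)) = ∫ y in (0:ℝ)..x, gg c s (c * y) := rfl
  rw [h2, h1, mul_zero, h.integral_gg0]
  simp

/-- Geometric bound for the iterates. -/
lemma uS_bound (h : Surv c s) : ∃ θ C : ℝ, 0 < θ ∧ θ < 1 ∧ 1 ≤ C ∧ ∀ n x, uS c s n x ≤ C * θ ^ n := by
  have hc := h.hc
  obtain ⟨B, hB, hdec⟩ := h.dec
  set θ : ℝ := (1 + c⁻¹) / 2 with hθ
  have hci : c⁻¹ < 1 := inv_lt_one_of_one_lt₀ hc
  have hci0 : 0 < c⁻¹ := by positivity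
  have hθ1 : θ < 1 := by rw [hθ]; linarith
  have hθc : c⁻¹ < θ := by rw [hθ]; linarith
  have hθh : 1 / 2 ≤ θ := by rw [hθ]; linarith
  set F0 := cF s (c * (1/2)) with hF0
  have hF0pos : 0 < F0 := h.cF_pos (by positivity)
  set ε : ℝ := (θ - c⁻¹) * F0 / (2 * B) with hε
  have hεpos : 0 < ε := by
    rw [hε]; apply div_pos (mul_pos (by linarith) hF0pos); linarith
  have hεB : ε * (2 * B) = (θ - c⁻¹) * F0 := by
    rw [hε]; field_simp
  have key : ∀ x : ℝ, 0 ≤ x →
      ∫ y in (0:ℝ)..x, s (c * y) * (cF s (c * (c * y)) + ε) ≤ θ * (cF s (c * x) + ε) := by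
    intro x hx
    have e1 : ∫ y in (0:ℝ)..x, s (c * y) * (cF s (c * (c * y)) + ε)
        = c⁻¹ * cF s (c * x) + ε * JJ c s x := by
      have e2 : ∀ y : ℝ, s (c * y) * (cF s (c * (c * y)) + ε)
          = s (c * y) * cF s (c * (c * y)) + ε * s (c * y) := by intro y; ring
      simp_rw [e2]
      rw [intervalIntegral.integral_add]
      · rw [h.int_cF, intervalIntegral.integral_const_mul]; rfl
      · apply Continuous.intervalIntegrable
        exact h.cont_c.mul (h.cF_cont.comp (by fun_prop : Continuous fun y : ℝ => c * (c * y)))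
      · exact (h.cont_c.const_mul ε).intervalIntegrable _ _ |> fun t => by simpa using t
    rw [e1]
    rcases le_total x (1/2) with hx2 | hx2
    · have h1 := h.JJ_le hx
      have h2 := h.cF_nonneg (c * x)
      nlinarith
    · have h1 := h.JJ_le_B hB hdec hx
      have h2 : F0 ≤ cF s (c * x) := h.cF_mono (mul_le_mul_of_nonneg_left hx2 (by linarith))
      have h3 : ε * JJ c s x ≤ (θ - c⁻¹) * F0 := by
        rw [← hεB]; exact mul_le_mul_of_nonneg_left h1 hεpos.le
      nlinarith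
  refine ⟨θ, (1 + ε) / ε, by linarith, hθ1, ?_, ?_⟩
  · rw [le_div_iff₀ hεpos]; linarith
  · have key2 : ∀ n x, 0 ≤ x → uS c s n x ≤ θ ^ n * ((cF s (c * x) + ε) / ε) := by
      intro n
      induction n with
      | zero =>
        intro x hx
        show (1:ℝ) ≤ _
        rw [pow_zero, one_mul, le_div_iff₀ hεpos]
        linarith [h.cF_nonneg (c * x)]
      | succ n ih =>
        intro x hx
        show ∫ y in (0:ℝ)..(max x 0), s (c * y) * uS c s n (c * y) ≤ _
        rw [max_eq_left hx]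
        have h1 : ∫ y in (0:ℝ)..x, s (c * y) * uS c s n (c * y)
            ≤ ∫ y in (0:ℝ)..x, (θ ^ n / ε) * (s (c * y) * (cF s (c * (c * y)) + ε)) := by
          apply intervalIntegral.integral_mono_on hx (h.uS_ii n _ _)
          · apply Continuous.intervalIntegrable
            have : Continuous fun y : ℝ => cF s (c * (c * y)) :=
              h.cF_cont.comp (by fun_prop : Continuous fun y : ℝ => c * (c * y))
            exact continuous_const.mul (h.cont_c.mul (this.add continuous_const))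
          · intro y hy
            have h2 := ih (c * y) (mul_nonneg (by linarith) hy.1)
            have h3 := mul_le_mul_of_nonneg_left h2 (h.pos (c * y)).le
            refine h3.trans (le_of_eq ?_)
            field_simp
        refine h1.trans ?_
        rw [intervalIntegral.integral_const_mul]
        have h4 := mul_le_mul_of_nonneg_left (key x hx) (by positivity : 0 ≤ θ ^ n / ε)
        refine h4.trans (le_of_eq ?_)
        rw [pow_succ]
        ring
    have key3 : ∀ n x, 0 ≤ x → uS c s n x ≤ (1 + ε) / ε * θ ^ n := by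
      intro n x hx
      refine (key2 n x hx).trans ?_
      rw [mul_comm]
      apply mul_le_mul_of_nonneg_right _ (by positivity)
      apply div_le_div_of_nonneg_right _ hεpos.le
      linarith [h.cF_le_one (c * x)]
    intro n x
    rcases le_total 0 x with hx | hx
    · exact key3 n x hx
    · exact (h.uS_mono n hx).trans (key3 n 0 le_rfl)

end Surv

end DWTree

namespace DWTree

/-- The perturbed mean progeny. -/
noncomputable def rhoK (c : ℝ) (s : ℝ → ℝ) (κ x : ℝ) : ℝ :=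
  ∑' n : ℕ, (1 + κ) ^ (n + 1) * uS c s (n + 1) x

theorem exists_rho {c : ℝ} {s : ℝ → ℝ} (h : Surv c s) :
    ∃ (ρ : ℝ → ℝ → ℝ) (R κ₀ c₁ : ℝ), 0 < κ₀ ∧ κ₀ ≤ 1 / 2 ∧ 0 < c₁ ∧ 0 ≤ R ∧
      (∀ κ, |κ| ≤ κ₀ → BM (ρ κ) ∧ (∀ x, 0 ≤ ρ κ x ∧ ρ κ x ≤ R) ∧
        (∀ x, 0 ≤ x → ρ κ x = (1 + κ) * ∫ y in (0:ℝ)..x, s (c * y) * (1 + ρ κ (c * y))) ∧
        (∀ x, 0 ≤ x → c₁ * min x 1 ≤ ρ κ x)) ∧
      Monotone (ρ 0) ∧
      (∀ ε > 0, ∃ κ₁ > 0, ∀ κ, |κ| ≤ κ₁ → ∀ x, |ρ κ x - ρ 0 x| ≤ ε) := by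
  obtain ⟨θ, C, hθ0, hθ1, hC, hb⟩ := h.uS_bound
  have hc := h.hc
  set κ₀ : ℝ := (1 - θ) / 2 with hκ₀
  have hκpos : 0 < κ₀ := by rw [hκ₀]; linarith
  have hκhalf : κ₀ ≤ 1 / 2 := by rw [hκ₀]; linarith
  set θ' : ℝ := (1 + θ) / 2 with hθ'
  have hθ'1 : θ' < 1 := by rw [hθ']; linarith
  have hθ'0 : 0 < θ' := by rw [hθ']; linarith
  have hfac : ∀ κ : ℝ, |κ| ≤ κ₀ → 0 ≤ 1 + κ ∧ (1 + κ) * θ ≤ θ' := by
    intro κ hκ
    have h1 := abs_le.mp hκ
    refine ⟨by linarith, ?_⟩
    rw [hθ']; nlinarith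
  have hterm : ∀ κ : ℝ, |κ| ≤ κ₀ → ∀ n x, (1 + κ) ^ n * uS c s n x ≤ C * θ' ^ n := by
    intro κ hκ n x
    obtain ⟨h1, h2⟩ := hfac κ hκ
    calc (1 + κ) ^ n * uS c s n x ≤ (1 + κ) ^ n * (C * θ ^ n) :=
          mul_le_mul_of_nonneg_left (hb n x) (pow_nonneg h1 n)
      _ = C * ((1 + κ) * θ) ^ n := by rw [mul_pow]; ring
      _ ≤ C * θ' ^ n := by
          apply mul_le_mul_of_nonneg_left _ (by linarith)
          exact pow_le_pow_left₀ (mul_nonneg h1 hθ0.le) h2 n
  have hterm0 : ∀ κ : ℝ, |κ| ≤ κ₀ → ∀ n x, 0 ≤ (1 + κ) ^ n * uS c s n x := by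
    intro κ hκ n x
    exact mul_nonneg (pow_nonneg (hfac κ hκ).1 n) (h.uS_nonneg n x)
  have hgeo : Summable fun n : ℕ => C * θ' ^ n :=
    (summable_geometric_of_lt_one hθ'0.le hθ'1).mul_left C
  have hgeo1 : Summable fun n : ℕ => C * θ' ^ (n + 1) :=
    (summable_nat_add_iff (f := fun n : ℕ => C * θ' ^ n) 1).mpr hgeo
  have hsumm : ∀ κ : ℝ, |κ| ≤ κ₀ → ∀ x, Summable fun n : ℕ => (1 + κ) ^ n * uS c s n x :=
    fun κ hκ x => Summable.of_nonneg_of_le (hterm0 κ hκ · x) (hterm κ hκ · x) hgeo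
  have hsumm1 : ∀ κ : ℝ, |κ| ≤ κ₀ → ∀ x,
      Summable fun n : ℕ => (1 + κ) ^ (n + 1) * uS c s (n + 1) x :=
    fun κ hκ x => Summable.of_nonneg_of_le (fun n => hterm0 κ hκ (n + 1) x)
      (fun n => hterm κ hκ (n + 1) x) hgeo1
  have hsplit : ∀ κ : ℝ, |κ| ≤ κ₀ → ∀ x,
      ∑' n : ℕ, (1 + κ) ^ n * uS c s n x = 1 + rhoK c s κ x := by
    intro κ hκ x
    rw [(hsumm κ hκ x).tsum_eq_zero_add]
    simp [rhoK, uS]
  set R : ℝ := ∑' n : ℕ, C * θ' ^ (n + 1) with hR
  have hR0 : 0 ≤ R := tsum_nonneg (fun n => by positivity)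
  have hfix : ∀ κ : ℝ, |κ| ≤ κ₀ → ∀ x, 0 ≤ x →
      rhoK c s κ x = (1 + κ) * ∫ y in (0:ℝ)..x, s (c * y) * (1 + rhoK c s κ (c * y)) := by
    intro κ hκ x hx
    have h1 : HasSum (fun n : ℕ => ∫ y in (0:ℝ)..x, s (c * y) * ((1 + κ) ^ n * uS c s n (c * y)))
        (∫ y in (0:ℝ)..x, s (c * y) * (1 + rhoK c s κ (c * y))) := by
      apply intervalIntegral.hasSum_integral_of_dominated_convergence (fun n _ => C * θ' ^ n)
      · intro n
        exact (h.cont_c.mul (continuous_const.mul ((h.uS_cont n).comp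
          (by fun_prop : Continuous fun y : ℝ => c * y)))).aestronglyMeasurable
      · intro n
        refine Eventually.of_forall fun y _ => ?_
        rw [Real.norm_of_nonneg (mul_nonneg (h.pos _).le (hterm0 κ hκ n _))]
        calc s (c * y) * ((1 + κ) ^ n * uS c s n (c * y)) ≤ 1 * ((1 + κ) ^ n * uS c s n (c * y)) :=
              mul_le_mul_of_nonneg_right (h.le1 _) (hterm0 κ hκ n _)
          _ ≤ C * θ' ^ n := by rw [one_mul]; exact hterm κ hκ n _
      · exact Eventually.of_forall fun y _ => hgeo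
      · exact intervalIntegrable_const
      · refine Eventually.of_forall fun y _ => ?_
        rw [← hsplit κ hκ]
        exact ((hsumm κ hκ (c * y)).hasSum).mul_left _
    have h2 := h1.mul_left (1 + κ)
    rw [← h2.tsum_eq]
    unfold rhoK
    apply tsum_congr
    intro n
    have h3 : ∫ y in (0:ℝ)..x, s (c * y) * ((1 + κ) ^ n * uS c s n (c * y))
        = (1 + κ) ^ n * uS c s (n + 1) x := by
      show _ = (1 + κ) ^ n * ∫ y in (0:ℝ)..(max x 0), s (c * y) * uS c s n (c * y)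
      rw [max_eq_left hx, ← intervalIntegral.integral_const_mul]
      congr 1; funext y; ring
    rw [h3, pow_succ]; ring
  have hnn : ∀ κ : ℝ, |κ| ≤ κ₀ → ∀ x, 0 ≤ rhoK c s κ x := by
    intro κ hκ x
    exact tsum_nonneg (fun n => hterm0 κ hκ (n + 1) x)
  have hcontR : ∀ κ : ℝ, |κ| ≤ κ₀ → Continuous (rhoK c s κ) := by
    intro κ hκ
    show Continuous fun x => ∑' n : ℕ, (1 + κ) ^ (n + 1) * uS c s (n + 1) x
    apply continuous_tsum (u := fun n : ℕ => C * θ' ^ (n + 1))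
    · intro n; exact continuous_const.mul (h.uS_cont (n + 1))
    · exact hgeo1
    · intro n x
      rw [Real.norm_of_nonneg (hterm0 κ hκ (n + 1) x)]
      exact hterm κ hκ (n + 1) x
  have hleR : ∀ κ : ℝ, |κ| ≤ κ₀ → ∀ x, rhoK c s κ x ≤ R := by
    intro κ hκ x
    exact (hsumm1 κ hκ x).tsum_le_tsum (fun n => hterm κ hκ (n + 1) x) hgeo1
  refine ⟨rhoK c s, R, κ₀, Real.exp (-c) / 2, hκpos, hκhalf, by positivity, hR0, ?_, ?_, ?_⟩
  · intro κ hκ
    refine ⟨⟨(hcontR κ hκ).measurable, R, fun x => ?_⟩, fun x => ⟨hnn κ hκ x, hleR κ hκ x⟩,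
      hfix κ hκ, ?_⟩
    · rw [abs_of_nonneg (hnn κ hκ x)]; exact hleR κ hκ x
    · intro x hx
      rw [hfix κ hκ x hx]
      have h1 : JJ c s x ≤ ∫ y in (0:ℝ)..x, s (c * y) * (1 + rhoK c s κ (c * y)) := by
        apply intervalIntegral.integral_mono_on hx (h.ii_c _ _)
        · apply Continuous.intervalIntegrable
          exact h.cont_c.mul (continuous_const.add ((hcontR κ hκ).comp
            (by fun_prop : Continuous fun y : ℝ => c * y)))
        · intro y _
          have := mul_nonneg (h.pos (c * y)).le (hnn κ hκ (c * y))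
          nlinarith
      have h2 := h.JJ_lower hx
      have h3 := (abs_le.mp hκ).1
      have h4 := h.JJ_nonneg hx
      have h5 : (1:ℝ)/2 ≤ 1 + κ := by linarith
      calc Real.exp (-c) / 2 * min x 1 = 1 / 2 * (Real.exp (-c) * min x 1) := by ring
        _ ≤ 1 / 2 * JJ c s x := by linarith
        _ ≤ (1 + κ) * JJ c s x := mul_le_mul_of_nonneg_right h5 h4
        _ ≤ _ := mul_le_mul_of_nonneg_left h1 (by linarith)
  · intro x y hxy
    have h0 : |(0:ℝ)| ≤ κ₀ := by simpa using hκpos.le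
    apply (hsumm1 0 h0 x).tsum_le_tsum _ (hsumm1 0 h0 y)
    intro n
    simpa using h.uS_mono (n + 1) hxy
  · intro ε hε
    have h0 : |(0:ℝ)| ≤ κ₀ := by simpa using hκpos.le
    have ht : Tendsto (fun κ : ℝ => ∑' n : ℕ, |(1 + κ) ^ (n + 1) - 1| * (C * θ ^ (n + 1)))
        (𝓝 0) (𝓝 (∑' n : ℕ, (0:ℝ))) := by
      apply tendsto_tsum_of_dominated_convergence (bound := fun n : ℕ => 2 * (C * θ' ^ (n + 1)))
      · exact hgeo1.mul_left 2
      · intro n
        have h1 : Continuous fun κ : ℝ => |(1 + κ) ^ (n + 1) - 1| * (C * θ ^ (n + 1)) := by fun_prop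
        have h2 := h1.tendsto 0
        simpa using h2
      · have hnb : ∀ᶠ κ : ℝ in 𝓝 0, |κ| ≤ κ₀ := by
          have : Tendsto (fun κ : ℝ => |κ|) (𝓝 0) (𝓝 |0|) := (continuous_abs).tendsto 0
          rw [abs_zero] at this
          exact (this.eventually (gt_mem_nhds hκpos)).mono (fun κ hκ => le_of_lt hκ)
        filter_upwards [hnb] with κ hκ n
        obtain ⟨h1, h2⟩ := hfac κ hκ
        rw [Real.norm_of_nonneg (by positivity)]
        have h3 : (1 + κ) ^ (n + 1) * θ ^ (n + 1) ≤ θ' ^ (n + 1) := by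
          rw [← mul_pow]
          exact pow_le_pow_left₀ (mul_nonneg h1 hθ0.le) h2 _
        have h4 : θ ^ (n + 1) ≤ θ' ^ (n + 1) := by
          apply pow_le_pow_left₀ hθ0.le
          rw [hθ']; linarith
        have h5 : |(1 + κ) ^ (n + 1) - 1| ≤ (1 + κ) ^ (n + 1) + 1 := by
          rw [abs_le]; constructor
          · have := pow_nonneg h1 (n + 1); linarith
          · linarith
        have h6 : 0 ≤ θ ^ (n + 1) := by positivity
        calc |(1 + κ) ^ (n + 1) - 1| * (C * θ ^ (n + 1))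
            ≤ ((1 + κ) ^ (n + 1) + 1) * (C * θ ^ (n + 1)) :=
              mul_le_mul_of_nonneg_right h5 (by positivity)
          _ = C * ((1 + κ) ^ (n + 1) * θ ^ (n + 1) + θ ^ (n + 1)) := by ring
          _ ≤ C * (θ' ^ (n + 1) + θ' ^ (n + 1)) :=
              mul_le_mul_of_nonneg_left (add_le_add h3 h4) (by linarith)
          _ = 2 * (C * θ' ^ (n + 1)) := by ring
    rw [tsum_zero] at ht
    have hev : ∀ᶠ κ : ℝ in 𝓝 0,
        |κ| ≤ κ₀ ∧ ∑' n : ℕ, |(1 + κ) ^ (n + 1) - 1| * (C * θ ^ (n + 1)) < ε := by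
      have hnb : ∀ᶠ κ : ℝ in 𝓝 0, |κ| ≤ κ₀ := by
        have : Tendsto (fun κ : ℝ => |κ|) (𝓝 0) (𝓝 |0|) := (continuous_abs).tendsto 0
        rw [abs_zero] at this
        exact (this.eventually (gt_mem_nhds hκpos)).mono (fun κ hκ => le_of_lt hκ)
      exact hnb.and (ht.eventually (gt_mem_nhds hε))
    obtain ⟨δ, hδ, hδ'⟩ := Metric.eventually_nhds_iff.mp hev
    refine ⟨δ / 2, by positivity, fun κ hκ x => ?_⟩
    have hκ' := @hδ' κ (by rw [Real.dist_eq, sub_zero]; linarith)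
    obtain ⟨h1, h2⟩ := hκ'
    have hs1 := hsumm1 κ h1 x
    have hs0 := hsumm1 0 h0 x
    have e1 : rhoK c s κ x - rhoK c s 0 x
        = ∑' n : ℕ, ((1 + κ) ^ (n + 1) - 1) * uS c s (n + 1) x := by
      unfold rhoK
      rw [← hs1.tsum_sub hs0]
      apply tsum_congr
      intro n
      simp; ring
    have hdom : Summable fun n : ℕ => |(1 + κ) ^ (n + 1) - 1| * (C * θ ^ (n + 1)) := by
      apply Summable.of_nonneg_of_le (fun n => by positivity) _ (hgeo1.mul_left 2)
      intro n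
      obtain ⟨h1, h2⟩ := hfac κ h1
      have h3 : (1 + κ) ^ (n + 1) * θ ^ (n + 1) ≤ θ' ^ (n + 1) := by
        rw [← mul_pow]
        exact pow_le_pow_left₀ (mul_nonneg h1 hθ0.le) h2 _
      have h4 : θ ^ (n + 1) ≤ θ' ^ (n + 1) := by
        apply pow_le_pow_left₀ hθ0.le
        rw [hθ']; linarith
      have h5 : |(1 + κ) ^ (n + 1) - 1| ≤ (1 + κ) ^ (n + 1) + 1 := by
        rw [abs_le]; constructor
        · have := pow_nonneg h1 (n + 1); linarith
        · linarith
      have h6 : 0 ≤ θ ^ (n + 1) := by positivity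
      calc |(1 + κ) ^ (n + 1) - 1| * (C * θ ^ (n + 1))
          ≤ ((1 + κ) ^ (n + 1) + 1) * (C * θ ^ (n + 1)) :=
            mul_le_mul_of_nonneg_right h5 (by positivity)
        _ = C * ((1 + κ) ^ (n + 1) * θ ^ (n + 1) + θ ^ (n + 1)) := by ring
        _ ≤ C * (θ' ^ (n + 1) + θ' ^ (n + 1)) :=
            mul_le_mul_of_nonneg_left (add_le_add h3 h4) (by linarith)
        _ = 2 * (C * θ' ^ (n + 1)) := by ring
    rw [e1]
    have hle : ∀ n : ℕ, ‖((1 + κ) ^ (n + 1) - 1) * uS c s (n + 1) x‖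
        ≤ |(1 + κ) ^ (n + 1) - 1| * (C * θ ^ (n + 1)) := by
      intro n
      rw [norm_mul, Real.norm_eq_abs, Real.norm_of_nonneg (h.uS_nonneg _ _)]
      exact mul_le_mul_of_nonneg_left (hb _ _) (abs_nonneg _)
    have := tsum_of_norm_bounded hdom.hasSum hle
    rw [Real.norm_eq_abs] at this
    linarith

end DWTree
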