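import Pool.Agent.Lib.MP_6f9530_pr.Kern

open MeasureTheory Set Filter Topology

namespace DWTree

lemma exp_quad {y : ℝ} (hy : |y| ≤ 1) : Real.exp y ≤ 1 + y + y ^ 2 := by
  have := Real.abs_exp_sub_one_sub_id_le hy
  have := (abs_le.mp this).2
  linarith

lemma mul_exp_half_le_one {x : ℝ} (hx : 0 ≤ x) : x * Real.exp (-x / 2) ≤ 1 := by
  have h1 : x ≤ Real.exp (x / 2) := by
    have h2 := Real.add_one_le_exp (x / 4)
    have h3 : Real.exp (x / 2) = Real.exp (x / 4) * Real.exp (x / 4) := by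
      rw [← Real.exp_add]; congr 1; ring
    rw [h3]
    nlinarith [Real.exp_pos (x / 4), sq_nonneg (1 - x / 4)]
  have h4 : Real.exp (-x / 2) = (Real.exp (x / 2))⁻¹ := by
    rw [← Real.exp_neg]; congr 1; ring
  rw [h4]
  have h5 := Real.exp_pos (x / 2)
  rw [← div_eq_mul_inv, div_le_one h5]
  exact h1

/-- Perturbation of the upper limit. -/
lemma pert1 {φ : ℝ → ℝ} {A c c' δ x : ℝ} (hc : 1 < c) (hA : 0 ≤ A)
    (hφ : ∀ y, 0 ≤ y → |φ y| ≤ A * Real.exp (-y / 2)) (hδ : δ ≤ (c - 1) / 2)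
    (hcc : |c' - c| ≤ δ) (hx : 0 ≤ x) :
    |∫ y in (c * x)..(c' * x), φ y| ≤ A * δ * (x * Real.exp (-x / 2)) := by
  have hb := abs_le.mp hcc
  have h1 := intervalIntegral.norm_integral_le_of_norm_le_const (a := c * x) (b := c' * x)
    (f := φ) (C := A * Real.exp (-x / 2)) (by
      intro y hy
      have hxy : x ≤ y := by
        rcases le_total (c * x) (c' * x) with h | h
        · rw [uIoc_of_le h] at hy
          nlinarith [hy.1]
        · rw [uIoc_of_ge h] at hy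
          nlinarith [hy.1]
      rw [Real.norm_eq_abs]
      refine (hφ y (hx.trans hxy)).trans ?_
      apply mul_le_mul_of_nonneg_left _ hA
      apply Real.exp_le_exp.mpr; linarith)
  rw [Real.norm_eq_abs] at h1
  refine h1.trans ?_
  have h2 : |c' * x - c * x| ≤ δ * x := by
    rw [← sub_mul, abs_mul, abs_of_nonneg hx]
    exact mul_le_mul_of_nonneg_right hcc hx
  calc A * Real.exp (-x / 2) * |c' * x - c * x| ≤ A * Real.exp (-x / 2) * (δ * x) :=
        mul_le_mul_of_nonneg_left h2 (by positivity)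
    _ = _ := by ring

lemma mul_exp_le_min {x : ℝ} (hx : 0 ≤ x) : x * Real.exp (-x / 2) ≤ min x 1 := by
  apply le_min _ (mul_exp_half_le_one hx)
  have : Real.exp (-x / 2) ≤ 1 := Real.exp_le_one_iff.mpr (by linarith)
  nlinarith

/-- Perturbation of the averaged integral. -/
lemma pert2 {φ : ℝ → ℝ} {A c c' δ x : ℝ} (hc : 1 < c) (hA : 0 ≤ A) (hbm : BM φ)
    (hφ0 : ∀ y, 0 ≤ φ y)
    (hφ : ∀ y, 0 ≤ y → φ y ≤ A * Real.exp (-y / 2)) (hδ : δ ≤ (c - 1) / 2)
    (hcc : |c' - c| ≤ δ) (hx : 0 ≤ x) :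
    1 / c' * (∫ y in (0:ℝ)..(c' * x), φ y) ≤
      1 / c * (∫ y in (0:ℝ)..(c * x), φ y) + A * (2 * c + 1) * δ * min x 1 := by
  have hb := abs_le.mp hcc
  have hδ0 : 0 ≤ δ := (abs_nonneg _).trans hcc
  have hc'1 : 1 ≤ c' := by linarith
  have hc'2 : c' ≤ 2 * c := by linarith
  have hφa : ∀ y, 0 ≤ y → |φ y| ≤ A * Real.exp (-y / 2) := fun y hy => by
    rw [abs_of_nonneg (hφ0 y)]; exact hφ y hy
  have h1 := (pert1 hc hA hφa hδ hcc hx).trans
    (mul_le_mul_of_nonneg_left (mul_exp_le_min hx) (by positivity))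
  have hc'x : 0 ≤ c' * x := by positivity
  have h2 : ∫ y in (0:ℝ)..(c' * x), φ y ≤ 2 * A * c * min x 1 := by
    have e0 : ∫ y in (0:ℝ)..(c' * x), φ y ≤ ∫ y in (0:ℝ)..(c' * x), A * Real.exp (-y / 2) := by
      apply intervalIntegral.integral_mono_on hc'x (hbm.ii _ _)
      · exact (by fun_prop : Continuous fun y : ℝ => A * Real.exp (-y / 2)).intervalIntegrable _ _
      · intro y hy; exact hφ y hy.1
    rw [intervalIntegral.integral_const_mul, Surv.exp_half_integral] at e0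
    have e1 := Real.exp_pos (-(c' * x) / 2)
    have e2 := Real.add_one_le_exp (-(c' * x) / 2)
    rcases le_total x 1 with hx1 | hx1
    · rw [min_eq_left hx1]
      have : A * (2 - 2 * Real.exp (-(c' * x) / 2)) ≤ A * (c' * x) :=
        mul_le_mul_of_nonneg_left (by linarith) hA
      have h3 : A * (c' * x) ≤ A * (2 * c * x) :=
        mul_le_mul_of_nonneg_left (mul_le_mul_of_nonneg_right hc'2 hx) hA
      calc _ ≤ _ := e0
        _ ≤ _ := this
        _ ≤ _ := h3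
        _ = _ := by ring
    · rw [min_eq_right hx1]
      have : A * (2 - 2 * Real.exp (-(c' * x) / 2)) ≤ A * (2 * c) :=
        mul_le_mul_of_nonneg_left (by linarith) hA
      calc _ ≤ _ := e0
        _ ≤ _ := this
        _ = _ := by ring
  have h2' : 0 ≤ ∫ y in (0:ℝ)..(c' * x), φ y :=
    intervalIntegral.integral_nonneg hc'x (fun y _ => hφ0 y)
  have h3 : ∫ y in (0:ℝ)..(c' * x), φ y
      = (∫ y in (0:ℝ)..(c * x), φ y) + ∫ y in (c * x)..(c' * x), φ y :=
    (intervalIntegral.integral_add_adjacent_intervals (hbm.ii _ _) (hbm.ii _ _)).symm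
  have h4 : 1 / c' - 1 / c ≤ δ := by
    rw [div_sub_div _ _ (by positivity) (by positivity), div_le_iff₀ (by positivity)]
    nlinarith [mul_nonneg hδ0 (mul_nonneg (by linarith : 0 ≤ c' - 1) (by linarith : 0 ≤ c)),
      mul_nonneg hδ0 (by linarith : 0 ≤ c - 1)]
  have h5 : 0 ≤ min x 1 := le_min hx zero_le_one
  have h6 : 1 / c ≤ 1 := by rw [div_le_one (by linarith)]; exact hc.le
  have h7 : ∫ y in (c * x)..(c' * x), φ y ≤ A * δ * min x 1 := (le_abs_self _).trans h1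
  have h8 : 1 / c' * (∫ y in (0:ℝ)..(c' * x), φ y)
      = 1 / c * (∫ y in (0:ℝ)..(c * x), φ y) + (1 / c' - 1 / c) * (∫ y in (0:ℝ)..(c' * x), φ y)
        + 1 / c * ∫ y in (c * x)..(c' * x), φ y := by
    rw [h3]; ring
  have h9 : (1 / c' - 1 / c) * (∫ y in (0:ℝ)..(c' * x), φ y) ≤ δ * (2 * A * c * min x 1) :=
    (mul_le_mul_of_nonneg_right h4 h2').trans (mul_le_mul_of_nonneg_left h2 hδ0)
  have h10 : 1 / c * ∫ y in (c * x)..(c' * x), φ y ≤ A * δ * min x 1 := by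
    have : 0 ≤ A * δ * min x 1 := by positivity
    calc 1 / c * ∫ y in (c * x)..(c' * x), φ y ≤ 1 / c * (A * δ * min x 1) :=
          mul_le_mul_of_nonneg_left h7 (by positivity)
      _ ≤ 1 * (A * δ * min x 1) := mul_le_mul_of_nonneg_right h6 this
      _ = _ := one_mul _
  rw [h8]
  calc _ ≤ 1 / c * (∫ y in (0:ℝ)..(c * x), φ y) + δ * (2 * A * c * min x 1) + A * δ * min x 1 := by
        linarith
    _ = _ := by ring

/-- Pointwise inequality behind the first supersolution. -/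
lemma ptw {η r R κ κ₁ : ℝ} (hη : |η| ≤ 1 / 2) (hr0 : 0 ≤ r) (hrR : r ≤ R) (hηR : |η| * R ≤ 1)
    (hηκ : |η| * (4 * (R + 1)) ≤ κ₁) (hκ : η * κ = |η| * κ₁) :
    (1 + η) * Real.exp (η * r) ≤ 1 + η * (1 + κ / 2) * (1 + r) := by
  have hb := abs_le.mp hη
  have h1 : |η * r| ≤ 1 := by
    rw [abs_mul, abs_of_nonneg hr0]
    exact (mul_le_mul_of_nonneg_left hrR (abs_nonneg _)).trans hηR
  have h2 := exp_quad h1
  have h3 : (1 + η) * Real.exp (η * r) ≤ (1 + η) * (1 + η * r + (η * r) ^ 2) :=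
    mul_le_mul_of_nonneg_left h2 (by linarith)
  refine h3.trans ?_
  have h4 : η ^ 2 = |η| * |η| := by rw [← sq_abs]; ring
  have h5 : η * (1 + κ / 2) * (1 + r) = η + η * r + |η| * κ₁ * (1 + r) / 2 := by
    rw [← hκ]; ring
  rw [h5]
  have h6 : η ^ 2 * r + η ^ 2 * r ^ 2 * (1 + η) ≤ |η| * κ₁ * (1 + r) / 2 := by
    have h7 : η ^ 2 * r + η ^ 2 * r ^ 2 * (1 + η) ≤ 2 * η ^ 2 * (r * (1 + r)) := by
      have : 0 ≤ η ^ 2 * r ^ 2 * (1 - η) := mul_nonneg (by positivity) (by linarith)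
      have : 0 ≤ η ^ 2 * r := by positivity
      nlinarith
    have h8 : 2 * η ^ 2 * (r * (1 + r)) ≤ 2 * η ^ 2 * (R * (1 + r)) := by
      apply mul_le_mul_of_nonneg_left _ (by positivity)
      exact mul_le_mul_of_nonneg_right hrR (by linarith)
    have h9 : 2 * η ^ 2 * (R * (1 + r)) ≤ |η| * κ₁ * (1 + r) / 2 := by
      rw [h4]
      have : |η| * (4 * R) ≤ κ₁ := by
        have := abs_nonneg η
        nlinarith
      have h10 : |η| * (1 + r) * (|η| * (4 * R)) ≤ |η| * (1 + r) * κ₁ :=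
        mul_le_mul_of_nonneg_left this (by positivity)
      nlinarith
    linarith
  nlinarith


lemma sig_le {c : ℝ} {s : ℝ → ℝ} (h : Surv c s) {η R : ℝ} {r : ℝ → ℝ}
    (hr0 : ∀ x, 0 ≤ r x) (hrR : ∀ x, r x ≤ R) (hηR : |η| * R ≤ 1 / 4) (x : ℝ) :
    s x * Real.exp (η * r x) ≤ 4 / 3 * s x := by
  have h1 : |η * r x| ≤ 1 / 4 := by
    rw [abs_mul, abs_of_nonneg (hr0 x)]
    exact (mul_le_mul_of_nonneg_left (hrR x) (abs_nonneg _)).trans hηR
  have h2 := exp_quad (h1.trans (by norm_num))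
  have h3 := (abs_le.mp h1)
  have h4 : (η * r x) ^ 2 ≤ 1 / 16 := by nlinarith [h3.1, h3.2]
  have h5 : Real.exp (η * r x) ≤ 4 / 3 := by linarith [h3.2]
  rw [mul_comm]
  exact mul_le_mul_of_nonneg_right h5 (h.pos x).le

lemma superA {c : ℝ} {s : ℝ → ℝ} (h : Surv c s) {B R κ κ₁ c₁ η δ : ℝ} {r : ℝ → ℝ} (hB : 1 ≤ B)
    (hdec : ∀ x, 0 ≤ x → s x ≤ B * Real.exp (-x / 2)) (hr : BM r) (hr0 : ∀ x, 0 ≤ r x)
    (hrR : ∀ x, r x ≤ R)
    (hfix : ∀ x, 0 ≤ x → r x = (1 + κ) * ∫ y in (0:ℝ)..x, s (c * y) * (1 + r (c * y)))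
    (hlow : ∀ x, 0 ≤ x → c₁ * min x 1 ≤ r x) (hκ₁ : 0 < κ₁)
    (hκ2 : |κ| ≤ 1 / 2) (hη : |η| ≤ 1 / 2) (hηR : |η| * R ≤ 1 / 4)
    (hηκ : |η| * (4 * (R + 1)) ≤ κ₁) (hκ : η * κ = |η| * κ₁) (hδ : δ ≤ (c - 1) / 2)
    (hδ2 : 4 * B * (2 * c + 1) * δ ≤ |η| * κ₁ * c₁ / 4) {c' : ℝ} (hcc : |c' - c| ≤ δ)
    {x : ℝ} (hx : 0 ≤ x) :
    Real.exp (-x + (1 + η) / c' * ∫ y in (0:ℝ)..(c' * x), s y * Real.exp (η * r y))
      ≤ s x * Real.exp (η * r x) := by
  have hc := h.hc
  have hcpos : 0 < c := by linarith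
  have hκb := abs_le.mp hκ2
  have hηb := abs_le.mp hη
  have hbmσ : BM (fun y => s y * Real.exp (η * r y)) := h.bm_s.mul ((BM.const η).mul hr).exp
  have hδ0 : 0 ≤ δ := (abs_nonneg _).trans hcc
  have h1 := pert2 (φ := fun y => s y * Real.exp (η * r y)) (A := 2 * B) hc (by linarith) hbmσ
    (fun y => mul_nonneg (h.pos y).le (Real.exp_pos _).le)
    (fun y hy => by
      refine (sig_le h hr0 hrR hηR y).trans ?_
      have := hdec y hy
      have := h.pos y
      linarith) hδ hcc hx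
  have h2 : 1 / c * ∫ y in (0:ℝ)..(c * x), s y * Real.exp (η * r y)
      = ∫ y in (0:ℝ)..x, s (c * y) * Real.exp (η * r (c * y)) := by
    have := intervalIntegral.integral_comp_mul_left (a := 0) (b := x)
      (fun y => s y * Real.exp (η * r y)) hcpos.ne'
    rw [mul_zero] at this
    rw [this, one_div]; rfl
  have hbmc : BM (fun y => s (c * y) * (1 + r (c * y))) :=
    (h.bm_s.comp_mul c).mul ((BM.const 1).add (hr.comp_mul c))
  have hbms : BM (fun y => s (c * y)) := h.bm_s.comp_mul c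
  have h3 : (1 + η) * ∫ y in (0:ℝ)..x, s (c * y) * Real.exp (η * r (c * y))
      ≤ JJ c s x + η * (1 + κ / 2) * ∫ y in (0:ℝ)..x, s (c * y) * (1 + r (c * y)) := by
    have e1 : JJ c s x + η * (1 + κ / 2) * ∫ y in (0:ℝ)..x, s (c * y) * (1 + r (c * y))
        = ∫ y in (0:ℝ)..x, (s (c * y) + η * (1 + κ / 2) * (s (c * y) * (1 + r (c * y)))) := by
      rw [intervalIntegral.integral_add (hbms.ii _ _) (((BM.const _).mul hbmc).ii _ _),
        intervalIntegral.integral_const_mul]; rfl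
    rw [e1, ← intervalIntegral.integral_const_mul]
    apply intervalIntegral.integral_mono_on hx
    · exact ((BM.const _).mul (hbmσ.comp_mul c)).ii _ _
    · exact (hbms.add ((BM.const _).mul hbmc)).ii _ _
    · intro y _
      have h4 := ptw (r := r (c * y)) hη (hr0 _) (hrR _) (by linarith) hηκ hκ
      have h5 := mul_le_mul_of_nonneg_left h4 (h.pos (c * y)).le
      calc (1 + η) * (s (c * y) * Real.exp (η * r (c * y)))
          = s (c * y) * ((1 + η) * Real.exp (η * r (c * y))) := by ring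
        _ ≤ _ := h5
        _ = _ := by ring
  have hfx := hfix x hx
  set Q := ∫ y in (0:ℝ)..x, s (c * y) * (1 + r (c * y)) with hQ
  have hQ0 : 0 ≤ Q := intervalIntegral.integral_nonneg hx
    (fun y _ => mul_nonneg (h.pos _).le (by linarith [hr0 (c * y)]))
  -- slack
  have h6 : η * (1 + κ / 2) * Q ≤ η * r x - |η| * κ₁ * r x / 4 := by
    have e1 : η * r x - η * (1 + κ / 2) * Q = |η| * κ₁ * Q / 2 := by
      rw [hfx, ← hκ]; ring
    have e2 : |η| * κ₁ * r x / 4 ≤ |η| * κ₁ * Q / 2 := by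
      rw [hfx]
      have : 0 ≤ |η| * κ₁ * Q := by positivity
      nlinarith
    linarith
  have h7 : (1 + η) * (2 * B * (2 * c + 1) * δ * min x 1) ≤ |η| * κ₁ * r x / 4 := by
    have hm : 0 ≤ min x 1 := le_min hx zero_le_one
    have e1 : (1 + η) * (2 * B * (2 * c + 1) * δ * min x 1)
        ≤ 2 * (2 * B * (2 * c + 1) * δ * min x 1) := by
      apply mul_le_mul_of_nonneg_right (by linarith)
      positivity
    have e2 : 2 * (2 * B * (2 * c + 1) * δ * min x 1) ≤ |η| * κ₁ * c₁ / 4 * min x 1 := by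
      have := mul_le_mul_of_nonneg_right hδ2 hm
      linarith
    have e3 : |η| * κ₁ * (c₁ * min x 1) ≤ |η| * κ₁ * r x :=
      mul_le_mul_of_nonneg_left (hlow x hx) (by positivity)
    linarith
  have h8 : (1 + η) / c' * (∫ y in (0:ℝ)..(c' * x), s y * Real.exp (η * r y))
      ≤ JJ c s x + η * r x := by
    have e1 : (1 + η) / c' * (∫ y in (0:ℝ)..(c' * x), s y * Real.exp (η * r y))
        = (1 + η) * (1 / c' * ∫ y in (0:ℝ)..(c' * x), s y * Real.exp (η * r y)) := by ring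
    rw [e1]
    have e2 := mul_le_mul_of_nonneg_left h1 (by linarith : 0 ≤ 1 + η)
    rw [h2] at e2
    linarith
  have h9 : s x * Real.exp (η * r x) = Real.exp (-x + (JJ c s x + η * r x)) := by
    conv_lhs => rw [h.eq x]
    rw [← Real.exp_add]; congr 1; unfold JJ; ring
  rw [h9]
  apply Real.exp_le_exp.mpr
  linarith

end DWTree
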