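import Pool.Agent.Lib.MP_6f9530_pr.SuperB

open MeasureTheory Set Filter Topology

namespace DWTree

/-- A pair of supersolutions for the two recursions, with growth rate `lam`. -/
structure SuperPair (c δ s' lam : ℝ) (σ γ : ℝ → ℝ) (C I : ℝ) : Prop where
  bmσ : BM σ
  bmγ : BM γ
  σ0 : ∀ x, 0 ≤ σ x
  γ0 : ∀ x, 0 ≤ γ x
  C0 : 0 ≤ C
  intσ : ∀ x, 0 ≤ x → ∫ y in (0:ℝ)..x, σ y ≤ I
  intγ : ∀ x, 0 ≤ x → ∫ y in (0:ℝ)..x, γ y ≤ I
  A : ∀ c', |c' - c| ≤ δ → ∀ x, 0 ≤ x →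
    Real.exp (-x + s' / c' * ∫ y in (0:ℝ)..(c' * x), σ y) ≤ σ x
  Bq : ∀ c', |c' - c| ≤ δ → ∀ x, 0 ≤ x →
    s' * σ x * (∫ y in (0:ℝ)..(c' * x), γ y) ≤ Real.exp lam * γ x
  Cq : ∀ x, 0 ≤ x → Real.exp (-x) ≤ C * γ x

theorem exists_super {c : ℝ} (hc : 1 < c) :
    ∃ μ : ℝ, 1 < μ ∧ ∀ ε > 0, ∃ η₀ > 0, ∀ η : ℝ, η ≠ 0 → |η| ≤ η₀ →
      ∃ (δ : ℝ) (σ γ : ℝ → ℝ) (C I : ℝ), 0 < δ ∧
        SuperPair c δ (1 + η) (μ * η + ε * |η|) σ γ C I := by
  obtain ⟨s, h⟩ := exists_surv c hc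
  obtain ⟨B, hB, hdec⟩ := h.dec
  obtain ⟨ρ, R, κ₀, c₁, hκ₀, hκhalf, hc₁, hR, hρ, hmono, hcont⟩ := exists_rho h
  have h00 : |(0:ℝ)| ≤ κ₀ := by simpa using hκ₀.le
  obtain ⟨hρ0bm, hρ0b, hρ0fix, hρ0low⟩ := hρ 0 h00
  set ψ : ℝ → ℝ := fun x => 1 + ρ 0 x with hψdef
  have hψ : BM ψ := (BM.const 1).add hρ0bm
  have hψmono : MonotoneOn ψ (Ioi 0) := fun x _ y _ hxy => by
    have := hmono hxy; rw [hψdef]; simp only; linarith
  have hψ1 : ∀ x, 0 < x → 1 ≤ ψ x := fun x _ => by rw [hψdef]; simp only; linarith [(hρ0b x).1]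
  have hψR : ∀ x, 0 < x → ψ x ≤ 1 + R := fun x _ => by
    rw [hψdef]; simp only; linarith [(hρ0b x).2]
  obtain ⟨μ, hμub, hμlb, hconv⟩ := h.psiN_conv hψ hψmono
  obtain ⟨b, hb1, hb⟩ := h.psiN_lower hρ0bm hc₁ hρ0low
  have hbμ : b ≤ μ := hμlb b (fun n => ⟨1, one_pos, hb n⟩)
  have hμ1 : 1 < μ := lt_of_lt_of_le hb1 hbμ
  have hμR : μ ≤ 1 + R := hμub _ (fun n x hx => h.psiN_le hψ hψR n x hx)
  refine ⟨μ, hμ1, fun ε hε => ?_⟩
  -- choice of t₀
  obtain ⟨t₀, ht₀, ht1, ht2⟩ : ∃ t₀ > 0, t₀ ≤ 1 / 32 ∧ 16 * (R + 1) * t₀ ≤ ε / 16 := by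
    refine ⟨min (1 / 32) (ε / (256 * (R + 1))), by positivity, min_le_left _ _, ?_⟩
    calc 16 * (R + 1) * min (1 / 32) (ε / (256 * (R + 1)))
        ≤ 16 * (R + 1) * (ε / (256 * (R + 1))) :=
          mul_le_mul_of_nonneg_left (min_le_right _ _) (by positivity)
      _ = ε / 16 := by field_simp; norm_num
  obtain ⟨M, hM⟩ := hconv t₀ ht₀ (ε / 8) (by positivity)
  obtain ⟨κ₂, hκ₂, hκ₂'⟩ := hcont (ε / 8) (by positivity)
  set κ₁ := min κ₀ κ₂ with hκ₁
  have hκ₁pos : 0 < κ₁ := lt_min hκ₀ hκ₂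
  set X := R + M * (1 + R) with hX
  have hX0 : 0 ≤ X := by positivity
  have hRX : R ≤ X := by rw [hX]; have : (0:ℝ) ≤ M * (1 + R) := by positivity
                         linarith
  obtain ⟨η₀, hη₀, e1, e2, e3, e4⟩ : ∃ η₀ > 0, η₀ ≤ 1 / 2 ∧ η₀ * (X + μ + ε) ≤ 1 / 4 ∧
      η₀ * X ^ 2 ≤ ε / 8 ∧ η₀ * (4 * (R + 1)) ≤ κ₁ := by
    have hμ0 : 0 < μ := by linarith
    refine ⟨min (min (1 / 2) (1 / (4 * (X + μ + ε)))) (min (ε / (8 * (X ^ 2 + 1))) (κ₁ / (4 * (R + 1)))),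
      by positivity, ?_, ?_, ?_, ?_⟩
    · exact (min_le_left _ _).trans (min_le_left _ _)
    · calc _ ≤ 1 / (4 * (X + μ + ε)) * (X + μ + ε) :=
            mul_le_mul_of_nonneg_right ((min_le_left _ _).trans (min_le_right _ _)) (by positivity)
        _ = 1 / 4 := by field_simp
    · calc _ ≤ ε / (8 * (X ^ 2 + 1)) * X ^ 2 :=
            mul_le_mul_of_nonneg_right ((min_le_right _ _).trans (min_le_left _ _)) (by positivity)
        _ ≤ ε / (8 * (X ^ 2 + 1)) * (X ^ 2 + 1) :=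
            mul_le_mul_of_nonneg_left (by linarith) (by positivity)
        _ = ε / 8 := by field_simp
    · calc _ ≤ κ₁ / (4 * (R + 1)) * (4 * (R + 1)) :=
            mul_le_mul_of_nonneg_right ((min_le_right _ _).trans (min_le_right _ _)) (by positivity)
        _ = κ₁ := by field_simp
  refine ⟨η₀, hη₀, fun η hη0 hη => ?_⟩
  have hηpos : 0 < |η| := abs_pos.mpr hη0
  obtain ⟨κ, hκabs, hκη⟩ : ∃ κ, |κ| = κ₁ ∧ η * κ = |η| * κ₁ := by
    rcases lt_or_gt_of_ne hη0 with hneg | hpos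
    · exact ⟨-κ₁, by rw [abs_neg, abs_of_pos hκ₁pos], by rw [abs_of_neg hneg]; ring⟩
    · exact ⟨κ₁, abs_of_pos hκ₁pos, by rw [abs_of_pos hpos]⟩
  have hκκ₀ : |κ| ≤ κ₀ := by rw [hκabs]; exact min_le_left _ _
  obtain ⟨hrbm, hrb, hrfix, hrlow⟩ := hρ κ hκκ₀
  have hrρ : ∀ x, |ρ κ x - ρ 0 x| ≤ ε / 8 := hκ₂' κ (by rw [hκabs]; exact min_le_right _ _)
  set r := ρ κ with hr
  have hr0 : ∀ x, 0 ≤ r x := fun x => (hrb x).1
  have hrR : ∀ x, r x ≤ R := fun x => (hrb x).2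
  have g1 : |η| ≤ 1 / 2 := hη.trans e1
  have g2 : |η| * (X + μ + ε) ≤ 1 / 4 :=
    (mul_le_mul_of_nonneg_right hη (by positivity)).trans e2
  have g3 : |η| * X ^ 2 ≤ ε / 8 := (mul_le_mul_of_nonneg_right hη (by positivity)).trans e3
  have g4 : |η| * (4 * (R + 1)) ≤ κ₁ := (mul_le_mul_of_nonneg_right hη (by positivity)).trans e4
  have g5 : |η| * R ≤ 1 / 4 := by
    have : |η| * (X + μ + ε) = |η| * R + |η| * (X - R + μ + ε) := by ring
    have h2 : 0 ≤ |η| * (X - R + μ + ε) := mul_nonneg hηpos.le (by linarith)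
    linarith
  set F₀ := cF s (c * t₀) with hF₀
  have hF₀pos : 0 < F₀ := h.cF_pos (by positivity)
  set β := 16 * (R + 1) * |η| * F₀ with hβ
  have hβpos : 0 < β := by positivity
  obtain ⟨δ, hδ, d1, d2, d3, d4⟩ : ∃ δ > 0, δ ≤ (c - 1) / 2 ∧
      4 * B * (2 * c + 1) * δ ≤ |η| * κ₁ * c₁ / 4 ∧
      4 * B * δ ≤ F₀ * |η| * ε / 8 ∧ 4 * B * δ ≤ β / 8 := by
    have hc1 : 0 < c - 1 := by linarith
    refine ⟨min (min ((c - 1) / 2) ((|η| * κ₁ * c₁ / 4) / (4 * B * (2 * c + 1))))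
      (min ((F₀ * |η| * ε / 8) / (4 * B)) ((β / 8) / (4 * B))), by positivity, ?_, ?_, ?_, ?_⟩
    · exact (min_le_left _ _).trans (min_le_left _ _)
    · calc _ ≤ 4 * B * (2 * c + 1) * ((|η| * κ₁ * c₁ / 4) / (4 * B * (2 * c + 1))) :=
            mul_le_mul_of_nonneg_left ((min_le_left _ _).trans (min_le_right _ _)) (by positivity)
        _ = |η| * κ₁ * c₁ / 4 := mul_div_cancel₀ _ (by positivity)
    · calc _ ≤ 4 * B * ((F₀ * |η| * ε / 8) / (4 * B)) :=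
            mul_le_mul_of_nonneg_left ((min_le_right _ _).trans (min_le_left _ _)) (by positivity)
        _ = _ := mul_div_cancel₀ _ (by positivity)
    · calc _ ≤ 4 * B * ((β / 8) / (4 * B)) :=
            mul_le_mul_of_nonneg_left ((min_le_right _ _).trans (min_le_right _ _)) (by positivity)
        _ = _ := mul_div_cancel₀ _ (by positivity)
  set χ : ℝ → ℝ := fun y => r y + omN c s ψ μ M y with hχ
  have hbmχ : BM χ := hrbm.add (bm_omN h hψ μ M)
  have hηχ : ∀ y, |η * χ y| ≤ 1 / 4 := by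
    intro y
    have h1 := omN_abs h hψ hψ1 hψR hμ1.le hμR M y
    have h2 : |r y| ≤ R := by rw [abs_of_nonneg (hr0 y)]; exact hrR y
    have h3 : |χ y| ≤ X := (abs_add_le _ _).trans (by rw [hX]; linarith)
    rw [abs_mul]
    have h4 := mul_le_mul_of_nonneg_left h3 hηpos.le
    have : |η| * (X + μ + ε) = |η| * X + |η| * (μ + ε) := by ring
    have h2 : 0 ≤ |η| * (μ + ε) := by positivity
    linarith
  have hexpχ : ∀ y, Real.exp (η * χ y) ≤ 4 / 3 := by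
    intro y
    have h2 := exp_quad ((hηχ y).trans (by norm_num))
    have h3 := (abs_le.mp (hηχ y))
    have h4 : (η * χ y) ^ 2 ≤ 1 / 16 := by
      rw [← sq_abs]
      calc |η * χ y| ^ 2 ≤ (1 / 4) ^ 2 := pow_le_pow_left₀ (abs_nonneg _) (hηχ y) 2
        _ = 1 / 16 := by norm_num
    linarith [h3.2]
  have hexpχ2 : ∀ y, 1 / 2 ≤ Real.exp (η * χ y) := by
    intro y
    have h2 := Real.add_one_le_exp (η * χ y)
    have h3 := (abs_le.mp (hηχ y))
    linarith [h3.1]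
  have hbmι : BM ((Icc (0:ℝ) t₀).indicator (fun _ : ℝ => β)) :=
    (BM.const β).indicator measurableSet_Icc
  have hι0 : ∀ y, 0 ≤ (Icc (0:ℝ) t₀).indicator (fun _ : ℝ => β) y :=
    fun y => indicator_nonneg (fun _ _ => hβpos.le) y
  have hbme : BM (fun y => gg c s y * Real.exp (η * χ y)) :=
    h.bm_gg.mul ((BM.const η).mul hbmχ).exp
  refine ⟨δ, fun y => s y * Real.exp (η * r y),
    fun y => gg c s y * Real.exp (η * χ y) + (Icc (0:ℝ) t₀).indicator (fun _ : ℝ => β) y,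
    1 / β + 2 / F₀, 4 * B + 2 + β * t₀, hδ, ?_⟩
  constructor
  · exact h.bm_s.mul ((BM.const η).mul hrbm).exp
  · exact hbme.add hbmι
  · intro x; exact mul_nonneg (h.pos x).le (Real.exp_pos _).le
  · intro x
    exact add_nonneg (mul_nonneg (h.gg_nonneg x) (Real.exp_pos _).le) (hι0 x)
  · positivity
  · intro x hx
    have h1 : ∫ y in (0:ℝ)..x, s y * Real.exp (η * r y) ≤ ∫ y in (0:ℝ)..x, 2 * s y := by
      apply intervalIntegral.integral_mono_on hx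
      · exact (h.bm_s.mul ((BM.const η).mul hrbm).exp).ii _ _
      · exact ((BM.const 2).mul h.bm_s).ii _ _
      · intro y _
        have := sig_le h hr0 hrR g5 y
        have := h.pos y
        linarith
    rw [intervalIntegral.integral_const_mul] at h1
    have h2 := h.int_s_le hB hdec hx
    have h3 : 0 ≤ β * t₀ := by positivity
    linarith
  · intro x hx
    rw [intervalIntegral.integral_add (hbme.ii _ _) (hbmι.ii _ _)]
    have h1 : ∫ y in (0:ℝ)..x, gg c s y * Real.exp (η * χ y)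
        ≤ ∫ y in (0:ℝ)..x, gg c s y * 2 := by
      apply intervalIntegral.integral_mono_on hx (hbme.ii _ _)
      · exact (h.bm_gg.mul (BM.const 2)).ii _ _
      · intro y _
        exact mul_le_mul_of_nonneg_left ((hexpχ y).trans (by norm_num)) (h.gg_nonneg y)
    rw [intervalIntegral.integral_mul_const, h.integral_gg0] at h1
    have h2 := int_ind hβpos.le ht₀.le hx
    have h3 := h.cF_le_one x
    linarith
  · intro c' hcc x hx
    exact superA h hB hdec hrbm hr0 hrR hrfix hrlow hκ₁pos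
      (hκκ₀.trans hκhalf) g1 g5 g4 hκη d1 d2 hcc hx
  · intro c' hcc x hx
    exact superB h hB hdec hrbm hρ0bm hr0 hrR (fun x => (hρ0b x).1) (fun x => (hρ0b x).2) hrρ hε
      hμ1.le hμR ht₀ (fun x hx => hM (M + 1) (Nat.le_succ M) x hx) hη0 g1 g2 g3 ht1 ht2 d1 d3 d4
      hcc hx
  · intro x hx
    have hβi : 0 < 1 / β := by positivity
    have hFi : 0 < 2 / F₀ := by positivity
    have hex1 : Real.exp (-x) ≤ 1 := Real.exp_le_one_iff.mpr (by linarith)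
    have hgn : 0 ≤ gg c s x * Real.exp (η * χ x) := mul_nonneg (h.gg_nonneg x) (Real.exp_pos _).le
    rcases le_or_gt x t₀ with hxt | hxt
    · have hmem : x ∈ Icc (0:ℝ) t₀ := ⟨hx, hxt⟩
      have h1 : (Icc (0:ℝ) t₀).indicator (fun _ : ℝ => β) x = β :=
        indicator_of_mem hmem (fun _ => β)
      simp only [h1]
      have h2 : (1 / β + 2 / F₀) * (gg c s x * Real.exp (η * χ x) + β)
          ≥ 1 / β * β := by
        apply mul_le_mul _ _ hβpos.le (by positivity)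
        · linarith
        · linarith
      have h3 : 1 / β * β = 1 := by field_simp
      linarith
    · have h1 : F₀ ≤ cF s (c * x) := h.cF_mono (mul_le_mul_of_nonneg_left hxt.le (by linarith))
      have h2 : Real.exp (-x) * (F₀ * (1 / 2)) ≤ gg c s x * Real.exp (η * χ x) := by
        have h3 : Real.exp (-x) * F₀ ≤ gg c s x :=
          mul_le_mul (h.exp_le hx) h1 hF₀pos.le (h.pos x).le
        calc Real.exp (-x) * (F₀ * (1 / 2)) = (Real.exp (-x) * F₀) * (1 / 2) := by ring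
          _ ≤ gg c s x * Real.exp (η * χ x) :=
            mul_le_mul h3 (hexpχ2 x) (by norm_num) (h.gg_nonneg x)
      have h4 : (1 / β + 2 / F₀) * (gg c s x * Real.exp (η * χ x)
          + (Icc (0:ℝ) t₀).indicator (fun _ : ℝ => β) x)
          ≥ 2 / F₀ * (Real.exp (-x) * (F₀ * (1 / 2))) := by
        apply mul_le_mul _ _ (by positivity) (by positivity)
        · linarith
        · linarith [hι0 x]
      have h5 : 2 / F₀ * (Real.exp (-x) * (F₀ * (1 / 2))) = Real.exp (-x) := by field_simp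
      linarith

end DWTree
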