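import Pool.Agent.Lib.MP_6f9530_pr.Super

open MeasureTheory Set Filter Topology

namespace DWTree

/-- Corrector built from the iterates of the kernel. -/
noncomputable def omN (c : ℝ) (s ψ : ℝ → ℝ) (μ : ℝ) (M : ℕ) (x : ℝ) : ℝ :=
  ∑ m ∈ Finset.range M, (psiN c s ψ (m + 1) x - μ)

lemma omN_succ (c : ℝ) (s ψ : ℝ → ℝ) (μ : ℝ) (M : ℕ) :
    omN c s ψ μ (M + 1) = fun x => omN c s ψ μ M x + (psiN c s ψ (M + 1) x - μ) := by
  funext x; unfold omN; rw [Finset.sum_range_succ]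

lemma bm_omN {c : ℝ} {s : ℝ → ℝ} (h : Surv c s) {ψ : ℝ → ℝ} (hψ : BM ψ) (μ : ℝ) (M : ℕ) :
    BM (omN c s ψ μ M) := by
  induction M with
  | zero =>
    have : omN c s ψ μ 0 = fun _ => 0 := by funext x; simp [omN]
    rw [this]; exact BM.const 0
  | succ M ih =>
    rw [omN_succ]
    exact ih.add ((h.psiN_bm hψ (M + 1)).sub (BM.const μ))

lemma KK_omN {c : ℝ} {s : ℝ → ℝ} (h : Surv c s) {ψ : ℝ → ℝ} (hψ : BM ψ) (μ : ℝ) (M : ℕ)
    {x : ℝ} (hx : 0 < x) :
    KK c s (omN c s ψ μ M) x = omN c s ψ μ M x + psiN c s ψ (M + 1) x - psiN c s ψ 1 x := by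
  induction M with
  | zero =>
    have : omN c s ψ μ 0 = fun _ => 0 := by funext x; simp [omN]
    rw [this, h.KK_const 0 hx]
    simp
  | succ M ih =>
    have e1 : omN c s ψ μ (M + 1)
        = fun x => omN c s ψ μ M x + (psiN c s ψ (M + 1) x + (-μ)) := by
      rw [omN_succ]; funext x; ring
    rw [e1, h.KK_add (bm_omN h hψ μ M) ((h.psiN_bm hψ (M + 1)).add (BM.const (-μ))),
      h.KK_add (h.psiN_bm hψ (M + 1)) (BM.const (-μ)), h.KK_const (-μ) hx, ih]
    show _ + (psiN c s ψ (M + 1 + 1) x + -μ) = _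
    ring

lemma omN_abs {c : ℝ} {s : ℝ → ℝ} (h : Surv c s) {ψ : ℝ → ℝ} (hψ : BM ψ) {μ R : ℝ}
    (hψ1 : ∀ x, 0 < x → 1 ≤ ψ x) (hψR : ∀ x, 0 < x → ψ x ≤ 1 + R) (hμ1 : 1 ≤ μ) (hμR : μ ≤ 1 + R)
    (M : ℕ) (x : ℝ) : |omN c s ψ μ M x| ≤ M * (1 + R) := by
  unfold omN
  refine (Finset.abs_sum_le_sum_abs _ _).trans ?_
  have : ∀ m ∈ Finset.range M, |psiN c s ψ (m + 1) x - μ| ≤ 1 + R := by
    intro m _
    rcases le_or_gt x 0 with hx | hx
    · have : psiN c s ψ (m + 1) x = 0 := h.KK_nonpos _ hx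
      rw [this, zero_sub, abs_neg, abs_of_nonneg (by linarith)]; exact hμR
    · have h1 := h.le_psiN hψ hψ1 (m + 1) x hx
      have h2 := h.psiN_le hψ hψR (m + 1) x hx
      rw [abs_le]; constructor <;> linarith
  refine (Finset.sum_le_sum this).trans ?_
  rw [Finset.sum_const, Finset.card_range, nsmul_eq_mul]

lemma int_ind {β t₀ z : ℝ} (hβ : 0 ≤ β) (ht₀ : 0 ≤ t₀) (hz : 0 ≤ z) :
    ∫ y in (0:ℝ)..z, (Icc 0 t₀).indicator (fun _ => β) y ≤ β * t₀ := by
  have hbm : BM ((Icc 0 t₀).indicator (fun _ : ℝ => β)) := (BM.const β).indicator measurableSet_Icc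
  have hnn : ∀ y, 0 ≤ (Icc 0 t₀).indicator (fun _ : ℝ => β) y :=
    fun y => indicator_nonneg (fun _ _ => hβ) y
  have hle : ∀ y, (Icc 0 t₀).indicator (fun _ : ℝ => β) y ≤ β := fun y => by
    by_cases hy : y ∈ Icc 0 t₀
    · rw [indicator_of_mem hy]
    · rw [indicator_of_notMem hy]; exact hβ
  have h1 : ∀ w, 0 ≤ w → w ≤ t₀ →
      ∫ y in (0:ℝ)..w, (Icc 0 t₀).indicator (fun _ => β) y ≤ β * t₀ := by
    intro w hw hwt
    have := intervalIntegral.integral_mono_on (a := 0) (b := w)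
      (f := (Icc 0 t₀).indicator (fun _ : ℝ => β))
      (g := fun _ => β) hw (hbm.ii _ _) (by simp) (fun y _ => hle y)
    refine this.trans ?_
    simp only [intervalIntegral.integral_const, sub_zero, smul_eq_mul]
    rw [mul_comm]; exact mul_le_mul_of_nonneg_left hwt hβ
  rcases le_total z t₀ with hzt | hzt
  · exact h1 z hz hzt
  · have h2 : ∫ y in (0:ℝ)..z, (Icc 0 t₀).indicator (fun _ => β) y
        = (∫ y in (0:ℝ)..t₀, (Icc 0 t₀).indicator (fun _ => β) y)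
          + ∫ y in t₀..z, (Icc 0 t₀).indicator (fun _ => β) y :=
      (intervalIntegral.integral_add_adjacent_intervals (hbm.ii _ _) (hbm.ii _ _)).symm
    have h3 : ∫ y in t₀..z, (Icc 0 t₀).indicator (fun _ => β) y ≤ ∫ y in t₀..z, (0:ℝ) := by
      apply intervalIntegral.integral_mono_on_of_le_Ioo hzt (hbm.ii _ _) (by simp)
      intro y hy
      rw [indicator_of_notMem (fun hm => absurd hm.2 (not_le.mpr hy.1))]
    rw [h2]
    simp only [intervalIntegral.integral_zero] at h3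
    linarith [h1 t₀ ht₀ le_rfl]

lemma fin_far {sx Fx F₀ θ χ' m q e1 : ℝ} (hsx0 : 0 < sx) (hFF : F₀ ≤ Fx) (hF : 0 < F₀)
    (hθ : 0 ≤ θ) (hχ : |χ'| ≤ 1 / 4) (hm : |m| ≤ 1 / 4) (hq : q ≤ m + θ / 2)
    (he : 2 * e1 ≤ F₀ * (θ / 4)) :
    sx * Fx * Real.exp χ' * Real.exp q + 2 * sx * e1
      ≤ Real.exp (m + θ) * (sx * Fx * Real.exp χ') := by
  have hFx : 0 < Fx := lt_of_lt_of_le hF hFF
  set a := sx * Fx * Real.exp χ' with ha
  have ha0 : 0 < a := mul_pos (mul_pos hsx0 hFx) (Real.exp_pos _)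
  have h3 : a * Real.exp q ≤ a * Real.exp (m + θ / 2) :=
    mul_le_mul_of_nonneg_left (Real.exp_le_exp.mpr hq) ha0.le
  have h4 : Real.exp (m + θ) = Real.exp (m + θ / 2) * Real.exp (θ / 2) := by
    rw [← Real.exp_add]; congr 1; ring
  have h5 := Real.add_one_le_exp (θ / 2)
  have h7 : (1:ℝ)/2 ≤ Real.exp χ' * Real.exp (m + θ / 2) := by
    rw [← Real.exp_add]
    have h8 := Real.add_one_le_exp (χ' + (m + θ / 2))
    have h9 := (abs_le.mp hχ).1
    have h10 := (abs_le.mp hm).1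
    linarith
  have h13 : 0 ≤ sx * Fx * (θ / 2) := by positivity
  have h6 : sx * Fx * (θ / 4) ≤ a * Real.exp (m + θ / 2) * (θ / 2) := by
    calc sx * Fx * (θ / 4) = sx * Fx * (θ / 2) * (1 / 2) := by ring
      _ ≤ sx * Fx * (θ / 2) * (Real.exp χ' * Real.exp (m + θ / 2)) :=
        mul_le_mul_of_nonneg_left h7 h13
      _ = a * Real.exp (m + θ / 2) * (θ / 2) := by rw [ha]; ring
  have h14 : 2 * sx * e1 ≤ sx * Fx * (θ / 4) := by
    have h17 : F₀ * (θ / 4) ≤ Fx * (θ / 4) := mul_le_mul_of_nonneg_right hFF (by positivity)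
    calc 2 * sx * e1 = sx * (2 * e1) := by ring
      _ ≤ sx * (Fx * (θ / 4)) := mul_le_mul_of_nonneg_left (he.trans h17) hsx0.le
      _ = _ := by ring
  have h20 : 0 ≤ a * Real.exp (m + θ / 2) := by positivity
  have h19 : a * Real.exp (m + θ / 2) * (1 + θ / 2) ≤ Real.exp (m + θ) * a := by
    calc a * Real.exp (m + θ / 2) * (1 + θ / 2)
        ≤ a * Real.exp (m + θ / 2) * Real.exp (θ / 2) :=
          mul_le_mul_of_nonneg_left (by linarith) h20
      _ = Real.exp (m + θ) * a := by rw [h4]; ring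
  have h21 : a * Real.exp (m + θ / 2) * (1 + θ / 2)
      = a * Real.exp (m + θ / 2) + a * Real.exp (m + θ / 2) * (θ / 2) := by ring
  linarith

lemma fin_near {sx Fx F₀ β χ' l q w e1 : ℝ} (hsx0 : 0 < sx) (hsx1 : sx ≤ 1) (hFx : 0 < Fx)
    (hFF : Fx ≤ F₀) (hχ : |χ'| ≤ 1 / 4) (hl : |l| ≤ 1 / 4) (hw : 0 ≤ w) (hw1 : w ≤ 1 / 4)
    (hq : q ≤ l + w) (hβ : 0 ≤ β) (hwβ : 4 * F₀ * w ≤ β / 4) (he0 : 0 ≤ e1)
    (he : 2 * e1 ≤ 3 * β / 16) :
    sx * Fx * Real.exp χ' * Real.exp q + 2 * sx * e1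
      ≤ Real.exp l * (sx * Fx * Real.exp χ' + β) := by
  have hF₀ : 0 < F₀ := lt_of_lt_of_le hFx hFF
  set a := sx * Fx * Real.exp χ' with ha
  have ha0 : 0 < a := mul_pos (mul_pos hsx0 hFx) (Real.exp_pos _)
  set L := Real.exp l with hL
  have hL0 : 0 < L := Real.exp_pos _
  have h3 : Real.exp q ≤ L * (1 + 2 * w) := by
    have h4 : Real.exp w ≤ 1 + 2 * w := by
      have h6 := exp_quad (y := w) (by rw [abs_of_nonneg hw]; linarith)
      have h7 : w ^ 2 ≤ w * (1 / 4) := by rw [pow_two]; exact mul_le_mul_of_nonneg_left hw1 hw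
      linarith
    calc Real.exp q ≤ Real.exp (l + w) := Real.exp_le_exp.mpr hq
      _ = L * Real.exp w := by rw [Real.exp_add]
      _ ≤ _ := mul_le_mul_of_nonneg_left h4 hL0.le
  have h5 : Real.exp χ' * L ≤ 2 := by
    rw [hL, ← Real.exp_add]
    have h6 : |χ' + l| ≤ 1 / 2 := (abs_add_le _ _).trans (by linarith)
    have h8 := exp_quad (h6.trans (by norm_num : (1:ℝ)/2 ≤ 1))
    have h9 := abs_le.mp h6
    have h10 : (χ' + l) ^ 2 ≤ 1 / 4 := by
      rw [← sq_abs]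
      calc |χ' + l| ^ 2 ≤ (1 / 2) ^ 2 := pow_le_pow_left₀ (abs_nonneg _) h6 2
        _ = 1 / 4 := by norm_num
    linarith [h9.2]
  have h6 : a * L ≤ 2 * F₀ := by
    have h7 : sx * Fx ≤ F₀ := by
      calc sx * Fx ≤ 1 * F₀ := mul_le_mul hsx1 hFF hFx.le zero_le_one
        _ = F₀ := one_mul _
    calc a * L = (sx * Fx) * (Real.exp χ' * L) := by rw [ha]; ring
      _ ≤ F₀ * 2 := mul_le_mul h7 h5 (by positivity) hF₀.le
      _ = 2 * F₀ := by ring
  have h7 : a * Real.exp q ≤ L * a + 4 * F₀ * w := by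
    have h8 := mul_le_mul_of_nonneg_left h3 ha0.le
    have h9 : a * (L * (1 + 2 * w)) = L * a + (a * L) * (2 * w) := by ring
    rw [h9] at h8
    have h10 : (a * L) * (2 * w) ≤ (2 * F₀) * (2 * w) :=
      mul_le_mul_of_nonneg_right h6 (by positivity)
    linarith
  have hLh : 1 / 2 ≤ L := by
    have h8 := Real.add_one_le_exp l
    have h9 := (abs_le.mp hl).1
    linarith
  have h12 : 2 * sx * e1 ≤ 2 * e1 := by
    have := mul_le_mul_of_nonneg_right hsx1 he0
    linarith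
  have h15 : β * (1 / 2) ≤ β * L := mul_le_mul_of_nonneg_left hLh hβ
  have h16 : L * (a + β) = L * a + β * L := by ring
  rw [h16]
  linarith

lemma superB {c : ℝ} {s : ℝ → ℝ} (h : Surv c s) {B R μ ε η δ t₀ : ℝ} {r ρ0 : ℝ → ℝ} {M : ℕ}
    (hB : 1 ≤ B)
    (hdec : ∀ x, 0 ≤ x → s x ≤ B * Real.exp (-x / 2)) (hr : BM r) (hρ0 : BM ρ0)
    (hr0 : ∀ x, 0 ≤ r x) (hrR : ∀ x, r x ≤ R)
    (hρ00 : ∀ x, 0 ≤ ρ0 x) (hρ0R : ∀ x, ρ0 x ≤ R) (hrρ : ∀ x, |r x - ρ0 x| ≤ ε / 8)
    (hε : 0 < ε) (hμ1 : 1 ≤ μ) (hμR : μ ≤ 1 + R) (ht₀ : 0 < t₀)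
    (hconv : ∀ x, t₀ ≤ x → |psiN c s (fun x => 1 + ρ0 x) (M + 1) x - μ| ≤ ε / 8)
    (hη0 : η ≠ 0) (hη : |η| ≤ 1 / 2) (hη2 : |η| * (R + M * (1 + R) + μ + ε) ≤ 1 / 4)
    (hη3 : |η| * (R + M * (1 + R)) ^ 2 ≤ ε / 8)
    (ht1 : t₀ ≤ 1 / 32) (ht2 : 16 * (R + 1) * t₀ ≤ ε / 16)
    (hδ : δ ≤ (c - 1) / 2)
    (hδ2 : 4 * B * δ ≤ cF s (c * t₀) * |η| * ε / 8)
    (hδ3 : 4 * B * δ ≤ 16 * (R + 1) * |η| * cF s (c * t₀) / 8)
    {c' : ℝ} (hcc : |c' - c| ≤ δ) {x : ℝ} (hx : 0 ≤ x) :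
    (1 + η) * (s x * Real.exp (η * r x)) *
      (∫ y in (0:ℝ)..(c' * x), (gg c s y * Real.exp (η * (r y + omN c s (fun x => 1 + ρ0 x) μ M y))
        + (Icc 0 t₀).indicator (fun _ => 16 * (R + 1) * |η| * cF s (c * t₀)) y))
      ≤ Real.exp (μ * η + ε * |η|) *
        (gg c s x * Real.exp (η * (r x + omN c s (fun x => 1 + ρ0 x) μ M x))
        + (Icc 0 t₀).indicator (fun _ => 16 * (R + 1) * |η| * cF s (c * t₀)) x) := by
  have hc := h.hc
  have hcpos : 0 < c := by linarith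
  have hR0 : 0 ≤ R := (hr0 0).trans (hrR 0)
  have hηpos : 0 < |η| := abs_pos.mpr hη0
  have hηb := abs_le.mp hη
  have hcb := abs_le.mp hcc
  have hδ0 : 0 ≤ δ := (abs_nonneg _).trans hcc
  have hc'pos : 0 < c' := by linarith
  set F₀ := cF s (c * t₀) with hF₀
  have hF₀pos : 0 < F₀ := h.cF_pos (by positivity)
  set β := 16 * (R + 1) * |η| * F₀ with hβ
  have hβpos : 0 < β := by positivity
  set X := R + M * (1 + R) with hX
  have hX0 : 0 ≤ X := by positivity
  have hRX : R ≤ X := by rw [hX]; have : (0:ℝ) ≤ M * (1 + R) := by positivity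
                         linarith
  set ψ : ℝ → ℝ := fun x => 1 + ρ0 x with hψdef
  have hψ : BM ψ := (BM.const 1).add hρ0
  have hψ1 : ∀ x, 0 < x → 1 ≤ ψ x := fun x _ => by rw [hψdef]; simp only; linarith [hρ00 x]
  have hψR : ∀ x, 0 < x → ψ x ≤ 1 + R := fun x _ => by rw [hψdef]; simp only; linarith [hρ0R x]
  set χ : ℝ → ℝ := fun y => r y + omN c s ψ μ M y with hχ
  have hbmχ : BM χ := hr.add (bm_omN h hψ μ M)
  have hχX : ∀ y, |χ y| ≤ X := by
    intro y
    have h1 := omN_abs h hψ hψ1 hψR hμ1 hμR M y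
    have h2 : |r y| ≤ R := by rw [abs_of_nonneg (hr0 y)]; exact hrR y
    exact (abs_add_le _ _).trans (by rw [hX]; linarith)
  have hsplit : |η| * (X + μ + ε) = |η| * X + |η| * (μ + ε) := by ring
  have hηX : |η| * X ≤ 1 / 4 := by
    have : 0 ≤ |η| * (μ + ε) := by positivity
    linarith
  have hημ : |η| * (μ + ε) ≤ 1 / 4 := by
    have : 0 ≤ |η| * X := by positivity
    linarith
  have hηR4 : |η| * R ≤ 1 / 4 := (mul_le_mul_of_nonneg_left hRX hηpos.le).trans hηX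
  have hηχ : ∀ y, |η * χ y| ≤ 1 / 4 := fun y => by
    rw [abs_mul]; exact (mul_le_mul_of_nonneg_left (hχX y) hηpos.le).trans hηX
  set e : ℝ → ℝ := fun y => gg c s y * Real.exp (η * χ y) with he
  have hbme : BM e := h.bm_gg.mul ((BM.const η).mul hbmχ).exp
  have he0 : ∀ y, 0 ≤ e y := fun y => mul_nonneg (h.gg_nonneg y) (Real.exp_pos _).le
  have hexpχ : ∀ y, Real.exp (η * χ y) ≤ 4 / 3 := by
    intro y
    have h2 := exp_quad ((hηχ y).trans (by norm_num))
    have h3 := (abs_le.mp (hηχ y))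
    have h4 : (η * χ y) ^ 2 ≤ 1 / 16 := by
      rw [← sq_abs]
      calc |η * χ y| ^ 2 ≤ (1 / 4) ^ 2 := pow_le_pow_left₀ (abs_nonneg _) (hηχ y) 2
        _ = 1 / 16 := by norm_num
    linarith [h3.2]
  have hele : ∀ y, 0 ≤ y → |e y| ≤ 2 * B * Real.exp (-y / 2) := by
    intro y hy
    rw [abs_of_nonneg (he0 y)]
    have h1 := h.gg_le_s y
    have h2 := hdec y hy
    have h3 := h.gg_nonneg y
    calc e y ≤ gg c s y * (4 / 3) := mul_le_mul_of_nonneg_left (hexpχ y) h3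
      _ ≤ 2 * B * Real.exp (-y / 2) := by linarith
  set ι : ℝ → ℝ := (Icc 0 t₀).indicator (fun _ => β) with hι
  have hbmι : BM ι := (BM.const β).indicator measurableSet_Icc
  have hι0 : ∀ y, 0 ≤ ι y := fun y => indicator_nonneg (fun _ _ => hβpos.le) y
  show (1 + η) * (s x * Real.exp (η * r x)) * (∫ y in (0:ℝ)..(c' * x), (e y + ι y))
    ≤ Real.exp (μ * η + ε * |η|) * (e x + ι x)
  rcases eq_or_lt_of_le hx with hx0 | hx0
  · rw [← hx0, mul_zero, intervalIntegral.integral_same, mul_zero]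
    exact mul_nonneg (Real.exp_pos _).le (add_nonneg (he0 _) (hι0 _))
  have hcx : 0 < c * x := by positivity
  have hc'x : 0 < c' * x := by positivity
  -- total integral
  have hint : ∫ y in (0:ℝ)..(c' * x), (e y + ι y)
      ≤ (∫ y in (0:ℝ)..(c * x), e y) + 2 * B * δ + β * t₀ := by
    rw [intervalIntegral.integral_add (hbme.ii _ _) (hbmι.ii _ _)]
    have h1 := int_ind hβpos.le ht₀.le hc'x.le
    have h2 : ∫ y in (0:ℝ)..(c' * x), e y
        = (∫ y in (0:ℝ)..(c * x), e y) + ∫ y in (c * x)..(c' * x), e y :=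
      (intervalIntegral.integral_add_adjacent_intervals (hbme.ii _ _) (hbme.ii _ _)).symm
    have h3 := pert1 (φ := e) hc (by linarith : 0 ≤ 2 * B) hele hδ hcc hx
    have h4 := mul_exp_half_le_one hx
    have h5 : 2 * B * δ * (x * Real.exp (-x / 2)) ≤ 2 * B * δ * 1 :=
      mul_le_mul_of_nonneg_left h4 (by positivity)
    have h6 := le_abs_self (∫ y in (c * x)..(c' * x), e y)
    linarith
  -- main term
  set Fx := cF s (c * x) with hFx
  have hFxpos : 0 < Fx := h.cF_pos hcx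
  have hE1 : ∫ y in (0:ℝ)..(c * x), e y ≤ Fx * (1 + η * KK c s χ x + η ^ 2 * X ^ 2) := by
    have h1 : ∫ y in (0:ℝ)..(c * x), e y
        ≤ ∫ y in (0:ℝ)..(c * x), (gg c s y * (1 + η ^ 2 * X ^ 2) + η * (gg c s y * χ y)) := by
      apply intervalIntegral.integral_mono_on hcx.le (hbme.ii _ _)
      · exact ((h.bm_gg.mul (BM.const _)).add ((BM.const η).mul (h.bm_gg.mul hbmχ))).ii _ _
      · intro y _
        have h2 := exp_quad ((hηχ y).trans (by norm_num : (1:ℝ)/4 ≤ 1))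
        have h3 : (η * χ y) ^ 2 ≤ η ^ 2 * X ^ 2 := by
          rw [mul_pow]
          apply mul_le_mul_of_nonneg_left _ (sq_nonneg _)
          rw [← sq_abs (χ y)]
          exact pow_le_pow_left₀ (abs_nonneg _) (hχX y) 2
        have h4 : Real.exp (η * χ y) ≤ 1 + η * χ y + η ^ 2 * X ^ 2 := by linarith
        have h5 := mul_le_mul_of_nonneg_left h4 (h.gg_nonneg y)
        calc e y ≤ _ := h5
          _ = _ := by ring
    refine h1.trans (le_of_eq ?_)
    rw [intervalIntegral.integral_add ((h.bm_gg.mul (BM.const _)).ii _ _)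
      (((BM.const η).mul (h.bm_gg.mul hbmχ)).ii _ _), intervalIntegral.integral_mul_const,
      intervalIntegral.integral_const_mul, h.integral_gg0]
    have h6 : ∫ y in (0:ℝ)..(c * x), gg c s y * χ y = Fx * KK c s χ x := by
      unfold KK
      rw [← hFx]; field_simp
    rw [h6]; ring
  have hE2 : ∫ y in (0:ℝ)..(c * x), e y ≤ Fx * Real.exp (η * KK c s χ x + η ^ 2 * X ^ 2) := by
    refine hE1.trans (mul_le_mul_of_nonneg_left ?_ hFxpos.le)
    have := Real.add_one_le_exp (η * KK c s χ x + η ^ 2 * X ^ 2)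
    linarith
  set Q := KK c s r x - KK c s ρ0 x + psiN c s ψ (M + 1) x with hQ
  have hKχ : 1 + r x + KK c s χ x = χ x + Q := by
    have h1 : KK c s χ x = KK c s r x + KK c s (omN c s ψ μ M) x :=
      h.KK_add hr (bm_omN h hψ μ M) x
    have h2 : psiN c s ψ 1 x = 1 + KK c s ρ0 x := by
      show KK c s ψ x = _
      rw [hψdef, h.KK_add (BM.const 1) hρ0, h.KK_const 1 hx0]
    rw [h1, KK_omN h hψ μ M hx0, h2, hQ, hχ]
    ring
  have hmain : (1 + η) * (s x * Real.exp (η * r x)) * (∫ y in (0:ℝ)..(c * x), e y)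
      ≤ s x * Fx * Real.exp (η * χ x) * Real.exp (η * Q + η ^ 2 * X ^ 2) := by
    have h1 : 1 + η ≤ Real.exp η := by have := Real.add_one_le_exp η; linarith
    have h2 : 0 ≤ ∫ y in (0:ℝ)..(c * x), e y :=
      intervalIntegral.integral_nonneg hcx.le (fun y _ => he0 y)
    have h3 : 0 ≤ s x * Real.exp (η * r x) := mul_nonneg (h.pos x).le (Real.exp_pos _).le
    calc (1 + η) * (s x * Real.exp (η * r x)) * (∫ y in (0:ℝ)..(c * x), e y)
        ≤ Real.exp η * (s x * Real.exp (η * r x)) *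
            (Fx * Real.exp (η * KK c s χ x + η ^ 2 * X ^ 2)) :=
          mul_le_mul (mul_le_mul_of_nonneg_right h1 h3) hE2 h2
            (mul_nonneg (Real.exp_pos _).le h3)
      _ = s x * Fx * (Real.exp η * Real.exp (η * r x)
            * Real.exp (η * KK c s χ x + η ^ 2 * X ^ 2)) := by ring
      _ = s x * Fx * Real.exp (η * (1 + r x + KK c s χ x) + η ^ 2 * X ^ 2) := by
          rw [← Real.exp_add, ← Real.exp_add]; congr 2; ring
      _ = _ := by
          rw [hKχ, mul_assoc (s x * Fx), ← Real.exp_add]; congr 2; ring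
  -- bound on the difference of kernels
  have hKdiff : |KK c s r x - KK c s ρ0 x| ≤ ε / 8 := by
    have hA : KK c s r x ≤ KK c s ρ0 x + ε / 8 := by
      have h1 := h.KK_mono hr (hρ0.add (BM.const (ε / 8)))
        (fun y _ => by linarith [(abs_le.mp (hrρ y)).2]) hx0
      rwa [h.KK_add hρ0 (BM.const _), h.KK_const _ hx0] at h1
    have hB' : KK c s ρ0 x ≤ KK c s r x + ε / 8 := by
      have h1 := h.KK_mono hρ0 (hr.add (BM.const (ε / 8)))
        (fun y _ => by linarith [(abs_le.mp (hrρ y)).1]) hx0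
      rwa [h.KK_add hr (BM.const _), h.KK_const _ hx0] at h1
    rw [abs_le]; constructor <;> linarith
  have hη2X : η ^ 2 * X ^ 2 ≤ |η| * (ε / 8) := by
    have : η ^ 2 = |η| * |η| := by rw [← sq_abs]; ring
    rw [this, mul_assoc]
    exact mul_le_mul_of_nonneg_left hη3 hηpos.le
  -- error terms
  have hsx1 := h.le1 x
  have hsx0 := h.pos x
  have hσle : (1 + η) * (s x * Real.exp (η * r x)) ≤ 2 * s x := by
    have h1 := sig_le h hr0 hrR hηR4 x
    have h2 : (1 + η) * (s x * Real.exp (η * r x)) ≤ (3/2) * (4 / 3 * s x) :=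
      mul_le_mul (by linarith) h1 (mul_nonneg hsx0.le (Real.exp_pos _).le) (by norm_num)
    linarith
  have hσ0 : 0 ≤ (1 + η) * (s x * Real.exp (η * r x)) :=
    mul_nonneg (by linarith) (mul_nonneg hsx0.le (Real.exp_pos _).le)
  have htot : (1 + η) * (s x * Real.exp (η * r x)) * (∫ y in (0:ℝ)..(c' * x), (e y + ι y))
      ≤ s x * Fx * Real.exp (η * χ x) * Real.exp (η * Q + η ^ 2 * X ^ 2)
        + 2 * s x * (2 * B * δ + β * t₀) := by
    have h1 := mul_le_mul_of_nonneg_left hint hσ0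
    have h2 : (1 + η) * (s x * Real.exp (η * r x)) * (2 * B * δ + β * t₀)
        ≤ 2 * s x * (2 * B * δ + β * t₀) := mul_le_mul_of_nonneg_right hσle (by positivity)
    calc _ ≤ _ := h1
      _ = (1 + η) * (s x * Real.exp (η * r x)) * (∫ y in (0:ℝ)..(c * x), e y)
          + (1 + η) * (s x * Real.exp (η * r x)) * (2 * B * δ + β * t₀) := by ring
      _ ≤ _ := add_le_add hmain h2
  refine htot.trans ?_
  have hημb : |μ * η| ≤ |η| * μ := by
    rw [abs_mul, abs_of_nonneg (by linarith : 0 ≤ μ), mul_comm]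
  have hημb' := abs_le.mp hημb
  have hexp_e : e x = s x * Fx * Real.exp (η * χ x) := rfl
  have hθ0 : 0 ≤ |η| * ε := by positivity
  have hm4 : |μ * η| ≤ 1 / 4 := by
    refine hημb.trans ?_
    have e1 : |η| * (μ + ε) = |η| * μ + |η| * ε := by ring
    linarith
  rw [hexp_e]
  have hcomm : μ * η + ε * |η| = μ * η + |η| * ε := by ring
  rcases le_or_gt t₀ x with hxt | hxt
  · -- away from zero
    have hQμ : |Q - μ| ≤ ε / 4 := by
      have h1 := hconv x hxt
      have : Q - μ = (KK c s r x - KK c s ρ0 x) + (psiN c s ψ (M + 1) x - μ) := by rw [hQ]; ring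
      rw [this]
      exact (abs_add_le _ _).trans (by linarith)
    have h1 : η * Q + η ^ 2 * X ^ 2 ≤ μ * η + |η| * ε / 2 := by
      have h2 : η * (Q - μ) ≤ |η| * (ε / 4) := by
        refine (le_abs_self _).trans ?_
        rw [abs_mul]
        exact mul_le_mul_of_nonneg_left hQμ hηpos.le
      have h3 : η * (Q - μ) = η * Q - μ * η := by ring
      linarith
    have hFF : F₀ ≤ Fx := h.cF_mono (mul_le_mul_of_nonneg_left hxt hcpos.le)
    have h15 : β * t₀ ≤ F₀ * |η| * ε / 16 := by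
      have : β * t₀ = |η| * F₀ * (16 * (R + 1) * t₀) := by rw [hβ]; ring
      rw [this]
      have := mul_le_mul_of_nonneg_left ht2 (by positivity : 0 ≤ |η| * F₀)
      linarith
    have h16 : 2 * (2 * B * δ + β * t₀) ≤ F₀ * (|η| * ε / 4) := by linarith
    have hfar := fin_far hsx0 hFF hF₀pos hθ0 (hηχ x) hm4 h1 h16
    refine hfar.trans ?_
    rw [hcomm]
    apply mul_le_mul_of_nonneg_left _ (Real.exp_pos _).le
    linarith [hι0 x]
  · -- near zero
    have hQμ : |Q - μ| ≤ ε / 8 + R := by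
      have h1 := h.le_psiN hψ hψ1 (M + 1) x hx0
      have h2 := h.psiN_le hψ hψR (M + 1) x hx0
      have h3 : |psiN c s ψ (M + 1) x - μ| ≤ R := by rw [abs_le]; constructor <;> linarith
      have : Q - μ = (KK c s r x - KK c s ρ0 x) + (psiN c s ψ (M + 1) x - μ) := by rw [hQ]; ring
      rw [this]
      exact (abs_add_le _ _).trans (by linarith)
    have h1 : η * Q + η ^ 2 * X ^ 2 ≤ (μ * η + |η| * ε) + |η| * R := by
      have h2 : η * (Q - μ) ≤ |η| * (ε / 8 + R) := by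
        refine (le_abs_self _).trans ?_
        rw [abs_mul]
        exact mul_le_mul_of_nonneg_left hQμ hηpos.le
      have h3 : η * (Q - μ) = η * Q - μ * η := by ring
      have h4 : |η| * (ε / 8 + R) = |η| * ε / 8 + |η| * R := by ring
      linarith
    have hFF : Fx ≤ F₀ := h.cF_mono (mul_le_mul_of_nonneg_left hxt.le hcpos.le)
    have hιx : ι x = β := by
      have hmem : x ∈ Icc (0:ℝ) t₀ := ⟨hx, hxt.le⟩
      rw [hι]; exact indicator_of_mem hmem (fun _ => β)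
    have hl4 : |μ * η + |η| * ε| ≤ 1 / 4 := by
      refine (abs_add_le _ _).trans ?_
      rw [abs_of_nonneg hθ0]
      have e1 : |η| * (μ + ε) = |η| * μ + |η| * ε := by ring
      linarith
    have h13 : β * t₀ ≤ β / 32 := by
      have := mul_le_mul_of_nonneg_left ht1 hβpos.le
      linarith
    have h14 : 4 * F₀ * (|η| * R) ≤ β / 4 := by
      have e1 : β / 4 - 4 * F₀ * (|η| * R) = 4 * F₀ * |η| := by rw [hβ]; ring
      have e2 : 0 ≤ 4 * F₀ * |η| := by positivity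
      linarith
    rw [hιx, hcomm]
    exact fin_near hsx0 hsx1 hFxpos hFF (hηχ x) hl4 (by positivity) hηR4 h1 hβpos.le h14
      (by positivity) (by linarith)

end DWTree
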