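import Mathlib

open MeasureTheory Set Filter Topology

namespace DWTree

/-- Iterates converging to the survival function. -/
noncomputable def sN (c : ℝ) : ℕ → ℝ → ℝ
  | 0, _ => 0
  | n + 1, x => Real.exp (-(max x 0) + ∫ y in (0:ℝ)..(max x 0), sN c n (c * y))

lemma sN_cont (c : ℝ) (n : ℕ) : Continuous (sN c n) := by
  induction n with
  | zero => exact continuous_const
  | succ n ih =>
    have h1 : Continuous fun y : ℝ => sN c n (c * y) := ih.comp (by fun_prop)
    have h2 : Continuous fun z : ℝ => ∫ y in (0:ℝ)..z, sN c n (c * y) :=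
      intervalIntegral.continuous_primitive (fun a b => h1.intervalIntegrable a b) 0
    have h3 : Continuous fun x : ℝ => max x 0 := by fun_prop
    have h4 := h2.comp h3
    show Continuous fun x => Real.exp (-(max x 0) + ∫ y in (0:ℝ)..(max x 0), sN c n (c * y))
    exact Real.continuous_exp.comp (h3.neg.add h4)

lemma sN_nonneg (c : ℝ) (n : ℕ) (x : ℝ) : 0 ≤ sN c n x := by
  cases n with
  | zero => exact le_refl _
  | succ n => exact (Real.exp_pos _).le

/-- Supersolution. -/
noncomputable def sUp (c x : ℝ) : ℝ := min 1 (Real.exp (-(x - 2 / (c - 1)) / 2))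

lemma sUp_cont (c : ℝ) : Continuous (sUp c) := by
  unfold sUp; fun_prop

lemma sUp_le_one (c x : ℝ) : sUp c x ≤ 1 := min_le_left _ _

lemma sUp_bound (c : ℝ) (hc : 1 < c) (x : ℝ) (hx : 0 ≤ x) :
    -x + ∫ y in (0:ℝ)..x, sUp c (c * y) ≤ min 0 (-(x - 2 / (c - 1)) / 2) := by
  set x0 : ℝ := 2 / (c - 1) with hx0
  have hx0pos : 0 < x0 := by rw [hx0]; apply div_pos <;> linarith
  have hcont : Continuous fun y : ℝ => sUp c (c * y) := (sUp_cont c).comp (by fun_prop)
  have hint : ∀ a b : ℝ, IntervalIntegrable (fun y => sUp c (c * y)) volume a b :=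
    fun a b => hcont.intervalIntegrable a b
  have hA : ∀ b : ℝ, 0 ≤ b → ∫ y in (0:ℝ)..b, sUp c (c * y) ≤ b := by
    intro b hb
    have := intervalIntegral.integral_mono_on (a := 0) (b := b) (f := fun y => sUp c (c * y))
      (g := fun _ => (1:ℝ)) hb (hint 0 b) (by simp) (fun y _ => sUp_le_one _ _)
    simpa using this
  refine le_min (by linarith [hA x hx]) ?_
  rcases le_total x x0 with h | h
  · have := hA x hx
    linarith
  · have h1 : ∫ y in (0:ℝ)..x, sUp c (c * y)
        = (∫ y in (0:ℝ)..x0, sUp c (c * y)) + ∫ y in x0..x, sUp c (c * y) :=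
      (intervalIntegral.integral_add_adjacent_intervals (hint 0 x0) (hint x0 x)).symm
    have h2 : ∫ y in x0..x, sUp c (c * y) ≤ ∫ y in x0..x, (1 / 2 : ℝ) := by
      apply intervalIntegral.integral_mono_on h (hint x0 x) (by simp)
      intro y hy
      have hy1 : x0 ≤ y := hy.1
      unfold sUp
      refine (min_le_right _ _).trans ?_
      have e1 : -(c * y - 2 / (c - 1)) / 2 ≤ -1 := by
        rw [← hx0]
        have : (c - 1) * x0 = 2 := by
          rw [hx0]; field_simp
          rw [div_self]; linarith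
        nlinarith
      calc Real.exp (-(c * y - 2 / (c - 1)) / 2) ≤ Real.exp (-1) := Real.exp_le_exp.mpr e1
        _ ≤ 1 / 2 := by
          rw [Real.exp_neg]
          have : (2:ℝ) ≤ Real.exp 1 := by
            have := Real.add_one_le_exp (1:ℝ); linarith
          rw [one_div]
          exact inv_anti₀ (by norm_num) this
    have h3 : ∫ y in x0..x, (1 / 2 : ℝ) = (x - x0) / 2 := by
      simp; ring
    have h4 := hA x0 hx0pos.le
    rw [h1]
    linarith

lemma sN_le_sUp (c : ℝ) (hc : 1 < c) (n : ℕ) : ∀ x, sN c n x ≤ sUp c x := by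
  induction n with
  | zero =>
    intro x
    show (0:ℝ) ≤ _
    unfold sUp
    exact le_min zero_le_one (Real.exp_pos _).le
  | succ n ih =>
    intro x
    show Real.exp (-(max x 0) + ∫ y in (0:ℝ)..(max x 0), sN c n (c * y)) ≤ _
    have h0 : (0:ℝ) ≤ max x 0 := le_max_right _ _
    have h1 : ∫ y in (0:ℝ)..(max x 0), sN c n (c * y) ≤ ∫ y in (0:ℝ)..(max x 0), sUp c (c * y) := by
      apply intervalIntegral.integral_mono_on h0
      · exact ((sN_cont c n).comp (by fun_prop : Continuous fun y : ℝ => c * y)).intervalIntegrable _ _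
      · exact ((sUp_cont c).comp (by fun_prop : Continuous fun y : ℝ => c * y)).intervalIntegrable _ _
      · intro y _; exact ih _
    have h2 := sUp_bound c hc (max x 0) h0
    have h3 : -(max x 0) + ∫ y in (0:ℝ)..(max x 0), sN c n (c * y)
        ≤ min 0 (-(max x 0 - 2 / (c - 1)) / 2) := by linarith
    have hx0pos : 0 < 2 / (c - 1) := by apply div_pos <;> linarith
    unfold sUp
    refine le_min ?_ ?_
    · rw [← Real.exp_zero]
      exact Real.exp_le_exp.mpr (h3.trans (min_le_left _ _))
    · apply Real.exp_le_exp.mpr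
      refine h3.trans ?_
      rcases le_total x 0 with hx | hx
      · refine (min_le_left _ _).trans ?_
        linarith
      · refine (min_le_right _ _).trans ?_
        rw [max_eq_left hx]

lemma sN_mono (c : ℝ) (n : ℕ) : ∀ x, sN c n x ≤ sN c (n + 1) x := by
  induction n with
  | zero =>
    intro x
    exact sN_nonneg c 1 x
  | succ n ih =>
    intro x
    show Real.exp (-(max x 0) + ∫ y in (0:ℝ)..(max x 0), sN c n (c * y)) ≤
      Real.exp (-(max x 0) + ∫ y in (0:ℝ)..(max x 0), sN c (n+1) (c * y))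
    apply Real.exp_le_exp.mpr
    have h0 : (0:ℝ) ≤ max x 0 := le_max_right _ _
    have : ∫ y in (0:ℝ)..(max x 0), sN c n (c * y) ≤ ∫ y in (0:ℝ)..(max x 0), sN c (n+1) (c * y) := by
      apply intervalIntegral.integral_mono_on h0
      · exact ((sN_cont c n).comp (by fun_prop : Continuous fun y : ℝ => c * y)).intervalIntegrable _ _
      · exact ((sN_cont c (n+1)).comp (by fun_prop : Continuous fun y : ℝ => c * y)).intervalIntegrable _ _
      · intro y _; exact ih _
    linarith

/-- The survival function. -/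
noncomputable def sLim (c x : ℝ) : ℝ := ⨆ n, sN c n x

lemma sN_tendsto (c : ℝ) (hc : 1 < c) (x : ℝ) :
    Tendsto (fun n => sN c n x) atTop (𝓝 (sLim c x)) := by
  apply tendsto_atTop_ciSup
  · exact monotone_nat_of_le_succ (fun n => sN_mono c n x)
  · exact ⟨sUp c x, by rintro _ ⟨n, rfl⟩; exact sN_le_sUp c hc n x⟩

lemma sLim_le (c : ℝ) (hc : 1 < c) (x : ℝ) : sLim c x ≤ sUp c x :=
  le_of_tendsto' (sN_tendsto c hc x) (fun n => sN_le_sUp c hc n x)

lemma sLim_nonneg (c : ℝ) (hc : 1 < c) (x : ℝ) : 0 ≤ sLim c x :=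
  ge_of_tendsto' (sN_tendsto c hc x) (fun n => sN_nonneg c n x)

lemma sLim_meas (c : ℝ) (hc : 1 < c) : Measurable (sLim c) :=
  measurable_of_tendsto_metrizable (fun n => (sN_cont c n).measurable)
    (tendsto_pi_nhds.mpr (fun x => sN_tendsto c hc x))

lemma sLim_eq_max (c : ℝ) (hc : 1 < c) (x : ℝ) :
    sLim c x = Real.exp (-(max x 0) + ∫ y in (0:ℝ)..(max x 0), sLim c (c * y)) := by
  have h1 : Tendsto (fun n => sN c (n + 1) x) atTop (𝓝 (sLim c x)) :=
    (sN_tendsto c hc x).comp (tendsto_add_atTop_nat 1)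
  have h2 : Tendsto (fun n => ∫ y in (0:ℝ)..(max x 0), sN c n (c * y)) atTop
      (𝓝 (∫ y in (0:ℝ)..(max x 0), sLim c (c * y))) := by
    apply intervalIntegral.tendsto_integral_filter_of_dominated_convergence (fun _ => (1:ℝ))
    · exact Eventually.of_forall fun n =>
        ((sN_cont c n).comp (by fun_prop : Continuous fun y : ℝ => c * y)).aestronglyMeasurable
    · refine Eventually.of_forall fun n => Eventually.of_forall fun y _ => ?_
      rw [Real.norm_of_nonneg (sN_nonneg _ _ _)]
      exact (sN_le_sUp c hc n _).trans (sUp_le_one _ _)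
    · simp
    · exact Eventually.of_forall fun y _ => sN_tendsto c hc _
  have h3 : Tendsto (fun n => sN c (n + 1) x) atTop
      (𝓝 (Real.exp (-(max x 0) + ∫ y in (0:ℝ)..(max x 0), sLim c (c * y)))) := by
    show Tendsto (fun n => Real.exp (-(max x 0) + ∫ y in (0:ℝ)..(max x 0), sN c n (c * y))) _ _
    exact (Real.continuous_exp.tendsto _).comp (h2.const_add _)
  exact tendsto_nhds_unique h1 h3

lemma sLim_of_nonpos (c : ℝ) (hc : 1 < c) (x : ℝ) (hx : x ≤ 0) : sLim c x = 1 := by
  rw [sLim_eq_max c hc x, max_eq_right hx]; simp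

/-- The properties of the survival function used in the proof. -/
structure Surv (c : ℝ) (s : ℝ → ℝ) : Prop where
  hc : 1 < c
  cont : Continuous s
  eq : ∀ x, s x = Real.exp (-x + ∫ y in (0:ℝ)..x, s (c * y))
  le1 : ∀ x, s x ≤ 1
  dec : ∃ B, 1 ≤ B ∧ ∀ x, 0 ≤ x → s x ≤ B * Real.exp (-x / 2)

theorem exists_surv (c : ℝ) (hc : 1 < c) : ∃ s, Surv c s := by
  refine ⟨sLim c, hc, ?_, ?_, ?_, ?_⟩
  · have hm : Measurable fun y : ℝ => sLim c (c * y) := (sLim_meas c hc).comp (by fun_prop)
    have hint : ∀ a b : ℝ, IntervalIntegrable (fun y => sLim c (c * y)) volume a b := by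
      intro a b
      apply (intervalIntegrable_const (c := (1:ℝ))).mono_fun hm.aestronglyMeasurable
      refine Eventually.of_forall fun y => ?_
      show ‖sLim c (c * y)‖ ≤ ‖(1:ℝ)‖
      rw [Real.norm_of_nonneg (sLim_nonneg c hc _)]
      simpa using (sLim_le c hc _).trans (sUp_le_one _ _)
    have h2 : Continuous fun z : ℝ => ∫ y in (0:ℝ)..z, sLim c (c * y) :=
      intervalIntegral.continuous_primitive hint 0
    have h3 : Continuous fun x : ℝ => max x 0 := by fun_prop
    have h5 : sLim c = fun x => Real.exp (-(max x 0) + ∫ y in (0:ℝ)..(max x 0), sLim c (c * y)) :=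
      funext (sLim_eq_max c hc)
    rw [h5]
    exact Real.continuous_exp.comp (h3.neg.add (h2.comp h3))
  · intro x
    rcases le_total x 0 with hx | hx
    · have h1 : ∫ y in (0:ℝ)..x, sLim c (c * y) = ∫ y in (0:ℝ)..x, (1:ℝ) := by
        apply intervalIntegral.integral_congr
        intro y hy
        rw [uIcc_of_ge hx] at hy
        exact sLim_of_nonpos c hc _ (mul_nonpos_of_nonneg_of_nonpos (by linarith) hy.2)
      rw [h1, sLim_of_nonpos c hc x hx]
      simp
    · conv_lhs => rw [sLim_eq_max c hc x]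
      rw [max_eq_left hx]
  · intro x
    exact (sLim_le c hc x).trans (sUp_le_one _ _)
  · have hx0pos : 0 < 2 / (c - 1) := by apply div_pos <;> linarith
    refine ⟨Real.exp (2 / (c - 1) / 2), Real.one_le_exp (by linarith), ?_⟩
    intro x hx
    refine (sLim_le c hc x).trans ((min_le_right _ _).trans (le_of_eq ?_))
    rw [← Real.exp_add]; congr 1; ring

end DWTree
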