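import Pool.Agent.Lib.MP_6f9530_pr.Chain

open MeasureTheory Set Filter Topology
open scoped ENNReal

namespace DWTree

variable {s' : ℝ} {f : ℕ → ℝ} {K : ℕ}

lemma meas_path {Ω : Type*} [MeasurableSpace Ω] {A : (n : ℕ) → Ω → Fin (n + 1)}
    (hA : ∀ n, Measurable (A n)) (n : ℕ) (g : Att → ℝ≥0∞)
    (hg : ∀ a b : Att, (∀ m < n, a m = b m) → g a = g b) :
    Measurable fun ω => g (fun m => A m ω) := by
  set X : Ω → ((m : Fin n) → Fin ((m : ℕ) + 1)) := fun ω m => A m ω with hXdef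
  have hX : Measurable X := measurable_pi_iff.mpr (fun m => hA m)
  have h1 : (fun ω => g (fun m => A m ω)) = (fun x => g (extP n x)) ∘ X := by
    funext ω
    apply hg
    intro m hm
    show _ = extP n (X ω) m
    unfold extP; rw [dif_pos hm]
  rw [h1]
  exact (measurable_of_countable _).comp hX

lemma yy_expect {Ω : Type*} [MeasurableSpace Ω] {P : Measure Ω} [IsProbabilityMeasure P]
    {A : (n : ℕ) → Ω → Fin (n + 1)} (h : IsDWT P f A) (hs : 0 ≤ s') (hf : ∀ d, 0 < f d) (n : ℕ) :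
    ∫⁻ ω, ENNReal.ofReal (yy s' f K n (fun m => A m ω)) ∂P = ENNReal.ofReal (Fv s' f K [0]) := by
  induction n with
  | zero => simp [yy]
  | succ n ih =>
    rw [lint_step h n (fun a => ENNReal.ofReal (yy s' f K (n + 1) a))
      (fun a b hab => by rw [yy_congr (n + 1) (fun m hm => hab m (by omega))]), ← ih]
    apply lintegral_congr
    intro ω
    set a : Att := fun m => A m ω with ha
    rw [← yy_step hs hf n a]
    have hZpos : 0 < ∑ i ∈ Finset.range (n + 1), f (dep a i) :=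
      Finset.sum_pos (fun i _ => hf _) ⟨0, by simp⟩
    rw [ENNReal.ofReal_sum_of_nonneg]
    · apply Finset.sum_congr rfl
      intro j _
      rw [ENNReal.ofReal_mul (div_nonneg (hf _).le hZpos.le)]
    · intro j _
      exact mul_nonneg (div_nonneg (hf _).le hZpos.le) (yy_nonneg hs hf _ _)

lemma tail_alive {Ω : Type*} [MeasurableSpace Ω] {P : Measure Ω} [IsProbabilityMeasure P]
    {A : (n : ℕ) → Ω → Fin (n + 1)} (h : IsDWT P f A) (hs : 1 ≤ s') (hf : ∀ d, 0 < f d) (n : ℕ) :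
    ENNReal.ofReal (s' ^ n) * P {ω | Alive K n (fun m => A m ω)}
      ≤ ENNReal.ofReal (Fv s' f K [0]) := by
  have hs0 : 0 ≤ s' := by linarith
  rw [← yy_expect (K := K) h hs0 hf n]
  have hm : Measurable fun ω => ENNReal.ofReal (yy s' f K n (fun m => A m ω)) :=
    meas_path h.meas n (fun a => ENNReal.ofReal (yy s' f K n a))
      (fun a b hab => by rw [yy_congr n hab])
  refine le_trans ?_ (mul_meas_ge_le_lintegral hm (ENNReal.ofReal (s' ^ n)))
  apply mul_le_mul_right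
  apply measure_mono
  intro ω hω
  show ENNReal.ofReal (s' ^ n) ≤ ENNReal.ofReal (yy s' f K n (fun m => A m ω))
  apply ENNReal.ofReal_le_ofReal
  rw [yy_alive n _ hω]
  have h1 := one_le_Fv (s' := s') (f := f) (K := K) hs hf (lst_ne_nil (fun m => A m ω) n)
    (alive_lst hω)
  have h2 := pow_nonneg hs0 n
  calc s' ^ n = s' ^ n * 1 := (mul_one _).symm
    _ ≤ _ := mul_le_mul_of_nonneg_left h1 h2

lemma tail_dead {Ω : Type*} [MeasurableSpace Ω] {P : Measure Ω} [IsProbabilityMeasure P]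
    {A : (n : ℕ) → Ω → Fin (n + 1)} (h : IsDWT P f A) (hs0 : 0 ≤ s') (hs : s' ≤ 1)
    (hf : ∀ d, 0 < f d) (hK : 1 ≤ K) (n : ℕ) :
    ENNReal.ofReal (s' ^ n) * P {ω | ¬ Alive K n (fun m => A m ω)}
      ≤ ENNReal.ofReal (Fv s' f K [0]) := by
  rw [← yy_expect (K := K) h hs0 hf n]
  have hm : Measurable fun ω => ENNReal.ofReal (yy s' f K n (fun m => A m ω)) :=
    meas_path h.meas n (fun a => ENNReal.ofReal (yy s' f K n a))
      (fun a b hab => by rw [yy_congr n hab])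
  refine le_trans ?_ (mul_meas_ge_le_lintegral hm (ENNReal.ofReal (s' ^ n)))
  apply mul_le_mul_right
  apply measure_mono
  intro ω hω
  show ENNReal.ofReal (s' ^ n) ≤ ENNReal.ofReal (yy s' f K n (fun m => A m ω))
  apply ENNReal.ofReal_le_ofReal
  exact yy_dead hs0 hs hK n _ hω

/-- Borel-Cantelli with geometric tails. -/
lemma bc {Ω : Type*} [MeasurableSpace Ω] {P : Measure Ω} {S : ℕ → Set Ω} {C q : ℝ} {n₀ : ℕ}
    (hC : 0 ≤ C) (hq0 : 0 ≤ q) (hq1 : q < 1)
    (h : ∀ n, n₀ ≤ n → P (S n) ≤ ENNReal.ofReal (C * q ^ n)) :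
    ∀ᵐ ω ∂P, ∀ᶠ n in atTop, ω ∉ S n := by
  have hsum : Summable fun n : ℕ => C * q ^ (n + n₀) := by
    have := (summable_geometric_of_lt_one hq0 hq1).mul_left (C * q ^ n₀)
    refine this.congr (fun n => ?_)
    rw [pow_add]; ring
  have h1 : ∑' n, P (S (n + n₀)) ≠ ∞ := by
    have h2 : ∑' n, P (S (n + n₀)) ≤ ∑' n, ENNReal.ofReal (C * q ^ (n + n₀)) :=
      ENNReal.tsum_le_tsum (fun n => h (n + n₀) (by omega))
    rw [← ENNReal.ofReal_tsum_of_nonneg (fun n => by positivity) hsum] at h2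
    exact ne_top_of_le_ne_top ENNReal.ofReal_ne_top h2
  have h3 := ae_eventually_notMem h1
  filter_upwards [h3] with ω hω
  rw [eventually_atTop] at hω ⊢
  obtain ⟨N, hN⟩ := hω
  refine ⟨N + n₀, fun n hn => ?_⟩
  have := hN (n - n₀) (by omega)
  rwa [Nat.sub_add_cancel (by omega)] at this

/-- From the supersolutions: growth of the value of the root. -/
lemma root_growth {c μ ε η δ C I : ℝ} {σ γ : ℝ → ℝ} (hf : ∀ d, 0 < f d)
    (hlim : Tendsto (fun k => f (k + 1) / f k) atTop (𝓝 c)) (hδ : 0 < δ) (hη : -1 ≤ η)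
    (hS : SuperPair c δ (1 + η) (μ * η + ε * |η|) σ γ C I) :
    ∃ (D : ℝ) (d₀ : ℕ), 0 ≤ D ∧ ∀ K, 1 + d₀ ≤ K →
      Fv (1 + η) f K [0] ≤ D * Real.exp ((μ * η + ε * |η|) * ((K : ℝ) - 1 - d₀)) := by
  have hev : ∀ᶠ k in atTop, |f (k + 1) / f k - c| < δ := by
    have := hlim.eventually (Metric.ball_mem_nhds c hδ)
    filter_upwards [this] with k hk
    rw [← Real.dist_eq]; exact hk
  obtain ⟨d₀, hd₀⟩ := eventually_atTop.mp hev
  have hs : 0 ≤ 1 + η := by linarith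
  obtain ⟨D, hD, hb⟩ := Gam_growth hs hf hS (d₀ := d₀) (fun d hd => (hd₀ d hd).le)
  refine ⟨D, d₀, hD, fun K hK => ?_⟩
  obtain ⟨m, rfl⟩ : ∃ m, K = m + 1 + d₀ := ⟨K - 1 - d₀, by omega⟩
  have h1 := Fv_root_le (s' := 1 + η) (f := f) (K := m + 1 + d₀) hs hf (by omega)
    (D := D * Real.exp ((μ * η + ε * |η|) * m)) (fun t ht => hb m t ht)
  refine h1.trans (le_of_eq ?_)
  congr 3
  push_cast; ring

/-- Depth at most `a n` eventually, for `a` above the critical value. -/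
lemma depth_upper {c μ : ℝ} (hμ : 1 < μ)
    (hsup : ∀ ε > 0, ∃ η₀ > 0, ∀ η : ℝ, η ≠ 0 → |η| ≤ η₀ →
      ∃ (δ : ℝ) (σ γ : ℝ → ℝ) (C I : ℝ), 0 < δ ∧
        SuperPair c δ (1 + η) (μ * η + ε * |η|) σ γ C I)
    (hf : ∀ d, 0 < f d) (hlim : Tendsto (fun k => f (k + 1) / f k) atTop (𝓝 c))
    {Ω : Type*} [MeasurableSpace Ω] {P : Measure Ω} [IsProbabilityMeasure P]
    {A : (n : ℕ) → Ω → Fin (n + 1)} (h : IsDWT P f A) {a : ℝ} (ha : 1 / μ < a) :
    ∀ᵐ ω ∂P, ∀ᶠ n : ℕ in atTop, Alive ⌈a * (n:ℝ)⌉₊ n (fun m => A m ω) := by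
  have hμ0 : 0 < μ := by linarith
  have ha0 : 0 < a := lt_trans (by positivity) ha
  have hμa : 1 < μ * a := by rw [div_lt_iff₀ hμ0] at ha; linarith
  set ε := (μ * a - 1) / (2 * a) with hε
  have hεpos : 0 < ε := div_pos (by linarith) (by linarith)
  have hεa : ε * a = (μ * a - 1) / 2 := by rw [hε]; field_simp
  obtain ⟨η₀, hη₀, hη₀'⟩ := hsup ε hεpos
  obtain ⟨η, hη0, hη1, hη2, hη3⟩ : ∃ η > 0, η ≤ η₀ ∧ η ≤ 1 / 2 ∧ 8 * η ≤ μ * a - 1 := by
    refine ⟨min (min η₀ (1 / 2)) ((μ * a - 1) / 8), ?_, ?_, ?_, ?_⟩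
    · apply lt_min (lt_min hη₀ (by norm_num)); linarith
    · exact (min_le_left _ _).trans (min_le_left _ _)
    · exact (min_le_left _ _).trans (min_le_right _ _)
    · have := min_le_right (min η₀ (1 / 2)) ((μ * a - 1) / 8); linarith
  obtain ⟨δ, σ, γ, C, I, hδ, hS⟩ := hη₀' (-η) (by linarith) (by rw [abs_neg, abs_of_pos hη0]; exact hη1)
  obtain ⟨D, d₀, hD, hroot⟩ := root_growth hf hlim hδ (by linarith : (-1:ℝ) ≤ -η) hS
  set lam := μ * (-η) + ε * |(-η)| with hlam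
  have hlam' : lam = -(μ - ε) * η := by rw [hlam, abs_neg, abs_of_pos hη0]; ring
  have hlama : lam * a = -((μ * a + 1) / 2) * η := by
    rw [hlam']
    calc -(μ - ε) * η * a = -(μ * a - ε * a) * η := by ring
      _ = _ := by rw [hεa]; ring
  have hlamneg : lam ≤ 0 := by
    by_contra hcon
    push Not at hcon
    have h1 := mul_pos hcon ha0
    rw [hlama] at h1
    have h2 : 0 < (μ * a + 1) / 2 * η := by positivity
    linarith
  set q := Real.exp (lam * a + (η + 2 * η ^ 2)) with hq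
  have hq1 : q < 1 := by
    rw [hq, Real.exp_lt_one_iff, hlama]
    nlinarith
  have hgoal : ∀ᵐ ω ∂P, ∀ᶠ n : ℕ in atTop, ω ∉ {ω | ¬ Alive ⌈a * (n:ℝ)⌉₊ n (fun m => A m ω)} := by
    apply bc (C := D * Real.exp (-lam * (1 + d₀))) (q := q) (n₀ := ⌈((1:ℝ) + d₀) / a⌉₊)
      (by positivity) (Real.exp_pos _).le hq1
    intro n hn
    have hn' : (1:ℝ) + d₀ ≤ a * n := by
      have := Nat.ceil_le.mp hn
      rw [div_le_iff₀ ha0] at this; linarith
    set K := ⌈a * n⌉₊ with hK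
    have hKa : a * n ≤ (K:ℝ) := Nat.le_ceil _
    have hK1 : 1 + d₀ ≤ K := by
      have : ((1 + d₀ : ℕ) : ℝ) ≤ K := by push_cast; linarith
      exact_mod_cast this
    have h1 := tail_dead (K := K) h (by linarith : (0:ℝ) ≤ 1 + -η) (by linarith) hf (by omega) n
    have h2 := hroot K hK1
    have hs : (0:ℝ) < (1 + -η) ^ n := by apply pow_pos; linarith
    have h3 : ENNReal.ofReal ((1 + -η) ^ n) ≠ 0 := by
      rw [Ne, ENNReal.ofReal_eq_zero]; push Not; exact hs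
    have h4 : P {ω | ¬ Alive K n (fun m => A m ω)}
        ≤ ENNReal.ofReal (Fv (1 + -η) f K [0]) / ENNReal.ofReal ((1 + -η) ^ n) := by
      rw [ENNReal.le_div_iff_mul_le (Or.inl h3) (Or.inl ENNReal.ofReal_ne_top), mul_comm]
      exact h1
    refine h4.trans ?_
    rw [← ENNReal.ofReal_div_of_pos hs]
    apply ENNReal.ofReal_le_ofReal
    rw [div_le_iff₀ hs]
    refine h2.trans ?_
    -- real inequality
    have e1 : Real.exp (lam * ((K:ℝ) - 1 - d₀)) ≤ Real.exp (-lam * (1 + d₀)) * Real.exp (lam * a * n) := by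
      rw [← Real.exp_add]
      apply Real.exp_le_exp.mpr
      have := mul_le_mul_of_nonneg_left hKa (neg_nonneg.mpr hlamneg)
      nlinarith
    have e2 : (1:ℝ) ≤ Real.exp ((η + 2 * η ^ 2) * n) * (1 + -η) ^ n := by
      have e3 : (1:ℝ) ≤ Real.exp (η + 2 * η ^ 2) * (1 + -η) := by
        have := Real.add_one_le_exp (η + 2 * η ^ 2)
        have h5 : (1:ℝ) ≤ (η + 2 * η ^ 2 + 1) * (1 + -η) := by nlinarith [mul_nonneg (sq_nonneg η) (by linarith : 0 ≤ 1 - 2 * η)]
        exact h5.trans (mul_le_mul_of_nonneg_right this (by linarith))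
      have e4 : Real.exp ((η + 2 * η ^ 2) * n) = Real.exp (η + 2 * η ^ 2) ^ n := by
        rw [← Real.exp_nat_mul]; congr 1; ring
      rw [e4, ← mul_pow]
      exact one_le_pow₀ e3
    have e5 : q ^ n = Real.exp (lam * a * n) * Real.exp ((η + 2 * η ^ 2) * n) := by
      rw [hq, ← Real.exp_nat_mul, ← Real.exp_add]; congr 1; ring
    rw [e5]
    calc D * Real.exp (lam * ((K:ℝ) - 1 - d₀))
        ≤ D * (Real.exp (-lam * (1 + d₀)) * Real.exp (lam * a * n)) * 1 := by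
          rw [mul_one]; exact mul_le_mul_of_nonneg_left e1 hD
      _ ≤ D * (Real.exp (-lam * (1 + d₀)) * Real.exp (lam * a * n))
          * (Real.exp ((η + 2 * η ^ 2) * n) * (1 + -η) ^ n) :=
          mul_le_mul_of_nonneg_left e2 (by positivity)
      _ = _ := by ring
  filter_upwards [hgoal] with ω hω
  filter_upwards [hω] with n hn
  exact not_not.mp hn

/-- Depth at least `a n` eventually, for `a` below the critical value. -/
lemma depth_lower {c μ : ℝ} (hμ : 1 < μ)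
    (hsup : ∀ ε > 0, ∃ η₀ > 0, ∀ η : ℝ, η ≠ 0 → |η| ≤ η₀ →
      ∃ (δ : ℝ) (σ γ : ℝ → ℝ) (C I : ℝ), 0 < δ ∧
        SuperPair c δ (1 + η) (μ * η + ε * |η|) σ γ C I)
    (hf : ∀ d, 0 < f d) (hlim : Tendsto (fun k => f (k + 1) / f k) atTop (𝓝 c))
    {Ω : Type*} [MeasurableSpace Ω] {P : Measure Ω} [IsProbabilityMeasure P]
    {A : (n : ℕ) → Ω → Fin (n + 1)} (h : IsDWT P f A) {a : ℝ} (ha0 : 0 < a) (ha : a < 1 / μ) :
    ∀ᵐ ω ∂P, ∀ᶠ n : ℕ in atTop, ¬ Alive ⌈a * (n:ℝ)⌉₊ n (fun m => A m ω) := by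
  have hμ0 : 0 < μ := by linarith
  have hμa : μ * a < 1 := by rw [lt_div_iff₀ hμ0] at ha; linarith
  set ε := (1 - μ * a) / (2 * a) with hε
  have hεpos : 0 < ε := div_pos (by linarith) (by linarith)
  have hεa : ε * a = (1 - μ * a) / 2 := by rw [hε]; field_simp
  obtain ⟨η₀, hη₀, hη₀'⟩ := hsup ε hεpos
  obtain ⟨η, hη0, hη1, hη2, hη3⟩ : ∃ η > 0, η ≤ η₀ ∧ η ≤ 1 / 2 ∧ 8 * η ≤ 1 - μ * a := by
    refine ⟨min (min η₀ (1 / 2)) ((1 - μ * a) / 8), ?_, ?_, ?_, ?_⟩
    · apply lt_min (lt_min hη₀ (by norm_num)); linarith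
    · exact (min_le_left _ _).trans (min_le_left _ _)
    · exact (min_le_left _ _).trans (min_le_right _ _)
    · have := min_le_right (min η₀ (1 / 2)) ((1 - μ * a) / 8); linarith
  obtain ⟨δ, σ, γ, C, I, hδ, hS⟩ := hη₀' η (by linarith) (by rw [abs_of_pos hη0]; exact hη1)
  obtain ⟨D, d₀, hD, hroot⟩ := root_growth hf hlim hδ (by linarith : (-1:ℝ) ≤ η) hS
  set lam := μ * η + ε * |η| with hlam
  have hlam' : lam = (μ + ε) * η := by rw [hlam, abs_of_pos hη0]; ring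
  have hlama : lam * a = ((μ * a + 1) / 2) * η := by
    rw [hlam']
    calc (μ + ε) * η * a = (μ * a + ε * a) * η := by ring
      _ = _ := by rw [hεa]; ring
  have hlampos : 0 ≤ lam := by rw [hlam']; positivity
  set q := Real.exp (lam * a - (η - η ^ 2)) with hq
  have hq1 : q < 1 := by
    rw [hq, Real.exp_lt_one_iff, hlama]
    nlinarith
  have hgoal : ∀ᵐ ω ∂P, ∀ᶠ n : ℕ in atTop, ω ∉ {ω | Alive ⌈a * (n:ℝ)⌉₊ n (fun m => A m ω)} := by
    apply bc (C := D) (q := q) (n₀ := ⌈((1:ℝ) + d₀) / a⌉₊) hD (Real.exp_pos _).le hq1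
    intro n hn
    have hn' : (1:ℝ) + d₀ ≤ a * n := by
      have := Nat.ceil_le.mp hn
      rw [div_le_iff₀ ha0] at this; linarith
    set K := ⌈a * n⌉₊ with hK
    have hKa : a * n ≤ (K:ℝ) := Nat.le_ceil _
    have hKb : (K:ℝ) < a * n + 1 := Nat.ceil_lt_add_one (by positivity)
    have hK1 : 1 + d₀ ≤ K := by
      have : ((1 + d₀ : ℕ) : ℝ) ≤ K := by push_cast; linarith
      exact_mod_cast this
    have h1 := tail_alive (K := K) h (by linarith : (1:ℝ) ≤ 1 + η) hf n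
    have h2 := hroot K hK1
    have hs : (0:ℝ) < (1 + η) ^ n := by apply pow_pos; linarith
    have h3 : ENNReal.ofReal ((1 + η) ^ n) ≠ 0 := by
      rw [Ne, ENNReal.ofReal_eq_zero]; push Not; exact hs
    have h4 : P {ω | Alive K n (fun m => A m ω)}
        ≤ ENNReal.ofReal (Fv (1 + η) f K [0]) / ENNReal.ofReal ((1 + η) ^ n) := by
      rw [ENNReal.le_div_iff_mul_le (Or.inl h3) (Or.inl ENNReal.ofReal_ne_top), mul_comm]
      exact h1
    refine h4.trans ?_
    rw [← ENNReal.ofReal_div_of_pos hs]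
    apply ENNReal.ofReal_le_ofReal
    rw [div_le_iff₀ hs]
    refine h2.trans ?_
    have e1 : Real.exp (lam * ((K:ℝ) - 1 - d₀)) ≤ Real.exp (lam * a * n) := by
      apply Real.exp_le_exp.mpr
      have h5 : (K:ℝ) - 1 - d₀ ≤ a * n := by
        have : (0:ℝ) ≤ d₀ := by positivity
        linarith
      have := mul_le_mul_of_nonneg_left h5 hlampos
      linarith
    have e2 : (1:ℝ) ≤ Real.exp (-(η - η ^ 2) * n) * (1 + η) ^ n := by
      have e3 : (1:ℝ) ≤ Real.exp (-(η - η ^ 2)) * (1 + η) := by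
        have h6 : |η - η ^ 2| ≤ 1 := by rw [abs_le]; constructor <;> nlinarith
        have h5 : Real.exp (η - η ^ 2) ≤ 1 + η := by
          have h7 := exp_quad h6
          have h8 : (η - η ^ 2) ^ 2 ≤ η ^ 2 := by
            apply pow_le_pow_left₀ (by nlinarith)
            nlinarith
          linarith
        rw [Real.exp_neg, ← div_eq_inv_mul, le_div_iff₀ (Real.exp_pos _), one_mul]
        exact h5
      have e4 : Real.exp (-(η - η ^ 2) * n) = Real.exp (-(η - η ^ 2)) ^ n := by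
        rw [← Real.exp_nat_mul]; congr 1; ring
      rw [e4, ← mul_pow]
      exact one_le_pow₀ e3
    have e5 : q ^ n = Real.exp (lam * a * n) * Real.exp (-(η - η ^ 2) * n) := by
      rw [hq, ← Real.exp_nat_mul, ← Real.exp_add]; congr 1; ring
    rw [e5]
    calc D * Real.exp (lam * ((K:ℝ) - 1 - d₀))
        ≤ D * Real.exp (lam * a * n) * 1 := by
          rw [mul_one]; exact mul_le_mul_of_nonneg_left e1 hD
      _ ≤ D * Real.exp (lam * a * n) * (Real.exp (-(η - η ^ 2) * n) * (1 + η) ^ n) :=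
          mul_le_mul_of_nonneg_left e2 (by positivity)
      _ = _ := by ring
  exact hgoal

end DWTree
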